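import Pool.Agent.Y883.T5.Scale

set_option autoImplicit false

/-! Linear equations in three primes with one large coefficient: all scales. -/

namespace Pool.Agent.Y883.T5

open Finset
open Pool.Agent.H373R2.T7
open Pool.Agent.Y883.T3

/-- the admissible quadruples: `a`, `b`, `c` are nonzero and not of the same sign, `a + b + c - d` is even,
and each of `gcd(a, b, c)`, `gcd(d, a, b)`, `gcd(d, a, c)`, `gcd(d, b, c)` is one -/
structure Admissible (a b c d : ℤ) : Prop where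
  a_ne : a ≠ 0
  b_ne : b ≠ 0
  c_ne : c ≠ 0
  not_pos : ¬ (0 < a ∧ 0 < b ∧ 0 < c)
  not_neg : ¬ (a < 0 ∧ b < 0 ∧ c < 0)
  even : Even (a + b + c - d)
  gcd_abc : Int.gcd (Int.gcd a b) c = 1
  gcd_dab : Int.gcd (Int.gcd d a) b = 1
  gcd_dac : Int.gcd (Int.gcd d a) c = 1
  gcd_dbc : Int.gcd (Int.gcd d b) c = 1

lemma no_common {a b c : ℤ} (h : Int.gcd (Int.gcd a b) c = 1) (p : ℕ) (hp : p.Prime) :
    ¬ ((p : ℤ) ∣ a ∧ (p : ℤ) ∣ b ∧ (p : ℤ) ∣ c) := by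
  rintro ⟨h1, h2, h3⟩
  have h4 : (p : ℤ) ∣ (Int.gcd a b : ℤ) := Int.dvd_coe_gcd h1 h2
  have h5 : (p : ℤ) ∣ (Int.gcd (Int.gcd a b) c : ℤ) := Int.dvd_coe_gcd h4 h3
  rw [h] at h5
  have h6 : p ∣ 1 := by exact_mod_cast h5
  exact hp.one_lt.ne' (Nat.dvd_one.1 h6)

lemma Adm.swap {a b q d : ℤ} (h : Adm a b q d) : Adm b a q d := by
  refine ⟨fun p hp h1 => h.h1 p hp ⟨h1.2.1, h1.1, h1.2.2⟩, fun p hp h1 => h.h2 p hp ⟨h1.1, h1.2.2, h1.2.1⟩,
    h.h4, h.h3, ?_⟩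
  have := h.par
  rwa [add_comm b a]

lemma sol_core {N T q X : ℕ} (hS : Solv N T q) (hX1 : 8 * X ≤ N) (hX2 : N ≤ 16 * X) {a b d : ℤ} (ha : a ≠ 0) (hb : b ≠ 0)
    (hpos : 0 < a ∨ 0 < b) (haT : |(a : ℝ)| ≤ Real.log N ^ T) (hbT : |(b : ℝ)| ≤ Real.log N ^ T) (hd : |d| ≤ X)
    (hadm : Adm a b q d) :
    ∃ p n r : ℕ, p.Prime ∧ n.Prime ∧ r.Prime ∧ a * p + b * n = d + q * r ∧ p ≤ 3 * X ∧ n ≤ 3 * X ∧ r ≤ 3 * X := by
  have hcast : ∀ x : ℤ, ((x.natAbs : ℕ) : ℝ) = |(x : ℝ)| := fun x => by rw [Nat.cast_natAbs]; push_cast; rfl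
  rcases hpos with h | h
  · refine hS a b d X hX1 hX2 hd h hb ?_ (by rw [hcast]; exact hbT) hadm
    exact (le_abs_self _).trans haT
  · obtain ⟨p, n, r, h1, h2, h3, h4, h5, h6, h7⟩ := hS b a d X hX1 hX2 hd h ha ((le_abs_self _).trans hbT)
      (by rw [hcast]; exact haT) hadm.swap
    exact ⟨n, p, r, h2, h1, h3, by rw [add_comm, h4], h6, h5, h7⟩

theorem sol_of_solv {N T q X : ℕ} (hS : Solv N T q) (hX1 : 8 * X ≤ N) (hX2 : N ≤ 16 * X) {a b c d : ℤ}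
    (h : Admissible a b c d) (hq : (q : ℤ) = |c|) (haT : |(a : ℝ)| ≤ Real.log N ^ T)
    (hbT : |(b : ℝ)| ≤ Real.log N ^ T) (hd : |d| ≤ X) :
    ∃ p n r : ℕ, p.Prime ∧ n.Prime ∧ r.Prime ∧ a * p + b * n + c * r = d ∧ p ≤ 3 * X ∧ n ≤ 3 * X ∧ r ≤ 3 * X := by
  have heven : (2 : ℤ) ∣ a + b + c - d := h.even.two_dvd
  rcases lt_or_gt_of_ne h.c_ne with hc | hc
  · have hqc : (q : ℤ) = -c := by rw [hq, abs_of_neg hc]
    have hpos : 0 < a ∨ 0 < b := by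
      by_contra hcon
      push Not at hcon
      exact h.not_neg ⟨lt_of_le_of_ne hcon.1 h.a_ne, lt_of_le_of_ne hcon.2 h.b_ne, hc⟩
    have hadm : Adm a b q d := by
      rw [hqc]
      refine ⟨fun p hp h1 => no_common h.gcd_abc p hp ⟨h1.1, h1.2.1, (dvd_neg).1 h1.2.2⟩,
        fun p hp h1 => no_common h.gcd_dab p hp h1,
        fun p hp h1 => no_common h.gcd_dac p hp ⟨h1.1, h1.2.1, (dvd_neg).1 h1.2.2⟩,
        fun p hp h1 => no_common h.gcd_dbc p hp ⟨h1.1, h1.2.1, (dvd_neg).1 h1.2.2⟩, ?_⟩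
      rw [sub_neg_eq_add]
      exact heven
    obtain ⟨p, n, r, h1, h2, h3, h4, h5, h6, h7⟩ := sol_core hS hX1 hX2 h.a_ne h.b_ne hpos haT hbT hd hadm
    refine ⟨p, n, r, h1, h2, h3, ?_, h5, h6, h7⟩
    rw [hqc] at h4
    linarith
  · have hqc : (q : ℤ) = c := by rw [hq, abs_of_pos hc]
    have hpos : 0 < -a ∨ 0 < -b := by
      by_contra hcon
      push Not at hcon
      exact h.not_pos ⟨lt_of_le_of_ne (by linarith [hcon.1]) h.a_ne.symm, lt_of_le_of_ne (by linarith [hcon.2]) h.b_ne.symm, hc⟩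
    have hadm : Adm (-a) (-b) q (-d) := by
      rw [hqc]
      refine ⟨fun p hp h1 => no_common h.gcd_abc p hp ⟨(dvd_neg).1 h1.1, (dvd_neg).1 h1.2.1, h1.2.2⟩,
        fun p hp h1 => no_common h.gcd_dab p hp ⟨(dvd_neg).1 h1.1, (dvd_neg).1 h1.2.1, (dvd_neg).1 h1.2.2⟩,
        fun p hp h1 => no_common h.gcd_dac p hp ⟨(dvd_neg).1 h1.1, (dvd_neg).1 h1.2.1, h1.2.2⟩,
        fun p hp h1 => no_common h.gcd_dbc p hp ⟨(dvd_neg).1 h1.1, (dvd_neg).1 h1.2.1, h1.2.2⟩, ?_⟩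
      have e : -a + -b - c - -d = -(a + b + c - d) := by ring
      rw [e]
      exact (dvd_neg).2 heven
    obtain ⟨p, n, r, h1, h2, h3, h4, h5, h6, h7⟩ := sol_core hS hX1 hX2 (neg_ne_zero.2 h.a_ne) (neg_ne_zero.2 h.b_ne) hpos
      (by push_cast; rwa [abs_neg]) (by push_cast; rwa [abs_neg]) (by rwa [abs_neg]) hadm
    refine ⟨p, n, r, h1, h2, h3, ?_, h5, h6, h7⟩
    rw [hqc] at h4
    linarith

/-- the property of one coefficient -/
def GoodC (ε : ℝ) (T : ℕ) (c : ℤ) : Prop := ∀ a b d : ℤ, Admissible a b c d →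
  |(a : ℝ)| ≤ Real.log |(c : ℝ)| ^ T → |(b : ℝ)| ≤ Real.log |(c : ℝ)| ^ T →
  ∃ p q r : ℕ, p.Prime ∧ q.Prime ∧ r.Prime ∧ a * p + b * q + c * r = d ∧
    ((max p (max q r) : ℕ) : ℝ) ≤ 3 * |(d : ℝ)| + |(c : ℝ)| ^ (3 / 2 + ε)

open Classical in
theorem baker_fixed (ε : ℝ) (hε : 0 < ε) (T : ℕ) (κ : ℕ) : ∃ (D : Set ℕ) (c₀ : ℕ), (∀ e ∈ D, κ < e) ∧
    (∀ X : ℕ, 1 ≤ X → (((Icc 1 X).filter (fun e => e ∈ D)).card : ℝ) ≤ (X : ℝ) ^ ε) ∧
    ∀ c : ℤ, (c₀ : ℤ) ≤ |c| → (∀ e ∈ D, ¬ (e : ℤ) ∣ c) → GoodC ε T c := by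
  obtain ⟨δ, hδ⟩ : ∃ δ : ℝ, δ = min ε 1 := ⟨_, rfl⟩
  have hδ0 : 0 < δ := by rw [hδ]; exact lt_min hε one_pos
  have hδ1 : δ ≤ 1 := by rw [hδ]; exact min_le_right _ _
  have hδε : δ ≤ ε := by rw [hδ]; exact min_le_left _ _
  obtain ⟨B, hB⟩ := exists_nat_ge (4 / δ)
  have hB0 : (0 : ℝ) < B := lt_of_lt_of_le (by positivity) hB
  have hB1 : 1 ≤ B := by exact_mod_cast hB0
  have hBinv : 1 / (B : ℝ) ≤ δ / 4 := by
    rw [div_le_iff₀ hB0]
    rw [div_le_iff₀ hδ0] at hB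
    linarith
  obtain ⟨N₀, h0⟩ := scale T B (δ / 8) (by positivity)
  choose! Df hDf using h0
  obtain ⟨κ', hκ'⟩ := exists_nat_ge ((2 : ℝ) ^ (4 / δ))
  obtain ⟨i₀, hi₀⟩ : ∃ i₀ : ℕ, i₀ = N₀ + 2 * (κ + κ' + 2) := ⟨_, rfl⟩
  have hlog2 : (1 / 2 : ℝ) < Real.log 2 := by have := Real.log_two_gt_d9; linarith
  have hlogi : ∀ i : ℕ, Real.log ((2 ^ i : ℕ) : ℝ) = i * Real.log 2 := by
    intro i
    push_cast
    rw [Real.log_pow]
  have hNi : ∀ i : ℕ, i₀ ≤ i → N₀ ≤ 2 ^ i := by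
    intro i hi
    have : i < 2 ^ i := Nat.lt_two_pow_self
    omega
  have hbig : ∀ i : ℕ, i₀ ≤ i → ∀ e ∈ Df (2 ^ i), ((i : ℝ) * Real.log 2) ^ B < e := by
    intro i hi e he
    have := (hDf (2 ^ i) (hNi i hi)).1 e he
    rwa [hlogi] at this
  have hi₀r : ∀ i : ℕ, i₀ ≤ i → ((κ : ℝ) + κ' + 2) ≤ (i : ℝ) * Real.log 2 := by
    intro i hi
    have h1 : ((2 * (κ + κ' + 2) : ℕ) : ℝ) ≤ i := by exact_mod_cast (by omega : 2 * (κ + κ' + 2) ≤ i)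
    push_cast at h1
    have h2 : (0 : ℝ) ≤ i := Nat.cast_nonneg _
    calc (κ : ℝ) + κ' + 2 ≤ i * (1 / 2) := by linarith
      _ ≤ i * Real.log 2 := mul_le_mul_of_nonneg_left hlog2.le h2
  have hbig2 : ∀ i : ℕ, i₀ ≤ i → ∀ e ∈ Df (2 ^ i), (κ : ℝ) + κ' + 2 < e := by
    intro i hi e he
    refine lt_of_le_of_lt ?_ (hbig i hi e he)
    have h1 := hi₀r i hi
    have h2 : (1 : ℝ) ≤ (i : ℝ) * Real.log 2 := by
      have : (0 : ℝ) ≤ (κ : ℝ) + κ' := by positivity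
      linarith
    exact h1.trans (le_self_pow₀ h2 (by omega))
  obtain ⟨D, hD⟩ : ∃ D : Set ℕ, D = {e | ∃ i : ℕ, i₀ ≤ i ∧ e ∈ Df (2 ^ i)} := ⟨_, rfl⟩
  obtain ⟨c₀, hc₀⟩ := exists_nat_ge (max ((2 : ℝ) ^ i₀) ((6 : ℝ) ^ (2 / δ)))
  refine ⟨D, c₀ + 2, ?_, ?_, ?_⟩
  · intro e he
    rw [hD] at he
    obtain ⟨i, hi, he'⟩ := he
    have h1 := hbig2 i hi e he'
    have h2 : (κ : ℝ) < e := by
      have : (0 : ℝ) ≤ κ' := Nat.cast_nonneg _
      linarith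
    exact_mod_cast h2
  · intro X hX
    rcases ((Icc 1 X).filter (fun e => e ∈ D)).eq_empty_or_nonempty with h0 | ⟨e, he⟩
    · rw [h0, card_empty, Nat.cast_zero]
      positivity
    have hX0 : (0 : ℝ) < X := by exact_mod_cast hX
    have hX1 : (1 : ℝ) ≤ X := by exact_mod_cast hX
    have hXκ : (2 : ℝ) ^ (4 / δ) ≤ X := by
      rw [mem_filter, mem_Icc, hD] at he
      obtain ⟨⟨_, h1⟩, i, hi, he'⟩ := he
      have h2 := hbig2 i hi e he'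
      have h3 : (e : ℝ) ≤ X := by exact_mod_cast h1
      have : (0 : ℝ) ≤ κ := Nat.cast_nonneg _
      linarith
    have h2X : (2 : ℝ) ≤ (X : ℝ) ^ (δ / 4) := by
      calc (2 : ℝ) = ((2 : ℝ) ^ (4 / δ)) ^ (δ / 4) := by
            rw [← Real.rpow_mul (by norm_num)]
            have : 4 / δ * (δ / 4) = 1 := by field_simp
            rw [this, Real.rpow_one]
        _ ≤ (X : ℝ) ^ (δ / 4) := Real.rpow_le_rpow (by positivity) hXκ (by positivity)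
    -- the scales
    obtain ⟨I, hI⟩ : ∃ I : ℕ, I = ⌊2 * (X : ℝ) ^ (1 / (B : ℝ))⌋₊ := ⟨_, rfl⟩
    have hIr : (I : ℝ) ≤ 2 * (X : ℝ) ^ (1 / (B : ℝ)) := by rw [hI]; exact Nat.floor_le (by positivity)
    have hsub : (Icc 1 X).filter (fun e => e ∈ D) ⊆ ((Icc 1 I).filter (fun i => i₀ ≤ i)).biUnion
        (fun i => (Df (2 ^ i)).filter (fun e : ℕ => (e : ℝ) ≤ X)) := by
      intro e he
      rw [mem_filter, mem_Icc, hD] at he
      obtain ⟨⟨_, h1⟩, i, hi, he'⟩ := he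
      rw [mem_biUnion]
      have h2 := hbig i hi e he'
      have h3 : (e : ℝ) ≤ X := by exact_mod_cast h1
      have h4 : 0 ≤ (i : ℝ) * Real.log 2 := by positivity
      have h5 : (i : ℝ) * Real.log 2 ≤ (X : ℝ) ^ (1 / (B : ℝ)) := by
        have h6 : ((i : ℝ) * Real.log 2) ^ B ≤ X := (h2.trans_le h3).le
        calc (i : ℝ) * Real.log 2 = (((i : ℝ) * Real.log 2) ^ B) ^ (1 / (B : ℝ)) := by
              rw [← Real.rpow_natCast, ← Real.rpow_mul h4]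
              have : (B : ℝ) * (1 / (B : ℝ)) = 1 := by field_simp
              rw [this, Real.rpow_one]
          _ ≤ (X : ℝ) ^ (1 / (B : ℝ)) := Real.rpow_le_rpow (by positivity) h6 (by positivity)
      refine ⟨i, ?_, ?_⟩
      · rw [mem_filter, mem_Icc]
        refine ⟨⟨by omega, ?_⟩, hi⟩
        rw [hI]
        apply Nat.le_floor
        have h7 : (0 : ℝ) ≤ i := Nat.cast_nonneg _
        have h8 : (i : ℝ) * (1 / 2) ≤ i * Real.log 2 := mul_le_mul_of_nonneg_left hlog2.le h7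
        linarith
      · rw [mem_filter]
        exact ⟨he', h3⟩
    have hcard : (((Icc 1 X).filter (fun e => e ∈ D)).card : ℝ) ≤ I * (X : ℝ) ^ (δ / 8) := by
      have h1 := (card_le_card hsub).trans card_biUnion_le
      have h2 : (((Icc 1 X).filter (fun e => e ∈ D)).card : ℝ) ≤
          ∑ i ∈ (Icc 1 I).filter (fun i => i₀ ≤ i), (((Df (2 ^ i)).filter (fun e : ℕ => (e : ℝ) ≤ X)).card : ℝ) := by
        exact_mod_cast h1
      refine h2.trans ?_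
      calc _ ≤ ∑ _i ∈ (Icc 1 I).filter (fun i => i₀ ≤ i), (X : ℝ) ^ (δ / 8) := by
            apply sum_le_sum
            intro i hi
            rw [mem_filter] at hi
            exact (hDf (2 ^ i) (hNi i hi.2)).2.1 X hX1
        _ = (((Icc 1 I).filter (fun i => i₀ ≤ i)).card : ℝ) * (X : ℝ) ^ (δ / 8) := by
            rw [sum_const, nsmul_eq_mul]
        _ ≤ I * (X : ℝ) ^ (δ / 8) := by
            apply mul_le_mul_of_nonneg_right _ (by positivity)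
            have := card_filter_le (Icc 1 I) (fun i => i₀ ≤ i)
            rw [Nat.card_Icc, Nat.add_sub_cancel] at this
            exact_mod_cast this
    refine hcard.trans ?_
    calc (I : ℝ) * (X : ℝ) ^ (δ / 8) ≤ (2 * (X : ℝ) ^ (1 / (B : ℝ))) * (X : ℝ) ^ (δ / 8) :=
          mul_le_mul_of_nonneg_right hIr (by positivity)
      _ ≤ ((X : ℝ) ^ (δ / 4) * (X : ℝ) ^ (δ / 4)) * (X : ℝ) ^ (δ / 8) := by
          apply mul_le_mul_of_nonneg_right _ (by positivity)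
          apply mul_le_mul h2X _ (by positivity) (by positivity)
          exact Real.rpow_le_rpow_of_exponent_le hX1 hBinv
      _ = (X : ℝ) ^ (δ / 4 + δ / 4 + δ / 8) := by rw [Real.rpow_add hX0, Real.rpow_add hX0]
      _ ≤ (X : ℝ) ^ ε := Real.rpow_le_rpow_of_exponent_le hX1 (by linarith)
  · intro c hc hfree a b d hadm haT hbT
    obtain ⟨q, hq⟩ : ∃ q, q = c.natAbs := ⟨_, rfl⟩
    have hq1 : (q : ℤ) = |c| := by rw [hq]; exact Int.natCast_natAbs c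
    have hqr : (q : ℝ) = |(c : ℝ)| := by
      have : ((q : ℤ) : ℝ) = ((|c| : ℤ) : ℝ) := by rw [hq1]
      push_cast at this
      exact this
    rw [← hqr] at haT hbT ⊢
    have hqc₀ : c₀ + 2 ≤ q := by
      have : ((c₀ + 2 : ℕ) : ℤ) ≤ q := by rw [hq1]; exact hc
      exact_mod_cast this
    have hq1' : 1 ≤ q := by omega
    have hq0 : (0 : ℝ) < q := by exact_mod_cast hq1'
    have hq1r : (1 : ℝ) ≤ q := by exact_mod_cast hq1'
    have hcq : (c₀ : ℝ) ≤ q := by exact_mod_cast (by omega : c₀ ≤ q)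
    have hq2 : (2 : ℝ) ^ i₀ ≤ q := (le_max_left _ _).trans (hc₀.trans hcq)
    have hq6 : (6 : ℝ) ^ (2 / δ) ≤ q := (le_max_right _ _).trans (hc₀.trans hcq)
    -- the scale
    obtain ⟨Yc, hYc⟩ : ∃ Yc : ℕ, Yc = ⌈(q : ℝ) ^ (3 / 2 + δ / 2)⌉₊ := ⟨_, rfl⟩
    have hYc1 : (q : ℝ) ^ (3 / 2 + δ / 2) ≤ Yc := by rw [hYc]; exact Nat.le_ceil _
    have hYc2 : (Yc : ℝ) < (q : ℝ) ^ (3 / 2 + δ / 2) + 1 := by rw [hYc]; exact Nat.ceil_lt_add_one (by positivity)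
    obtain ⟨X, hX⟩ : ∃ X, X = max d.natAbs Yc := ⟨_, rfl⟩
    have hXd : |d| ≤ X := by
      rw [← Int.natCast_natAbs, hX]
      exact_mod_cast le_max_left _ _
    have hXY : (q : ℝ) ^ (3 / 2 + δ / 2) ≤ X := by
      refine hYc1.trans ?_
      rw [hX]
      exact_mod_cast le_max_right _ _
    have hqX : (q : ℝ) ≤ (q : ℝ) ^ (3 / 2 + δ / 2) := by
      calc (q : ℝ) = (q : ℝ) ^ (1 : ℝ) := (Real.rpow_one _).symm
        _ ≤ _ := Real.rpow_le_rpow_of_exponent_le hq1r (by linarith)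
    have hX1 : X ≠ 0 := by
      intro h
      rw [h, Nat.cast_zero] at hXY
      linarith
    obtain ⟨i, hi⟩ : ∃ i, i = Nat.log 2 X + 4 := ⟨_, rfl⟩
    have hi1 : 2 ^ i ≤ 16 * X := by
      rw [hi, pow_add]
      have := Nat.pow_log_le_self 2 hX1
      omega
    have hi2 : 8 * X ≤ 2 ^ i := by
      rw [hi, pow_add]
      have := Nat.lt_pow_succ_log_self (b := 2) (by norm_num) X
      rw [pow_succ] at this
      omega
    have hi2r : 8 * (X : ℝ) ≤ ((2 ^ i : ℕ) : ℝ) := by exact_mod_cast hi2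
    have hii : i₀ ≤ i := by
      have h1 : (2 : ℝ) ^ i₀ ≤ ((2 ^ i : ℕ) : ℝ) := by
        have : (0 : ℝ) ≤ X := Nat.cast_nonneg _
        linarith
      have h2 : 2 ^ i₀ ≤ 2 ^ i := by exact_mod_cast h1
      exact (Nat.pow_le_pow_iff_right (by norm_num)).1 h2
    obtain ⟨N, hN⟩ : ∃ N, N = 2 ^ i := ⟨_, rfl⟩
    have hprop := hDf (2 ^ i) (hNi i hii)
    have hfree' : ∀ e ∈ Df (2 ^ i), ¬ e ∣ q := by
      intro e he hcon
      apply hfree e (by rw [hD]; exact ⟨i, hii, he⟩)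
      rw [hq] at hcon
      exact Int.natCast_dvd.2 hcon
    rw [← hN] at hprop hfree' hi1 hi2 hi2r
    have hXN : (X : ℝ) ≤ N := by
      have : (0 : ℝ) ≤ X := Nat.cast_nonneg _
      linarith
    have hqN : (q : ℝ) ≤ (N : ℝ) ^ (2 / 3 - δ / 8) := by
      have hex : (1 : ℝ) ≤ (3 / 2 + δ / 2) * (2 / 3 - δ / 8) := by
        have : (3 / 2 + δ / 2) * (2 / 3 - δ / 8) = 1 + δ * (7 / 48 - δ / 16) := by ring
        rw [this]
        have : 0 ≤ δ * (7 / 48 - δ / 16) := mul_nonneg hδ0.le (by linarith)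
        linarith
      calc (q : ℝ) = (q : ℝ) ^ (1 : ℝ) := (Real.rpow_one _).symm
        _ ≤ (q : ℝ) ^ ((3 / 2 + δ / 2) * (2 / 3 - δ / 8)) := Real.rpow_le_rpow_of_exponent_le hq1r hex
        _ = ((q : ℝ) ^ (3 / 2 + δ / 2)) ^ (2 / 3 - δ / 8) := Real.rpow_mul hq0.le _ _
        _ ≤ (N : ℝ) ^ (2 / 3 - δ / 8) := Real.rpow_le_rpow (by positivity) (hXY.trans hXN) (by linarith)
    have hS := hprop.2.2 q hq1' hqN hfree'
    have hlogq : Real.log q ≤ Real.log N := Real.log_le_log hq0 (hqX.trans (hXY.trans hXN))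
    have hlogq0 : 0 ≤ Real.log q := Real.log_nonneg hq1r
    have hpow : Real.log q ^ T ≤ Real.log N ^ T := pow_le_pow_left₀ hlogq0 hlogq _
    obtain ⟨p, n, r, g1, g2, g3, g4, g5, g6, g7⟩ := sol_of_solv hS hi2 hi1 hadm hq1 (haT.trans hpow) (hbT.trans hpow) hXd
    refine ⟨p, n, r, g1, g2, g3, g4, ?_⟩
    have hmax : max p (max n r) ≤ 3 * X := max_le g5 (max_le g6 g7)
    have hmaxr : ((max p (max n r) : ℕ) : ℝ) ≤ 3 * X := by exact_mod_cast hmax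
    refine hmaxr.trans ?_
    have hd0 : 0 ≤ |(d : ℝ)| := abs_nonneg _
    have hpos : 0 ≤ (q : ℝ) ^ (3 / 2 + ε) := by positivity
    rcases le_total d.natAbs Yc with h | h
    · have hXe : X = Yc := by rw [hX]; exact max_eq_right h
      rw [hXe]
      have e1 : 1 ≤ (q : ℝ) ^ (3 / 2 + δ / 2) := hq1r.trans hqX
      have e2 : (6 : ℝ) ≤ (q : ℝ) ^ (δ / 2) := by
        calc (6 : ℝ) = ((6 : ℝ) ^ (2 / δ)) ^ (δ / 2) := by
              rw [← Real.rpow_mul (by norm_num)]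
              have : 2 / δ * (δ / 2) = 1 := by field_simp
              rw [this, Real.rpow_one]
          _ ≤ (q : ℝ) ^ (δ / 2) := Real.rpow_le_rpow (by positivity) hq6 (by positivity)
      have e3 : 3 * (Yc : ℝ) ≤ (q : ℝ) ^ (3 / 2 + ε) := by
        calc 3 * (Yc : ℝ) ≤ 6 * (q : ℝ) ^ (3 / 2 + δ / 2) := by linarith
          _ ≤ (q : ℝ) ^ (δ / 2) * (q : ℝ) ^ (3 / 2 + δ / 2) := mul_le_mul_of_nonneg_right e2 (by positivity)
          _ = (q : ℝ) ^ (δ / 2 + (3 / 2 + δ / 2)) := (Real.rpow_add hq0 _ _).symm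
          _ ≤ (q : ℝ) ^ (3 / 2 + ε) := Real.rpow_le_rpow_of_exponent_le hq1r (by linarith)
      linarith
    · have hXe : X = d.natAbs := by rw [hX]; exact max_eq_left h
      rw [hXe, Nat.cast_natAbs]
      push_cast
      linarith

end Pool.Agent.Y883.T5
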