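import Pool.Agent.Y883.T5.Baker

set_option autoImplicit false

/-! Linear equations in three primes with one large coefficient: one set of exceptional divisors for all
exponents. -/

namespace Pool.Agent.Y883.T5

open Finset

lemma GoodC.mono {ε ε' : ℝ} {T T' : ℕ} {c : ℤ} (h : GoodC ε' T' c) (hε : ε' ≤ ε) (hT : T ≤ T') (hc : 3 ≤ |c|) :
    GoodC ε T c := by
  have hcr : (3 : ℝ) ≤ |(c : ℝ)| := by exact_mod_cast hc
  have hlog : 1 ≤ Real.log |(c : ℝ)| := by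
    rw [Real.le_log_iff_exp_le (by linarith)]
    have := Real.exp_one_lt_d9
    linarith
  intro a b d hadm ha hb
  have hpow : Real.log |(c : ℝ)| ^ T ≤ Real.log |(c : ℝ)| ^ T' := pow_le_pow_right₀ hlog hT
  obtain ⟨p, q, r, h1, h2, h3, h4, h5⟩ := h a b d hadm (ha.trans hpow) (hb.trans hpow)
  refine ⟨p, q, r, h1, h2, h3, h4, h5.trans ?_⟩
  have := Real.rpow_le_rpow_of_exponent_le (x := |(c : ℝ)|) (y := 3 / 2 + ε') (z := 3 / 2 + ε) (by linarith) (by linarith)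
  linarith

open Classical in
/-- few integers have a divisor in a sparse set of large integers -/
lemma density {D : Set ℕ} {κ m : ℕ} (hm : 2 ^ m ≤ κ) (hκ : ∀ e ∈ D, κ < e)
    (hc : ∀ X : ℕ, 1 ≤ X → (((Icc 1 X).filter (fun e => e ∈ D)).card : ℝ) ≤ (X : ℝ) ^ (1 / 4 : ℝ)) (X : ℕ) :
    (((Icc 1 X).filter (fun c => ∃ e ∈ D, e ∣ c)).card : ℝ) ≤ 8 * (3 / 4) ^ m * X := by
  have hsub : (Icc 1 X).filter (fun c => ∃ e ∈ D, e ∣ c) ⊆ ((Icc 1 X).filter (fun e => e ∈ D)).biUnion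
      (fun e => (Icc 1 X).filter (fun c => e ∣ c)) := by
    intro c hc
    rw [mem_filter, mem_Icc] at hc
    obtain ⟨⟨h1, h2⟩, e, he, hd⟩ := hc
    rw [mem_biUnion]
    have h3 := Nat.le_of_dvd (by omega) hd
    have h4 := Nat.pos_of_dvd_of_pos hd (by omega)
    exact ⟨e, mem_filter.2 ⟨mem_Icc.2 ⟨h4, by omega⟩, he⟩, mem_filter.2 ⟨mem_Icc.2 ⟨h1, h2⟩, hd⟩⟩
  have h1 := (card_le_card hsub).trans card_biUnion_le
  have h2 : (((Icc 1 X).filter (fun c => ∃ e ∈ D, e ∣ c)).card : ℝ) ≤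
      ∑ e ∈ (Icc 1 X).filter (fun e => e ∈ D), (((Icc 1 X).filter (fun c => e ∣ c)).card : ℝ) := by
    exact_mod_cast h1
  refine h2.trans ?_
  have h3 : ∀ e ∈ (Icc 1 X).filter (fun e => e ∈ D), (((Icc 1 X).filter (fun c => e ∣ c)).card : ℝ) ≤
      ∑ k ∈ Ico m (X + 1), (if e < 2 ^ (k + 1) ∧ 2 ^ k ≤ e then (X : ℝ) * (1 / 2) ^ k else 0) := by
    intro e he
    rw [mem_filter, mem_Icc] at he
    obtain ⟨⟨e1, e2⟩, e3⟩ := he
    have e4 := hκ e e3
    obtain ⟨k, hk⟩ : ∃ k, k = Nat.log 2 e := ⟨_, rfl⟩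
    have k1 : 2 ^ k ≤ e := by rw [hk]; exact Nat.pow_log_le_self 2 (by omega)
    have k2 : e < 2 ^ (k + 1) := by rw [hk]; exact Nat.lt_pow_succ_log_self (by norm_num) e
    have k3 : m ≤ k := by
      by_contra hcon
      have : 2 ^ (k + 1) ≤ 2 ^ m := Nat.pow_le_pow_right (by norm_num) (by omega)
      omega
    have k4 : k < X + 1 := by
      have : k < 2 ^ k := Nat.lt_two_pow_self
      omega
    have hs := single_le_sum (f := fun k => (if e < 2 ^ (k + 1) ∧ 2 ^ k ≤ e then (X : ℝ) * (1 / 2) ^ k else 0))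
      (s := Ico m (X + 1)) (fun _ _ => by positivity) (mem_Ico.2 ⟨k3, k4⟩)
    rw [if_pos ⟨k2, k1⟩] at hs
    refine le_trans ?_ hs
    have hcard : ((Icc 1 X).filter (fun c => e ∣ c)).card = X / e := by
      have h5 := Nat.card_multiples X e
      rw [← h5, ← card_image_of_injective (s := (range X).filter (fun c => e ∣ c + 1)) (f := fun c => c + 1)
        (fun _ _ h => Nat.succ_injective h)]
      congr 1
      ext c
      rw [mem_filter, mem_Icc, mem_image]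
      constructor
      · rintro ⟨⟨a1, a2⟩, a3⟩
        refine ⟨c - 1, ?_, by omega⟩
        rw [mem_filter, mem_range]
        have : c - 1 + 1 = c := by omega
        exact ⟨by omega, by rwa [this]⟩
      · rintro ⟨c', hc', rfl⟩
        rw [mem_filter, mem_range] at hc'
        exact ⟨⟨by omega, by omega⟩, hc'.2⟩
    rw [hcard]
    have k1r : (2 : ℝ) ^ k ≤ e := by exact_mod_cast k1
    calc ((X / e : ℕ) : ℝ) ≤ X / e := Nat.cast_div_le
      _ ≤ X / 2 ^ k := div_le_div_of_nonneg_left (Nat.cast_nonneg _) (by positivity) k1r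
      _ = (X : ℝ) * (1 / 2) ^ k := by rw [one_div_pow]; ring
  refine (sum_le_sum h3).trans ?_
  rw [sum_comm]
  have h4 : ∀ k ∈ Ico m (X + 1), ∑ e ∈ (Icc 1 X).filter (fun e => e ∈ D),
      (if e < 2 ^ (k + 1) ∧ 2 ^ k ≤ e then (X : ℝ) * (1 / 2) ^ k else 0) ≤ 2 * X * (3 / 4) ^ k := by
    intro k _
    rw [← sum_filter, sum_const, nsmul_eq_mul]
    have h5 : ((((Icc 1 X).filter (fun e => e ∈ D)).filter (fun e => e < 2 ^ (k + 1) ∧ 2 ^ k ≤ e)).card : ℝ) ≤
        2 * (3 / 2) ^ k := by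
      have h6 := hc (2 ^ (k + 1)) Nat.one_le_two_pow
      refine le_trans ?_ (h6.trans ?_)
      · exact_mod_cast card_le_card (by
          intro e he
          rw [mem_filter, mem_filter, mem_Icc] at he
          rw [mem_filter, mem_Icc]
          exact ⟨⟨he.1.1.1, he.2.1.le⟩, he.1.2⟩)
      · have h7 : (((2 ^ (k + 1) : ℕ) : ℝ)) ≤ (2 * (3 / 2) ^ k) ^ 4 := by
          push_cast
          rw [mul_pow, ← pow_mul, mul_comm k 4, pow_mul, pow_succ]
          have : (2 : ℝ) ^ k ≤ ((3 / 2) ^ 4) ^ k := pow_le_pow_left₀ (by norm_num) (by norm_num) _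
          have h0 : (0 : ℝ) < 2 ^ k := by positivity
          linarith
        calc (((2 ^ (k + 1) : ℕ) : ℝ)) ^ (1 / 4 : ℝ) ≤ ((2 * (3 / 2) ^ k) ^ 4) ^ (1 / 4 : ℝ) :=
              Real.rpow_le_rpow (by positivity) h7 (by norm_num)
          _ = 2 * (3 / 2) ^ k := by
              rw [← Real.rpow_natCast, ← Real.rpow_mul (by positivity)]
              norm_num
    calc _ ≤ (2 * (3 / 2) ^ k) * ((X : ℝ) * (1 / 2) ^ k) := mul_le_mul_of_nonneg_right h5 (by positivity)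
      _ = 2 * X * ((3 / 2) ^ k * (1 / 2) ^ k) := by ring
      _ = 2 * X * (3 / 4) ^ k := by rw [← mul_pow]; norm_num
  refine (sum_le_sum h4).trans ?_
  rw [← mul_sum]
  have h5 := geom_sum_Ico_le_of_lt_one (x := (3 / 4 : ℝ)) (m := m) (n := X + 1) (by norm_num) (by norm_num)
  have h6 : (3 / 4 : ℝ) ^ m / (1 - 3 / 4) = 4 * (3 / 4) ^ m := by norm_num; ring
  rw [h6] at h5
  calc 2 * (X : ℝ) * ∑ k ∈ Ico m (X + 1), (3 / 4 : ℝ) ^ k ≤ 2 * X * (4 * (3 / 4) ^ m) :=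
        mul_le_mul_of_nonneg_left h5 (by positivity)
    _ = _ := by ring

open Classical in
theorem baker (κ : ℕ) : ∃ D : Set ℕ, (∀ e ∈ D, κ < e) ∧
    (∀ X : ℕ, 1 ≤ X → (((Icc 1 X).filter (fun e => e ∈ D)).card : ℝ) ≤ (X : ℝ) ^ (1 / 4 : ℝ)) ∧
    (∀ ε : ℝ, 0 < ε → ∃ X₀ : ℕ, ∀ X : ℕ, X₀ ≤ X → (((Icc 1 X).filter (fun e => e ∈ D)).card : ℝ) ≤ (X : ℝ) ^ ε) ∧
    ∀ ε : ℝ, 0 < ε → ∀ T : ℕ, ∃ c₀ : ℕ, ∀ c : ℤ, (c₀ : ℤ) ≤ |c| → (∀ e ∈ D, ¬ (e : ℤ) ∣ c) → GoodC ε T c := by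
  have H : ∀ (j κ : ℕ), ∃ (D : Set ℕ) (c₀ : ℕ), (∀ e ∈ D, κ < e) ∧
      (∀ X : ℕ, 1 ≤ X → (((Icc 1 X).filter (fun e => e ∈ D)).card : ℝ) ≤ (X : ℝ) ^ (1 / ((j : ℝ) + 8))) ∧
      ∀ c : ℤ, (c₀ : ℤ) ≤ |c| → (∀ e ∈ D, ¬ (e : ℤ) ∣ c) → GoodC (1 / ((j : ℝ) + 8)) j c :=
    fun j κ => baker_fixed (1 / ((j : ℝ) + 8)) (by positivity) j κ
  choose Ds cs hDs using H
  obtain ⟨C, hC⟩ : ∃ C : ℕ → ℕ, C = fun j => Nat.rec (κ + 3) (fun j x => max (cs j x) ((x + 2) ^ (j + 8))) j := ⟨_, rfl⟩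
  have hC0 : C 0 = κ + 3 := congrFun hC 0
  have hCs : ∀ j, C (j + 1) = max (cs j (C j)) ((C j + 2) ^ (j + 8)) := by
    intro j
    rw [hC]
  have hC1 : ∀ j, cs j (C j) ≤ C (j + 1) := fun j => by rw [hCs]; exact le_max_left _ _
  have hC2 : ∀ j, (C j + 2) ^ (j + 8) ≤ C (j + 1) := fun j => by rw [hCs]; exact le_max_right _ _
  have hC3 : ∀ j, C j < C (j + 1) := by
    intro j
    refine lt_of_lt_of_le ?_ (hC2 j)
    calc C j < C j + 2 := by omega
      _ = (C j + 2) ^ 1 := (pow_one _).symm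
      _ ≤ (C j + 2) ^ (j + 8) := Nat.pow_le_pow_right (by omega) (by omega)
  have hmono : StrictMono C := strictMono_nat_of_lt_succ hC3
  have hCj : ∀ j, j ≤ C j := fun j => hmono.id_le j
  have hC3' : ∀ j, κ + 3 ≤ C j := fun j => by rw [← hC0]; exact hmono.monotone (Nat.zero_le j)
  have hfind : ∀ X : ℕ, C 0 ≤ X → ∃ i, C i ≤ X ∧ X < C (i + 1) := by
    intro X hX
    have hex : ∃ k, X < C k := ⟨X + 1, lt_of_lt_of_le (Nat.lt_succ_self X) (hCj (X + 1))⟩
    obtain ⟨k, hk⟩ : ∃ k, k = Nat.find hex := ⟨_, rfl⟩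
    have h1 : X < C k := by rw [hk]; exact Nat.find_spec hex
    have h2 : k ≠ 0 := by
      intro h
      rw [h] at h1
      omega
    refine ⟨k - 1, ?_, ?_⟩
    · have := Nat.find_min hex (m := k - 1) (by rw [← hk]; omega)
      exact not_lt.1 this
    · have e : k - 1 + 1 = k := by omega
      rw [e]
      exact h1
  obtain ⟨D, hD⟩ : ∃ D : Set ℕ, D = {e | ∃ j, e ∈ Ds j (C j) ∧ e ≤ C (j + 2)} := ⟨_, rfl⟩
  refine ⟨D, ?_, ?_, ?_, ?_⟩
  · intro e he
    rw [hD] at he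
    obtain ⟨j, h1, _⟩ := he
    have h2 := (hDs j (C j)).1 e h1
    have h3 := hC3' j
    omega
  · intro X hX1n
    have hX0 : (0 : ℝ) < X := by exact_mod_cast hX1n
    have hX1 : (1 : ℝ) ≤ X := by exact_mod_cast hX1n
    rcases ((Icc 1 X).filter (fun e => e ∈ D)).eq_empty_or_nonempty with h0 | ⟨e₀, he₀⟩
    · rw [h0, card_empty, Nat.cast_zero]
      positivity
    have hXC : C 0 ≤ X := by
      rw [mem_filter, mem_Icc, hD] at he₀
      obtain ⟨⟨_, h2⟩, j, h3, _⟩ := he₀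
      have h5 := (hDs j (C j)).1 e₀ h3
      have h6 : C 0 ≤ C j := hmono.monotone (Nat.zero_le j)
      omega
    obtain ⟨i, hi1, hi2⟩ := hfind X hXC
    have hsub : (Icc 1 X).filter (fun e => e ∈ D) ⊆ (range (i + 1)).biUnion
        (fun j => (Icc 1 X).filter (fun e => e ∈ Ds j (C j))) := by
      intro e he
      rw [mem_filter, mem_Icc, hD] at he
      obtain ⟨⟨h1, h2⟩, j, h3, h4⟩ := he
      have h5 := (hDs j (C j)).1 e h3
      rw [mem_biUnion]
      refine ⟨j, ?_, ?_⟩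
      · rw [mem_range]
        by_contra hcon
        have : C (i + 1) ≤ C j := hmono.monotone (by omega)
        omega
      · rw [mem_filter, mem_Icc]
        exact ⟨⟨h1, h2⟩, h3⟩
    have hi8 : ((i + 1 : ℕ) : ℝ) ≤ (X : ℝ) ^ (1 / 8 : ℝ) := by
      have h1 : (i + 1) ^ 8 ≤ X := by
        rcases Nat.eq_zero_or_pos i with h | h
        · rw [h]
          omega
        · obtain ⟨m, rfl⟩ : ∃ m, i = m + 1 := ⟨i - 1, by omega⟩
          calc (m + 1 + 1) ^ 8 ≤ (C m + 2) ^ 8 := Nat.pow_le_pow_left (by have := hCj m; omega) _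
            _ ≤ (C m + 2) ^ (m + 8) := Nat.pow_le_pow_right (by omega) (by omega)
            _ ≤ C (m + 1) := hC2 m
            _ ≤ X := hi1
      have h2 : (((i + 1 : ℕ) : ℝ)) ^ 8 ≤ X := by exact_mod_cast h1
      calc ((i + 1 : ℕ) : ℝ) = ((((i + 1 : ℕ) : ℝ)) ^ 8) ^ (1 / 8 : ℝ) := by
            rw [← Real.rpow_natCast, ← Real.rpow_mul (Nat.cast_nonneg _)]
            norm_num
        _ ≤ (X : ℝ) ^ (1 / 8 : ℝ) := Real.rpow_le_rpow (by positivity) h2 (by norm_num)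
    have h1 := (card_le_card hsub).trans card_biUnion_le
    have h2 : (((Icc 1 X).filter (fun e => e ∈ D)).card : ℝ) ≤
        ∑ j ∈ range (i + 1), (((Icc 1 X).filter (fun e => e ∈ Ds j (C j))).card : ℝ) := by
      exact_mod_cast h1
    refine h2.trans ?_
    calc _ ≤ ∑ _j ∈ range (i + 1), (X : ℝ) ^ (1 / 8 : ℝ) := by
          apply sum_le_sum
          intro j _
          refine ((hDs j (C j)).2.1 X hX1n).trans (Real.rpow_le_rpow_of_exponent_le hX1 ?_)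
          apply one_div_le_one_div_of_le (by norm_num)
          have : (0 : ℝ) ≤ j := Nat.cast_nonneg _
          linarith
      _ = ((i + 1 : ℕ) : ℝ) * (X : ℝ) ^ (1 / 8 : ℝ) := by rw [sum_const, card_range, nsmul_eq_mul]
      _ ≤ (X : ℝ) ^ (1 / 8 : ℝ) * (X : ℝ) ^ (1 / 8 : ℝ) := mul_le_mul_of_nonneg_right hi8 (by positivity)
      _ = (X : ℝ) ^ (1 / 4 : ℝ) := by rw [← Real.rpow_add hX0]; norm_num
  · intro ε hε
    obtain ⟨i₁, hi₁⟩ := exists_nat_ge (2 / ε)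
    obtain ⟨X₁, hX₁⟩ := exists_nat_ge ((4 : ℝ) ^ (2 / ε))
    refine ⟨C (i₁ + 2) + X₁ + 1, fun X hX => ?_⟩
    obtain ⟨i, hi1, hi2⟩ := hfind X ((hmono.monotone (Nat.zero_le _)).trans (by omega : C (i₁ + 2) ≤ X))
    have hii : i₁ + 2 ≤ i := by
      by_contra hcon
      have : C (i + 1) ≤ C (i₁ + 2) := hmono.monotone (by omega)
      omega
    have hX1n : 1 ≤ X := by omega
    have hX0 : (0 : ℝ) < X := by exact_mod_cast hX1n
    have hX1 : (1 : ℝ) ≤ X := by exact_mod_cast hX1n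
    obtain ⟨m, rfl⟩ : ∃ m, i = m + 2 := ⟨i - 2, by omega⟩
    have hm : (2 / ε : ℝ) ≤ (m : ℝ) + 1 := by
      have : (i₁ : ℝ) ≤ m := by exact_mod_cast (by omega : i₁ ≤ m)
      linarith
    have hexp : 1 / ((m : ℝ) + 1) ≤ ε / 2 := by
      rw [div_le_iff₀ (by positivity)]
      rw [div_le_iff₀ hε] at hm
      linarith
    have hexp' : ∀ k : ℕ, m ≤ k → (X : ℝ) ^ (1 / ((k : ℝ) + 8)) ≤ (X : ℝ) ^ (ε / 2) := by
      intro k hk
      apply Real.rpow_le_rpow_of_exponent_le hX1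
      refine le_trans ?_ hexp
      apply one_div_le_one_div_of_le (by positivity)
      have : (m : ℝ) ≤ k := by exact_mod_cast hk
      linarith
    -- the cover
    obtain ⟨W, hW⟩ : ∃ W : ℕ → Finset ℕ, W = fun k => (Icc 1 X).filter (fun e => e ∈ Ds k (C k)) := ⟨_, rfl⟩
    have hsub : (Icc 1 X).filter (fun e => e ∈ D) ⊆ Icc 1 (C (m + 1)) ∪ (W m ∪ (W (m + 1) ∪ W (m + 2))) := by
      intro e he
      rw [mem_filter, mem_Icc, hD] at he
      obtain ⟨⟨h1, h2⟩, j, h3, h4⟩ := he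
      have h5 := (hDs j (C j)).1 e h3
      have h6 : j ≤ m + 2 := by
        by_contra hcon
        have : C (m + 2 + 1) ≤ C j := hmono.monotone (by omega)
        omega
      rw [mem_union, mem_union, mem_union, hW, mem_Icc]
      simp only [mem_filter, mem_Icc]
      rcases Nat.lt_or_ge j m with h7 | h7
      · left
        exact ⟨h1, h4.trans (hmono.monotone (by omega))⟩
      · right
        have h8 : j = m ∨ j = m + 1 ∨ j = m + 2 := by omega
        rcases h8 with rfl | rfl | rfl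
        · exact Or.inl ⟨⟨h1, h2⟩, h3⟩
        · exact Or.inr (Or.inl ⟨⟨h1, h2⟩, h3⟩)
        · exact Or.inr (Or.inr ⟨⟨h1, h2⟩, h3⟩)
    have hWc : ∀ k, m ≤ k → ((W k).card : ℝ) ≤ (X : ℝ) ^ (ε / 2) := by
      intro k hk
      rw [hW]
      exact ((hDs k (C k)).2.1 X hX1n).trans (hexp' k hk)
    have hCc : (C (m + 1) : ℝ) ≤ (X : ℝ) ^ (ε / 2) := by
      have h1 : (C (m + 1)) ^ (m + 1) ≤ X := by
        calc (C (m + 1)) ^ (m + 1) ≤ (C (m + 1) + 2) ^ (m + 1 + 8) :=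
              (Nat.pow_le_pow_left (by omega) _).trans (Nat.pow_le_pow_right (by omega) (by omega))
          _ ≤ C (m + 1 + 1) := hC2 (m + 1)
          _ ≤ X := hi1
      have h2 : ((C (m + 1) : ℝ)) ^ (m + 1) ≤ X := by exact_mod_cast h1
      refine le_trans ?_ (Real.rpow_le_rpow_of_exponent_le hX1 hexp)
      calc (C (m + 1) : ℝ) = (((C (m + 1) : ℝ)) ^ (m + 1)) ^ (1 / ((m : ℝ) + 1)) := by
            rw [← Real.rpow_natCast, ← Real.rpow_mul (Nat.cast_nonneg _)]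
            have : ((m + 1 : ℕ) : ℝ) * (1 / ((m : ℝ) + 1)) = 1 := by push_cast; field_simp
            rw [this, Real.rpow_one]
        _ ≤ (X : ℝ) ^ (1 / ((m : ℝ) + 1)) := Real.rpow_le_rpow (by positivity) h2 (by positivity)
    have hcard : ((Icc 1 X).filter (fun e => e ∈ D)).card ≤ C (m + 1) + ((W m).card + ((W (m + 1)).card + (W (m + 2)).card)) := by
      refine (card_le_card hsub).trans ((card_union_le _ _).trans ?_)
      rw [Nat.card_Icc, Nat.add_sub_cancel]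
      apply Nat.add_le_add_left
      refine (card_union_le _ _).trans ?_
      apply Nat.add_le_add_left
      exact card_union_le _ _
    have h4 : (4 : ℝ) ≤ (X : ℝ) ^ (ε / 2) := by
      have h5 : (4 : ℝ) ^ (2 / ε) ≤ X := hX₁.trans (by exact_mod_cast (by omega : X₁ ≤ X))
      calc (4 : ℝ) = ((4 : ℝ) ^ (2 / ε)) ^ (ε / 2) := by
            rw [← Real.rpow_mul (by norm_num)]
            have : 2 / ε * (ε / 2) = 1 := by field_simp
            rw [this, Real.rpow_one]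
        _ ≤ (X : ℝ) ^ (ε / 2) := Real.rpow_le_rpow (by positivity) h5 (by positivity)
    have e1 := hWc m le_rfl
    have e2 := hWc (m + 1) (by omega)
    have e3 := hWc (m + 2) (by omega)
    have e4 : (((Icc 1 X).filter (fun e => e ∈ D)).card : ℝ) ≤ C (m + 1) + ((W m).card + ((W (m + 1)).card + (W (m + 2)).card)) := by
      exact_mod_cast hcard
    calc (((Icc 1 X).filter (fun e => e ∈ D)).card : ℝ) ≤ 4 * (X : ℝ) ^ (ε / 2) := by linarith
      _ ≤ (X : ℝ) ^ (ε / 2) * (X : ℝ) ^ (ε / 2) := mul_le_mul_of_nonneg_right h4 (by positivity)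
      _ = (X : ℝ) ^ ε := by rw [← Real.rpow_add hX0]; ring_nf
  · intro ε hε T
    obtain ⟨j₁, hj₁⟩ := exists_nat_ge (1 / ε)
    refine ⟨C (j₁ + T + 1), fun c hc hfree => ?_⟩
    obtain ⟨q, hq⟩ : ∃ q, q = c.natAbs := ⟨_, rfl⟩
    have hq1 : (q : ℤ) = |c| := by rw [hq]; exact Int.natCast_natAbs c
    have hqc : C (j₁ + T + 1) ≤ q := by
      have : ((C (j₁ + T + 1) : ℕ) : ℤ) ≤ q := by rw [hq1]; exact hc
      exact_mod_cast this
    obtain ⟨i, hi1, hi2⟩ := hfind q ((hmono.monotone (Nat.zero_le _)).trans hqc)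
    have hii : j₁ + T + 1 ≤ i := by
      by_contra hcon
      have : C (i + 1) ≤ C (j₁ + T + 1) := hmono.monotone (by omega)
      omega
    obtain ⟨j, rfl⟩ : ∃ j, i = j + 1 := ⟨i - 1, by omega⟩
    have hfree' : ∀ e ∈ Ds j (C j), ¬ (e : ℤ) ∣ c := by
      intro e he hcon
      have h1 : e ∣ q := by rw [hq]; exact Int.natCast_dvd.1 hcon
      have h2 : e ≤ q := Nat.le_of_dvd (by have := hC3' (j₁ + T + 1); omega) h1
      apply hfree e _ hcon
      rw [hD]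
      exact ⟨j, he, h2.trans hi2.le⟩
    have hgood := (hDs j (C j)).2.2 c (by
      rw [← hq1]
      exact_mod_cast (hC1 j).trans hi1) hfree'
    refine hgood.mono ?_ (by omega) ?_
    · rw [div_le_iff₀ (by positivity)]
      rw [div_le_iff₀ hε] at hj₁
      have : (j₁ : ℝ) ≤ j := by exact_mod_cast (by omega : j₁ ≤ j)
      nlinarith
    · rw [← hq1]
      have := hC3' (j₁ + T + 1)
      exact_mod_cast (by omega : 3 ≤ q)

end Pool.Agent.Y883.T5
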