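import Pool.Agent.Y883.T5.PairBad

set_option autoImplicit false

/-! A large sum over a line gives a pair of primes. -/

namespace Pool.Agent.Y883.T5

open Finset
open Pool.Agent.H373R2.T7

lemma PS_small_left' {u v : ℤ → ℝ} {a : ℕ} {β h : ℤ} {Y : ℕ} {V E : ℝ} (hV : 0 ≤ V)
    (hv : ∀ n : ℕ, 1 ≤ n → n ≤ Y → |v ((h + β * (n : ℕ)) / a)| ≤ V) (hu : ∑ n ∈ Icc 1 Y, |u ((n : ℕ) : ℤ)| ≤ E) :
    |PS u v a β h Y| ≤ V * E := by
  unfold PS
  refine (abs_sum_le_sum_abs _ _).trans ?_
  have h1 : ∀ n ∈ Icc 1 Y, |if (a : ℤ) ∣ h + β * (n : ℕ) then u (n : ℕ) * v ((h + β * (n : ℕ)) / a) else 0| ≤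
      V * |u ((n : ℕ) : ℤ)| := by
    intro n hn
    rw [mem_Icc] at hn
    split_ifs
    · rw [abs_mul, mul_comm]
      exact mul_le_mul_of_nonneg_right (hv n hn.1 hn.2) (abs_nonneg _)
    · rw [abs_zero]
      positivity
  refine (sum_le_sum h1).trans ?_
  rw [← mul_sum]
  exact mul_le_mul_of_nonneg_left hu hV

open Classical in
/-- the von Mangoldt function at the primes -/
noncomputable def lamP (k : ℤ) : ℝ := if k.toNat.Prime then lamI k else 0

lemma lamP_sum (N : ℕ) (hN : 1 ≤ N) :
    ∑ k ∈ Icc 1 N, |(fun k : ℤ => lamI k - lamP k) ((k : ℕ) : ℤ)| ≤ 2 * √(N : ℝ) * Real.log N := by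
  classical
  have h1 := Chebyshev.psi_sub_theta_le (x := (N : ℝ)) (by exact_mod_cast hN)
  rw [Chebyshev.psi_sub_theta_eq_sum_not_prime, Nat.floor_natCast, sum_filter] at h1
  refine le_trans (le_of_eq ?_) h1
  apply sum_congr
  · ext k
    rw [mem_Icc, mem_Ioc]
    omega
  · intro k hk
    rw [mem_Ioc] at hk
    simp only
    unfold lamP lamI
    rw [if_pos (by omega), Int.toNat_natCast]
    by_cases hp : k.Prime
    · simp [hp]
    · simp only [hp, if_false, sub_zero, not_false_eq_true, if_true]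
      exact abs_of_nonneg ArithmeticFunction.vonMangoldt_nonneg

theorem exist_pair {N : ℕ} (hN : 1 ≤ N) {a : ℕ} (ha : 1 ≤ a) {β h : ℤ} (hβ : β ≠ 0) {Y : ℕ} (hY : Y ≤ N)
    (hYN : ∀ n : ℕ, 1 ≤ n → n ≤ Y → h + β * (n : ℕ) ≤ N)
    (hbig : 4 * (√(N : ℝ) * Real.log N ^ 2) < PS lamI lamI a β h Y) :
    ∃ n p : ℕ, n.Prime ∧ p.Prime ∧ n ≤ Y ∧ (a : ℤ) * p = h + β * n := by
  classical
  have ha0 : (0 : ℤ) < a := by exact_mod_cast ha
  have hlog : 0 ≤ Real.log N := Real.log_nonneg (by exact_mod_cast hN)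
  have hs := lamP_sum N hN
  have hPle : ∀ k : ℤ, |lamP k| ≤ |lamI k| := by
    intro k
    unfold lamP
    split_ifs
    · exact le_rfl
    · rw [abs_zero]; exact abs_nonneg _
  have e1 : PS lamI lamI a β h Y = PS lamP lamP a β h Y + PS lamP (fun k => lamI k - lamP k) a β h Y +
      PS (fun k => lamI k - lamP k) lamI a β h Y := by
    rw [PS_sub_left, PS_sub_right]
    ring
  have e2 : |PS lamP (fun k => lamI k - lamP k) a β h Y| ≤ Real.log N * (2 * √(N : ℝ) * Real.log N) := by
    apply PS_small_right ha hβ hlog _ _ hYN hs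
    · intro n _ hn2
      exact (hPle _).trans (lamI_le _ (by exact_mod_cast hn2.trans hY) hN)
    · intro k hk
      unfold lamP lamI
      rw [if_neg (by omega)]
      simp
  have e3 : |PS (fun k => lamI k - lamP k) lamI a β h Y| ≤ Real.log N * (2 * √(N : ℝ) * Real.log N) := by
    apply PS_small_left' hlog
    · intro n hn1 hn2
      apply lamI_le _ _ hN
      have h5 := hYN n hn1 hn2
      rcases le_or_gt 0 (h + β * (n : ℕ)) with h6 | h6
      · exact (Int.ediv_le_self _ h6).trans h5
      · have : (h + β * (n : ℕ)) / (a : ℤ) < 0 := Int.ediv_neg_of_neg_of_pos h6 ha0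
        omega
    · refine le_trans ?_ hs
      apply sum_le_sum_of_subset_of_nonneg
      · intro k hk
        rw [mem_Icc] at hk ⊢
        omega
      · intro k _ _
        exact abs_nonneg _
  have hpos : 0 < PS lamP lamP a β h Y := by
    have t2 := (abs_le.1 e2).2
    have t3 := (abs_le.1 e3).2
    have e4 : 4 * (√(N : ℝ) * Real.log N ^ 2) = Real.log N * (2 * √(N : ℝ) * Real.log N) +
      Real.log N * (2 * √(N : ℝ) * Real.log N) := by ring
    linarith
  by_contra hcon
  push Not at hcon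
  have hz : PS lamP lamP a β h Y = 0 := by
    unfold PS
    apply sum_eq_zero
    intro n hn
    rw [mem_Icc] at hn
    by_cases hd : (a : ℤ) ∣ h + β * (n : ℕ)
    · rw [if_pos hd]
      obtain ⟨k, hk⟩ := hd
      rw [hk, Int.mul_ediv_cancel_left _ ha0.ne']
      by_cases h1 : n.Prime
      · by_cases h2 : k.toNat.Prime
        · exfalso
          have h3 : ((k.toNat : ℕ) : ℤ) = k := by
            apply Int.toNat_of_nonneg
            by_contra h4
            push Not at h4
            have : k.toNat = 0 := Int.toNat_of_nonpos h4.le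
            rw [this] at h2
            exact Nat.not_prime_zero h2
          apply hcon n k.toNat h1 h2 hn.2
          rw [h3, hk]
        · unfold lamP
          rw [if_neg h2, mul_zero]
      · unfold lamP
        rw [Int.toNat_natCast, if_neg h1, zero_mul]
    · rw [if_neg hd]
  linarith

end Pool.Agent.Y883.T5
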