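import Mathlib

set_option autoImplicit false

/-! The local conditions of a linear equation in three primes. -/

namespace Pool.Agent.Y883.T5

open Finset

/-- the local condition at a prime -/
lemma loc_p (p : ℕ) (hp : p.Prime) (v : ℕ) (g a b q d : ℤ) (hg1 : (p : ℤ) ^ v ∣ g) (hg2 : ¬ (p : ℤ) ^ (v + 1) ∣ g)
    (hab : IsCoprime a b)
    (h1 : ¬ ((p : ℤ) ∣ g * a ∧ (p : ℤ) ∣ g * b ∧ (p : ℤ) ∣ q)) (h2 : ¬ ((p : ℤ) ∣ d ∧ (p : ℤ) ∣ g * a ∧ (p : ℤ) ∣ g * b))
    (h3 : ¬ ((p : ℤ) ∣ d ∧ (p : ℤ) ∣ g * a ∧ (p : ℤ) ∣ q)) (h4 : ¬ ((p : ℤ) ∣ d ∧ (p : ℤ) ∣ g * b ∧ (p : ℤ) ∣ q))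
    (hpar : (2 : ℤ) ∣ g * a + g * b - q - d) :
    ∃ r : ℤ, ¬ (p : ℤ) ∣ r ∧ (p : ℤ) ^ v ∣ d + q * r ∧ ((p : ℤ) ∣ a * b → ¬ (p : ℤ) ^ (v + 1) ∣ d + q * r) ∧
      (p = 2 → ¬ (p : ℤ) ∣ a * b → (p : ℤ) ^ (v + 1) ∣ d + q * r) := by
  have hpi := Nat.prime_iff_prime_int.1 hp
  rcases Nat.eq_zero_or_pos v with hv | hv
  · subst hv
    rw [zero_add, pow_one] at hg2 ⊢
    by_cases hpab : (p : ℤ) ∣ a * b
    · have key : ∃ r : ℤ, ¬ (p : ℤ) ∣ r ∧ ¬ (p : ℤ) ∣ d + q * r := by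
        by_cases hq : (p : ℤ) ∣ q
        · refine ⟨1, hpi.not_dvd_one, ?_⟩
          intro hcon
          rw [mul_one] at hcon
          have hd : (p : ℤ) ∣ d := (Int.dvd_add_left hq).1 hcon
          rcases hpi.dvd_or_dvd hpab with h | h
          · exact h3 ⟨hd, h.mul_left _, hq⟩
          · exact h4 ⟨hd, h.mul_left _, hq⟩
        · rcases eq_or_ne p 2 with h22 | h22
          · subst h22
            refine ⟨1, hpi.not_dvd_one, ?_⟩
            rw [mul_one]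
            intro hcon
            push_cast at hcon hg2 hpab
            have hga : (2 : ℤ) ∣ g * a + g * b := by
              have := dvd_add hpar hcon
              have e : g * a + g * b - q - d + (d + q) = g * a + g * b := by ring
              rwa [e] at this
            rw [← mul_add] at hga
            have h5 : (2 : ℤ) ∣ a + b := (Int.prime_two.dvd_or_dvd hga).resolve_left hg2
            rcases Int.prime_two.dvd_or_dvd hpab with h | h
            · have h6 : (2 : ℤ) ∣ b := (Int.dvd_add_right h).1 h5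
              exact Int.prime_two.not_isUnit (hab.isUnit_of_dvd' h h6)
            · have h6 : (2 : ℤ) ∣ a := (Int.dvd_add_left h).1 h5
              exact Int.prime_two.not_isUnit (hab.isUnit_of_dvd' h6 h)
          · by_cases h5 : (p : ℤ) ∣ d + q
            · refine ⟨2, ?_, ?_⟩
              · intro hcon
                have : p ∣ 2 := by exact_mod_cast hcon
                exact h22 ((Nat.prime_dvd_prime_iff_eq hp Nat.prime_two).1 this)
              · intro hcon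
                have e : d + q * 2 - (d + q) = q := by ring
                have := dvd_sub hcon h5
                rw [e] at this
                exact hq this
            · exact ⟨1, hpi.not_dvd_one, by rwa [mul_one]⟩
      obtain ⟨r, hr1, hr2⟩ := key
      exact ⟨r, hr1, by rw [pow_zero]; exact one_dvd _, fun _ => hr2, fun _ h => absurd hpab h⟩
    · refine ⟨1, hpi.not_dvd_one, by rw [pow_zero]; exact one_dvd _, fun h => absurd h hpab, ?_⟩
      intro h22 _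
      subst h22
      push_cast at hpab hg2 ⊢
      have o1 : ¬ (2 : ℤ) ∣ a := fun h => hpab (h.mul_right _)
      have o2 : ¬ (2 : ℤ) ∣ b := fun h => hpab (h.mul_left _)
      have o3 : (2 : ℤ) ∣ a + b := by omega
      have o4 : (2 : ℤ) ∣ g * a + g * b := by rw [← mul_add]; exact o3.mul_left _
      have o5 := dvd_sub o4 hpar
      have e : g * a + g * b - (g * a + g * b - q - d) = d + q * 1 := by ring
      rwa [e] at o5
  · have hpg : (p : ℤ) ∣ g := (dvd_pow_self _ (by omega)).trans hg1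
    have hq : ¬ (p : ℤ) ∣ q := fun h => h1 ⟨hpg.mul_right _, hpg.mul_right _, h⟩
    have hd : ¬ (p : ℤ) ∣ d := fun h => h2 ⟨h, hpg.mul_right _, hpg.mul_right _⟩
    have hcop : IsCoprime q ((p : ℤ) ^ (v + 1)) := by
      apply IsCoprime.pow_right
      rw [isCoprime_comm]
      exact (Prime.coprime_iff_not_dvd hpi).2 hq
    obtain ⟨u, w, huw⟩ := hcop
    have hnr : ∀ r : ℤ, (p : ℤ) ^ v ∣ d + q * r → ¬ (p : ℤ) ∣ r := by
      intro r hr hcon
      have h5 : (p : ℤ) ∣ d + q * r := (dvd_pow_self _ (by omega)).trans hr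
      exact hd ((Int.dvd_add_left (hcon.mul_left _)).1 h5)
    by_cases hpab : (p : ℤ) ∣ a * b
    · have e1 : d + q * (u * ((p : ℤ) ^ v - d)) = (p : ℤ) ^ v - (p : ℤ) ^ (v + 1) * (w * ((p : ℤ) ^ v - d)) := by
        have : q * u = 1 - w * (p : ℤ) ^ (v + 1) := by linarith
        calc d + q * (u * ((p : ℤ) ^ v - d)) = d + (q * u) * ((p : ℤ) ^ v - d) := by ring
          _ = _ := by rw [this]; ring
      have e2 : (p : ℤ) ^ v ∣ d + q * (u * ((p : ℤ) ^ v - d)) := by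
        rw [e1]
        apply dvd_sub dvd_rfl
        exact (pow_dvd_pow _ (by omega)).mul_right _
      refine ⟨u * ((p : ℤ) ^ v - d), hnr _ e2, e2, ?_, fun _ h => absurd hpab h⟩
      intro _ hcon
      rw [e1] at hcon
      have e3 : (p : ℤ) ^ (v + 1) ∣ (p : ℤ) ^ v := by
        have := dvd_add hcon (dvd_mul_right ((p : ℤ) ^ (v + 1)) (w * ((p : ℤ) ^ v - d)))
        rwa [sub_add_cancel] at this
      have e4 : ((p ^ (v + 1) : ℕ) : ℤ) ∣ ((p ^ v : ℕ) : ℤ) := by push_cast; exact e3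
      have e5 := Nat.le_of_dvd (pow_pos hp.pos _) (Int.natCast_dvd_natCast.1 e4)
      have e6 : p ^ v < p ^ (v + 1) := Nat.pow_lt_pow_right hp.one_lt (by omega)
      omega
    · have e1 : d + q * (-(u * d)) = (p : ℤ) ^ (v + 1) * (w * d) := by
        have : q * u = 1 - w * (p : ℤ) ^ (v + 1) := by linarith
        calc d + q * (-(u * d)) = d - (q * u) * d := by ring
          _ = _ := by rw [this]; ring
      have e2 : (p : ℤ) ^ (v + 1) ∣ d + q * (-(u * d)) := by rw [e1]; exact dvd_mul_right _ _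
      have e3 : (p : ℤ) ^ v ∣ d + q * (-(u * d)) := (pow_dvd_pow _ (by omega)).trans e2
      exact ⟨-(u * d), hnr _ e3, e3, fun h => absurd h hpab, fun _ _ => e2⟩

theorem loc_class (g : ℕ) (hg : 1 ≤ g) (a b q d : ℤ) (ha : a ≠ 0) (hb : b ≠ 0) (hab : IsCoprime a b)
    (h1 : ∀ p : ℕ, p.Prime → ¬ ((p : ℤ) ∣ g * a ∧ (p : ℤ) ∣ g * b ∧ (p : ℤ) ∣ q))
    (h2 : ∀ p : ℕ, p.Prime → ¬ ((p : ℤ) ∣ d ∧ (p : ℤ) ∣ g * a ∧ (p : ℤ) ∣ g * b))
    (h3 : ∀ p : ℕ, p.Prime → ¬ ((p : ℤ) ∣ d ∧ (p : ℤ) ∣ g * a ∧ (p : ℤ) ∣ q))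
    (h4 : ∀ p : ℕ, p.Prime → ¬ ((p : ℤ) ∣ d ∧ (p : ℤ) ∣ g * b ∧ (p : ℤ) ∣ q))
    (hpar : (2 : ℤ) ∣ g * a + g * b - q - d) :
    ∃ M R : ℕ, 1 ≤ M ∧ M ≤ 2 * (g * a.natAbs * b.natAbs) ^ 2 ∧ g * a.natAbs * b.natAbs ∣ M ∧ R.Coprime M ∧
      ∀ r : ℕ, r ≡ R [MOD M] → ∃ h : ℤ, d + q * r = g * h ∧ IsCoprime h a ∧ IsCoprime h b ∧
        (¬ (2 : ℤ) ∣ a * b → (2 : ℤ) ∣ h) := by
  classical
  obtain ⟨W, hW⟩ : ∃ W, W = g * a.natAbs * b.natAbs := ⟨_, rfl⟩
  have ha1 : 1 ≤ a.natAbs := Int.natAbs_pos.2 ha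
  have hb1 : 1 ≤ b.natAbs := Int.natAbs_pos.2 hb
  have hW1 : 1 ≤ W := by rw [hW]; exact Nat.mul_pos (Nat.mul_pos hg ha1) hb1
  obtain ⟨P, hP⟩ : ∃ P, P = (2 * W).primeFactors := ⟨_, rfl⟩
  have hPp : ∀ p ∈ P, p.Prime := fun p hp => by rw [hP] at hp; exact Nat.prime_of_mem_primeFactors hp
  have hPmem : ∀ p : ℕ, p.Prime → p ∣ 2 * W → p ∈ P := by
    intro p hp hd
    rw [hP, Nat.mem_primeFactors]
    exact ⟨hp, hd, by omega⟩
  have hex : ∀ p : ℕ, ∃ r : ℤ, p.Prime → ¬ (p : ℤ) ∣ r ∧ (p : ℤ) ^ (padicValNat p g) ∣ d + q * r ∧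
      ((p : ℤ) ∣ a * b → ¬ (p : ℤ) ^ (padicValNat p g + 1) ∣ d + q * r) ∧
      (p = 2 → ¬ (p : ℤ) ∣ a * b → (p : ℤ) ^ (padicValNat p g + 1) ∣ d + q * r) := by
    intro p
    by_cases hp : p.Prime
    · have := Fact.mk hp
      have e1 : (p : ℤ) ^ (padicValNat p g) ∣ (g : ℤ) := by exact_mod_cast pow_padicValNat_dvd
      have e2 : ¬ (p : ℤ) ^ (padicValNat p g + 1) ∣ (g : ℤ) := by
        intro hcon
        have : p ^ (padicValNat p g + 1) ∣ g := by exact_mod_cast hcon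
        exact pow_succ_padicValNat_not_dvd (by omega) this
      obtain ⟨r, hr⟩ := loc_p p hp (padicValNat p g) g a b q d e1 e2 hab (h1 p hp) (h2 p hp) (h3 p hp) (h4 p hp) hpar
      exact ⟨r, fun _ => hr⟩
    · exact ⟨0, fun h => absurd h hp⟩
  choose rp hrp using hex
  have hpos : ∀ p ∈ P, (p ^ (padicValNat p g + 1) : ℕ) ≠ 0 := fun p hp => (pow_pos (hPp p hp).pos _).ne'
  have hpw : Set.Pairwise (P : Set ℕ) (Function.onFun Nat.Coprime (fun p => p ^ (padicValNat p g + 1))) := by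
    intro x hx y hy hxy
    exact Nat.Coprime.pow _ _ ((Nat.coprime_primes (hPp x hx) (hPp y hy)).2 hxy)
  obtain ⟨R, hR⟩ := Nat.chineseRemainderOfFinset (fun p => (rp p % (p ^ (padicValNat p g + 1) : ℕ)).toNat)
    (fun p => p ^ (padicValNat p g + 1)) P hpos hpw
  have hPprod : ∏ p ∈ P, p ∣ 2 * W := by rw [hP]; exact Nat.prod_primeFactors_dvd _
  have hPpos : 0 < ∏ p ∈ P, p := prod_pos fun p hp => (hPp p hp).pos
  obtain ⟨M, hM⟩ : ∃ M, M = W * ∏ p ∈ P, p := ⟨_, rfl⟩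
  have hgW : g ∣ W := by rw [hW]; exact (dvd_mul_right _ _).mul_right _
  have hMprime : ∀ p : ℕ, p.Prime → p ∣ M → p ∈ P := by
    intro p hp hd
    rw [hM] at hd
    rcases (Nat.Prime.dvd_mul hp).1 hd with h | h
    · exact hPmem p hp (h.mul_left _)
    · exact hPmem p hp (h.trans hPprod)
  have hdvdM : ∀ p ∈ P, p ^ (padicValNat p g + 1) ∣ M := by
    intro p hp
    have := Fact.mk (hPp p hp)
    rw [hM, pow_succ]
    exact mul_dvd_mul (pow_padicValNat_dvd.trans hgW) (dvd_prod_of_mem _ hp)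
  -- the congruences
  have hcong : ∀ r : ℕ, r ≡ R [MOD M] → ∀ p ∈ P, ((p : ℤ) ^ (padicValNat p g + 1)) ∣ (r : ℤ) - rp p := by
    intro r hr p hp
    have e1 := (Nat.ModEq.of_dvd (hdvdM p hp) hr).trans (hR p hp)
    have hpp : (0 : ℤ) < ((p ^ (padicValNat p g + 1) : ℕ) : ℤ) := by exact_mod_cast Nat.pos_of_ne_zero (hpos p hp)
    have e2 : ((rp p % ((p ^ (padicValNat p g + 1) : ℕ) : ℤ)).toNat : ℤ) = rp p % ((p ^ (padicValNat p g + 1) : ℕ) : ℤ) :=
      Int.toNat_of_nonneg (Int.emod_nonneg _ hpp.ne')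
    have e3 := (Int.natCast_modEq_iff.2 e1)
    rw [e2] at e3
    have e4 : (r : ℤ) ≡ rp p [ZMOD ((p ^ (padicValNat p g + 1) : ℕ) : ℤ)] := e3.trans (Int.mod_modEq _ _)
    have e5 := e4.symm.dvd
    push_cast at e5
    exact e5
  have hdiff : ∀ r : ℕ, r ≡ R [MOD M] → ∀ p ∈ P, ∀ k ≤ padicValNat p g + 1,
      ((p : ℤ) ^ k ∣ d + q * r ↔ (p : ℤ) ^ k ∣ d + q * rp p) := by
    intro r hr p hp k hk
    have e1 := (pow_dvd_pow (p : ℤ) hk).trans (hcong r hr p hp)
    have e2 : d + q * r = (d + q * rp p) + q * ((r : ℤ) - rp p) := by ring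
    rw [e2]
    exact Int.dvd_add_left (e1.mul_left _)
  have hunit : ∀ r : ℕ, r ≡ R [MOD M] → ∀ p ∈ P, ¬ (p : ℤ) ∣ (r : ℤ) := by
    intro r hr p hp hcon
    have e1 : (p : ℤ) ∣ (r : ℤ) - rp p := (dvd_pow_self (p : ℤ) (by omega)).trans (hcong r hr p hp)
    have e2 : (p : ℤ) ∣ rp p := by
      have := dvd_sub hcon e1
      rwa [sub_sub_cancel] at this
    exact (hrp p (hPp p hp)).1 e2
  refine ⟨M, R, ?_, ?_, ?_, ?_, ?_⟩
  · rw [hM]; exact Nat.mul_pos hW1 hPpos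
  · rw [hM, ← hW]
    calc W * ∏ p ∈ P, p ≤ W * (2 * W) := Nat.mul_le_mul_left _ (Nat.le_of_dvd (by omega) hPprod)
      _ = 2 * W ^ 2 := by ring
  · rw [hM, ← hW]; exact dvd_mul_right _ _
  · apply Nat.coprime_of_dvd
    intro p hp hd1 hd2
    exact hunit R rfl p (hMprime p hp hd2) (by exact_mod_cast hd1)
  · intro r hr
    have hgd : (g : ℤ) ∣ d + q * r := by
      rw [Int.natCast_dvd, Nat.dvd_iff_prime_pow_dvd_dvd]
      intro p k hp hk
      rcases Nat.eq_zero_or_pos k with h0 | h0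
      · rw [h0, pow_zero]; exact one_dvd _
      have := Fact.mk hp
      have hpg : p ∣ g := (dvd_pow_self _ (by omega)).trans hk
      have hpP := hPmem p hp ((hpg.trans hgW).mul_left _)
      have hkv : k ≤ padicValNat p g := (padicValNat_dvd_iff_le (by omega)).1 hk
      have e1 : (p : ℤ) ^ k ∣ d + q * rp p := (pow_dvd_pow _ hkv).trans (hrp p hp).2.1
      have e2 := (hdiff r hr p hpP k (by omega)).2 e1
      rw [← Int.natCast_dvd]
      exact_mod_cast e2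
    obtain ⟨h, hh⟩ := hgd
    have hpowg : ∀ p : ℕ, (p : ℤ) ^ (padicValNat p g) ∣ (g : ℤ) := fun p => by exact_mod_cast pow_padicValNat_dvd
    have key : ∀ p : ℕ, p.Prime → (p : ℤ) ∣ h → ¬ (p : ℤ) ∣ a * b := by
      intro p hp hph hpab
      have hpW : p ∣ W := by
        have : p ∣ (a * b).natAbs := Int.natCast_dvd.1 hpab
        rw [Int.natAbs_mul] at this
        rw [hW, mul_assoc]
        exact this.mul_left _
      have hpP := hPmem p hp (hpW.mul_left _)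
      have e1 : (p : ℤ) ^ (padicValNat p g + 1) ∣ d + q * r := by
        rw [hh, pow_succ]
        exact mul_dvd_mul (hpowg p) hph
      exact (hrp p hp).2.2.1 hpab ((hdiff r hr p hpP _ le_rfl).1 e1)
    refine ⟨h, hh, ?_, ?_, ?_⟩
    · rw [Int.isCoprime_iff_gcd_eq_one]
      apply Nat.coprime_of_dvd
      intro p hp hd1 hd2
      exact key p hp (Int.natCast_dvd.2 hd1) ((Int.natCast_dvd.2 hd2).mul_right _)
    · rw [Int.isCoprime_iff_gcd_eq_one]
      apply Nat.coprime_of_dvd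
      intro p hp hd1 hd2
      exact key p hp (Int.natCast_dvd.2 hd1) ((Int.natCast_dvd.2 hd2).mul_left _)
    · intro h2ab
      have hpP := hPmem 2 Nat.prime_two (dvd_mul_right _ _)
      have e1 := (hrp 2 Nat.prime_two).2.2.2 rfl (by exact_mod_cast h2ab)
      have e2 := (hdiff r hr 2 hpP _ le_rfl).2 e1
      obtain ⟨g', hg'⟩ := hpowg 2
      have e3 : ¬ (2 : ℤ) ∣ g' := by
        intro hcon
        have := Fact.mk Nat.prime_two
        have e4 : ((2 : ℕ) : ℤ) ^ (padicValNat 2 g + 1) ∣ (g : ℤ) := by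
          conv_rhs => rw [hg']
          rw [pow_succ]
          exact mul_dvd_mul_left _ (by exact_mod_cast hcon)
        have e5 : 2 ^ (padicValNat 2 g + 1) ∣ g := by exact_mod_cast e4
        exact pow_succ_padicValNat_not_dvd (by omega) e5
      rw [hh] at e2
      have e6 : ((2 : ℕ) : ℤ) ^ (padicValNat 2 g) * 2 ∣ ((2 : ℕ) : ℤ) ^ (padicValNat 2 g) * (g' * h) := by
        have e7 : (g : ℤ) * h = ((2 : ℕ) : ℤ) ^ (padicValNat 2 g) * (g' * h) := by
          conv_lhs => rw [hg']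
          ring
        rw [e7, pow_succ] at e2
        exact_mod_cast e2
      have e8 : (2 : ℤ) ∣ g' * h := (mul_dvd_mul_iff_left (by positivity)).1 e6
      exact (Int.prime_two.dvd_or_dvd e8).resolve_left e3

end Pool.Agent.Y883.T5
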