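import Pool.Agent.Y883.T5.Pair
import Pool.Agent.H373R2.T7.SysCount

set_option autoImplicit false

/-! The number of pairs of rough numbers on a line is at least the expected number. -/

namespace Pool.Agent.Y883.T5

open Finset
open Pool.Agent.H373R2.T7

lemma cls_one (p : ℕ) (hp : p.Prime) (x y : ℤ) (hxy : ¬ ((p : ℤ) ∣ x ∧ (p : ℤ) ∣ y)) :
    ((range p).filter (fun r : ℕ => (p : ℤ) ∣ x + y * (r : ℕ))).card ≤ 1 := by
  rw [card_le_one]
  intro r hr s hs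
  rw [mem_filter, mem_range] at hr hs
  have h1 : (p : ℤ) ∣ y * ((r : ℤ) - s) := by
    have := dvd_sub hr.2 hs.2
    have e : x + y * (r : ℕ) - (x + y * (s : ℕ)) = y * ((r : ℤ) - s) := by ring
    rwa [e] at this
  rcases (Nat.prime_iff_prime_int.1 hp).dvd_or_dvd h1 with h2 | h2
  · exfalso
    apply hxy
    exact ⟨(Int.dvd_add_left (h2.mul_right _)).1 hr.2, h2⟩
  · have h3 : |(r : ℤ) - s| < p := by rw [abs_lt]; omega
    have h4 := Int.eq_zero_of_abs_lt_dvd h2 h3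
    omega

lemma cls_zero (p : ℕ) (x y : ℤ) (hy : (p : ℤ) ∣ y) (hxy : ¬ ((p : ℤ) ∣ x ∧ (p : ℤ) ∣ y)) :
    (range p).filter (fun r : ℕ => (p : ℤ) ∣ x + y * (r : ℕ)) = ∅ := by
  rw [filter_eq_empty_iff]
  intro r _ h
  exact hxy ⟨(Int.dvd_add_left (hy.mul_right _)).1 h, hy⟩

/-- one of the two linear forms has the factor `p` -/
def QQ (x y x' y' : ℤ) (p n : ℕ) : Prop := (p : ℤ) ∣ x + y * (n : ℕ) ∨ (p : ℤ) ∣ x' + y' * (n : ℕ)

lemma QQ_per (x y x' y' : ℤ) (p n : ℕ) : QQ x y x' y' p n ↔ QQ x y x' y' p (n % p) := by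
  have key : ∀ x y : ℤ, (p : ℤ) ∣ x + y * (n : ℕ) ↔ (p : ℤ) ∣ x + y * ((n % p : ℕ) : ℕ) := by
    intro x y
    have e : x + y * (n : ℕ) = (x + y * ((n % p : ℕ) : ℕ)) + p * (y * ((n / p : ℕ) : ℤ)) := by
      have : ((n : ℕ) : ℤ) = ((n % p : ℕ) : ℤ) + p * ((n / p : ℕ) : ℤ) := by exact_mod_cast (Nat.mod_add_div n p).symm
      rw [this]
      push_cast
      ring
    rw [e]
    exact Int.dvd_add_left (dvd_mul_right _ _)
  unfold QQ
  rw [key x y, key x' y']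

open Classical in
lemma QQ_few {x y x' y' : ℤ} {p : ℕ} (hp : p.Prime) (h1 : ¬ ((p : ℤ) ∣ x ∧ (p : ℤ) ∣ y))
    (h2 : ¬ ((p : ℤ) ∣ x' ∧ (p : ℤ) ∣ y')) : nuB (QQ x y x' y') p ≤ 2 := by
  unfold nuB
  have a1 := cls_one p hp x y h1
  have a2 := cls_one p hp x' y' h2
  have a3 := card_union_le ((range p).filter (fun r : ℕ => (p : ℤ) ∣ x + y * (r : ℕ)))
    ((range p).filter (fun r : ℕ => (p : ℤ) ∣ x' + y' * (r : ℕ)))
  refine le_trans (card_le_card (t := (range p).filter (fun r : ℕ => (p : ℤ) ∣ x + y * (r : ℕ)) ∪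
    (range p).filter (fun r : ℕ => (p : ℤ) ∣ x' + y' * (r : ℕ))) ?_) (a3.trans (by omega))
  intro r hr
  rw [mem_filter] at hr
  rw [mem_union, mem_filter, mem_filter]
  unfold QQ at hr
  tauto

open Classical in
lemma QQ_two {x y x' y' : ℤ} (h1 : ¬ ((2 : ℤ) ∣ x ∧ (2 : ℤ) ∣ y))
    (h2 : ¬ ((2 : ℤ) ∣ x' ∧ (2 : ℤ) ∣ y')) (h3 : (2 : ℤ) ∣ y ∨ (2 : ℤ) ∣ y' ∨ (2 : ℤ) ∣ x - x') :
    nuB (QQ x y x' y') 2 ≤ 1 := by
  have a1 := cls_one 2 Nat.prime_two x y h1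
  have a2 := cls_one 2 Nat.prime_two x' y' h2
  unfold nuB
  by_cases c1 : (2 : ℤ) ∣ y
  · refine le_trans (card_le_card ?_) a2
    intro r hr
    rw [mem_filter] at hr ⊢
    unfold QQ at hr
    refine ⟨hr.1, ?_⟩
    rcases hr.2 with h | h
    · exact absurd ⟨(Int.dvd_add_left (c1.mul_right _)).1 h, c1⟩ h1
    · exact h
  · by_cases c2 : (2 : ℤ) ∣ y'
    · refine le_trans (card_le_card ?_) a1
      intro r hr
      rw [mem_filter] at hr ⊢
      unfold QQ at hr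
      refine ⟨hr.1, ?_⟩
      rcases hr.2 with h | h
      · exact h
      · exact absurd ⟨(Int.dvd_add_left (c2.mul_right _)).1 h, c2⟩ h2
    · have c3 : (2 : ℤ) ∣ x - x' := by tauto
      refine le_trans (card_le_card ?_) a1
      intro r hr
      rw [mem_filter] at hr ⊢
      unfold QQ at hr
      refine ⟨hr.1, ?_⟩
      rcases hr.2 with h | h
      · exact h
      · have h4 : (2 : ℤ) ∣ y - y' := by omega
        have h5 : (2 : ℤ) ∣ (y - y') * (r : ℕ) := h4.mul_right _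
        have h6 := dvd_add (dvd_add h c3) h5
        have e : x' + y' * (r : ℕ) + (x - x') + (y - y') * (r : ℕ) = x + y * (r : ℕ) := by ring
        rw [← e]
        exact h6

theorem main_low (E : ℕ) : ∃ N₀ : ℕ, ∀ N : ℕ, N₀ ≤ N → ∀ z : ℕ, 1 ≤ z → (z : ℝ) ≤ Real.log N ^ E →
    ∀ a : ℕ, 1 ≤ a → ∀ β : ℤ, IsCoprime (a : ℤ) β → ∀ h : ℤ, IsCoprime h a → IsCoprime h β →
    (¬ (2 : ℤ) ∣ a * β → (2 : ℤ) ∣ h) → ∀ Y : ℕ, (∀ n : ℕ, 1 ≤ n → n ≤ Y → (a : ℤ) ≤ h + β * (n : ℕ)) →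
    ∀ K : ℕ, √(N : ℝ) ≤ K → K ≤ N → a * (K + 1) ≤ Y → K / (2 * Real.log N) ≤ PS (lamzI z) (lamzI z) a β h Y := by
  classical
  obtain ⟨N₁, h1⟩ := sys_count 2 (E + 1) 5 (by norm_num)
  obtain ⟨N₂, h2⟩ := Vz_inv_small E
  obtain ⟨N₃, h3⟩ := ev_L' (8 + 2 * 2 ^ E)
  refine ⟨N₁ ^ 2 + N₂ + N₃ + 4, fun N hN z hz1 hz2 a ha β hcop h hha hhβ hpar Y hY K hK hKN haK => ?_⟩
  have c2 := h2 N (by omega) z hz1 hz2
  have hL := h3 N (by omega)
  have hN1 : 1 ≤ N := by omega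
  have hN0 : (0 : ℝ) < N := by exact_mod_cast hN1
  have hKr : (N₁ : ℝ) ≤ K := by
    refine le_trans ?_ hK
    apply Real.le_sqrt_of_sq_le
    exact_mod_cast (by omega : N₁ ^ 2 ≤ N)
  have hK1 : N₁ ≤ K := by exact_mod_cast hKr
  have hK2 : (2 : ℝ) ≤ K := by
    refine le_trans ?_ hK
    apply Real.le_sqrt_of_sq_le
    norm_num
    exact_mod_cast (by omega : 4 ≤ N)
  have hK0 : (0 : ℝ) < K := by linarith
  obtain ⟨L, hLd⟩ : ∃ L, L = Real.log (N : ℝ) := ⟨_, rfl⟩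
  rw [← hLd] at c2 hL hz2 ⊢
  have hE0 : (0 : ℝ) ≤ 2 ^ E := by positivity
  have hL8 : 8 ≤ L := by linarith
  have hL0 : 0 < L := by linarith
  have hlK : L / 2 ≤ Real.log K := by
    have e : Real.log √(N : ℝ) = L / 2 := by rw [hLd, Real.log_sqrt hN0.le]
    rw [← e]
    exact Real.log_le_log (Real.sqrt_pos.2 hN0) hK
  have hlK1 : (1 : ℝ) ≤ Real.log K := by linarith
  have hzK : (z : ℝ) ≤ Real.log K ^ (E + 1) := by
    calc (z : ℝ) ≤ L ^ E := hz2
      _ ≤ (2 * Real.log K) ^ E := pow_le_pow_left₀ hL0.le (by linarith) _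
      _ = 2 ^ E * Real.log K ^ E := mul_pow _ _ _
      _ ≤ Real.log K * Real.log K ^ E := mul_le_mul_of_nonneg_right (by linarith) (by positivity)
      _ = Real.log K ^ (E + 1) := by ring
  -- the residue class
  have ha0 : (0 : ℤ) < a := by exact_mod_cast ha
  obtain ⟨x, y, hxy⟩ := hcop
  obtain ⟨r, hr⟩ : ∃ r, r = (-(y * h) - 1) % (a : ℤ) := ⟨_, rfl⟩
  have hr0 : 0 ≤ r := by rw [hr]; exact Int.emod_nonneg _ ha0.ne'
  have hra : r < a := by rw [hr]; exact Int.emod_lt_of_pos _ ha0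
  obtain ⟨n1, hn1⟩ : ∃ n1 : ℕ, n1 = (r + 1).toNat := ⟨_, rfl⟩
  have hn1' : (n1 : ℤ) = r + 1 := by rw [hn1]; exact Int.toNat_of_nonneg (by omega)
  have hn1a : n1 ≤ a := by omega
  have hn11 : 1 ≤ n1 := by omega
  have hdiv : (a : ℤ) ∣ h + β * n1 := by
    have h4 : (a : ℤ) ∣ (-(y * h) - 1) - r := by rw [hr]; exact Int.dvd_self_sub_emod
    obtain ⟨k, hk⟩ := h4
    have e : (n1 : ℤ) = -(y * h) - a * k := by rw [hn1']; linarith
    rw [e]
    refine ⟨h * x - β * k, ?_⟩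
    have e2 : h = h * (x * a + y * β) := by rw [hxy, mul_one]
    calc h + β * (-(y * h) - a * k) = h * (x * a + y * β) + β * (-(y * h) - a * k) := by rw [hxy, mul_one]
      _ = a * (h * x - β * k) := by ring
  obtain ⟨p1, hp1⟩ := hdiv
  -- the conditions at the primes
  have hA : ∀ p : ℕ, p.Prime → ¬ ((p : ℤ) ∣ (n1 : ℤ) ∧ (p : ℤ) ∣ (a : ℤ)) := by
    intro p hp ⟨d1, d2⟩
    have d3 : (p : ℤ) ∣ h := by
      have e : h = a * p1 - β * n1 := by linarith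
      rw [e]
      exact dvd_sub (d2.mul_right _) (d1.mul_left _)
    have d4 := hha.isUnit_of_dvd' d3 d2
    exact (Nat.prime_iff_prime_int.1 hp).not_isUnit d4
  have hB : ∀ p : ℕ, p.Prime → ¬ ((p : ℤ) ∣ p1 ∧ (p : ℤ) ∣ β) := by
    intro p hp ⟨d1, d2⟩
    have d3 : (p : ℤ) ∣ h := by
      have e : h = a * p1 - β * n1 := by linarith
      rw [e]
      exact dvd_sub (d1.mul_left _) (d2.mul_right _)
    have d4 := hhβ.isUnit_of_dvd' d3 d2
    exact (Nat.prime_iff_prime_int.1 hp).not_isUnit d4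
  obtain ⟨Q, hQ⟩ : ∃ Q, Q = QQ (n1 : ℤ) a p1 β := ⟨_, rfl⟩
  have hQ2 : nuB Q 2 ≤ 1 := by
    rw [hQ]
    apply QQ_two (hA 2 Nat.prime_two) (hB 2 Nat.prime_two)
    by_cases c1 : (2 : ℤ) ∣ a
    · exact Or.inl c1
    · by_cases c2 : (2 : ℤ) ∣ β
      · exact Or.inr (Or.inl c2)
      · right; right
        have c3 : ¬ (2 : ℤ) ∣ a * β := by
          intro hcon
          rcases Int.prime_two.dvd_or_dvd hcon with h | h
          · exact c1 h
          · exact c2 h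
        have c4 := hpar c3
        have c5 : (2 : ℤ) ∣ a * p1 - β * n1 := by
          have e : h = a * p1 - β * n1 := by linarith
          rwa [e] at c4
        have o1 : (a : ℤ) % 2 = 1 := by omega
        have o2 : β % 2 = 1 := by omega
        have e5 : (a * p1 - β * n1) % 2 = (p1 - n1) % 2 := by
          rw [Int.sub_emod, Int.mul_emod, o1, Int.mul_emod β, o2, one_mul, one_mul, Int.emod_emod_of_dvd _ dvd_rfl,
            Int.emod_emod_of_dvd _ dvd_rfl, ← Int.sub_emod]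
        omega
  have hper : PerB Q 2 := by
    refine ⟨fun p n => by rw [hQ]; exact QQ_per _ _ _ _ p n, fun p hp => ?_⟩
    rw [hQ]
    exact QQ_few hp (hA p hp) (hB p hp)
  have c1 := h1 K hK1 z hz1 hzK Q hper
  -- the product
  have hprod : Vz z ^ 3 ≤ ∏ p ∈ pz z, (1 - (nuB Q p : ℝ) / p) := by
    unfold Vz
    rw [← prod_pow]
    apply prod_le_prod
    · intro p hp
      have hp2 : (2 : ℝ) ≤ p := by exact_mod_cast (mem_pz.1 hp).2.two_le
      have : 1 / (p : ℝ) ≤ 1 := by rw [div_le_one (by linarith)]; linarith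
      have : 0 ≤ 1 - 1 / (p : ℝ) := by linarith
      positivity
    · intro p hp
      have hpp := (mem_pz.1 hp).2
      have hp2 : (2 : ℝ) ≤ p := by exact_mod_cast hpp.two_le
      have hp0 : (0 : ℝ) < p := by linarith
      obtain ⟨t, ht⟩ : ∃ t, t = 1 / (p : ℝ) := ⟨_, rfl⟩
      have ht0 : 0 < t := by rw [ht]; positivity
      have e : (nuB Q p : ℝ) / p = nuB Q p * t := by rw [ht]; ring
      rw [← ht, e]
      rcases eq_or_ne p 2 with h2' | h2'
      · have h5 : (nuB Q p : ℝ) ≤ 1 := by rw [h2']; exact_mod_cast hQ2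
        have ht2 : t = 1 / 2 := by rw [ht, h2']; norm_num
        rw [ht2]
        nlinarith
      · have h5 : (nuB Q p : ℝ) ≤ 2 := by exact_mod_cast hper.few p hpp
        have hp3 : (3 : ℝ) ≤ p := by
          have := hpp.two_le
          exact_mod_cast (by omega : 3 ≤ p)
        have ht3 : t ≤ 1 / 3 := by rw [ht]; exact one_div_le_one_div_of_le (by norm_num) hp3
        nlinarith [mul_nonneg ht0.le (by linarith : 0 ≤ 1 / 3 - t), mul_nonneg (mul_nonneg ht0.le ht0.le) (by linarith : 0 ≤ 1 / 3 - t),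
          mul_nonneg ht0.le (by linarith : 0 ≤ 2 - (nuB Q p : ℝ))]
  have hVpos := Vz_pos z
  obtain ⟨V, hV⟩ : ∃ V, V = Vz z := ⟨_, rfl⟩
  rw [← hV] at c2 hprod hVpos
  have hVL : 1 / L ≤ V := by
    rw [div_le_iff₀ hL0]
    rw [inv_le_iff_one_le_mul₀ hVpos] at c2
    linarith
  obtain ⟨Cn, hCn⟩ : ∃ Cn, Cn = ((Icc 1 K).filter (fun n : ℕ => ∀ p ∈ pz z, ¬ Q p n)) := ⟨_, rfl⟩
  rw [← hCn] at c1
  have hcount : (K : ℝ) * V ^ 3 - K * (32 / L ^ 5) ≤ Cn.card := by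
    have e1 := (abs_le.1 c1).1
    have e2 : (K : ℝ) * V ^ 3 ≤ K * ∏ p ∈ pz z, (1 - (nuB Q p : ℝ) / p) := mul_le_mul_of_nonneg_left hprod hK0.le
    have e3 : (K : ℝ) / Real.log K ^ 5 ≤ K * (32 / L ^ 5) := by
      rw [div_eq_mul_inv]
      apply mul_le_mul_of_nonneg_left _ hK0.le
      rw [inv_eq_one_div, div_le_div_iff₀ (by positivity) (by positivity)]
      calc 1 * L ^ 5 = 32 * (L / 2) ^ 5 := by ring
        _ ≤ 32 * Real.log K ^ 5 := by
            apply mul_le_mul_of_nonneg_left _ (by norm_num)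
            exact pow_le_pow_left₀ (by positivity) hlK _
    linarith
  -- comparison
  have hterm : ∀ k ∈ Cn, (V⁻¹ * V⁻¹ : ℝ) ≤ (if (a : ℤ) ∣ h + β * ((n1 + a * k : ℕ) : ℕ) then
      lamzI z ((n1 + a * k : ℕ) : ℕ) * lamzI z ((h + β * ((n1 + a * k : ℕ) : ℕ)) / a) else 0) := by
    intro k hk
    rw [hCn, mem_filter, mem_Icc] at hk
    have e1 : h + β * ((n1 + a * k : ℕ) : ℕ) = a * (p1 + β * k) := by
      push_cast
      linarith [hp1, (by ring : (a : ℤ) * (p1 + β * k) = a * p1 + β * (a * k))]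
    have hle : n1 + a * k ≤ Y := by nlinarith [hk.1.2]
    have e2 := hY (n1 + a * k) (by omega) hle
    rw [e1, if_pos (dvd_mul_right _ _), Int.mul_ediv_cancel_left _ ha0.ne']
    rw [e1] at e2
    have e3 : 1 ≤ p1 + β * k := by
      by_contra hcon
      push Not at hcon
      have : p1 + β * k ≤ 0 := by omega
      nlinarith
    have f1 : lamzI z ((n1 + a * k : ℕ) : ℕ) = V⁻¹ := by
      unfold lamzI lamz
      rw [if_pos (by push_cast; have : (0 : ℤ) ≤ a * k := by positivity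
                     omega), Int.toNat_natCast, if_pos, hV]
      intro p hp hd
      apply hk.2 p hp
      rw [hQ]
      left
      have := Int.natCast_dvd_natCast.2 hd
      push_cast at this
      exact this
    have f2 : lamzI z (p1 + β * k) = V⁻¹ := by
      unfold lamzI lamz
      rw [if_pos e3, if_pos, hV]
      intro p hp hd
      apply hk.2 p hp
      rw [hQ]
      right
      have := Int.natCast_dvd_natCast.2 hd
      rwa [Int.toNat_of_nonneg (by omega)] at this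
    rw [f1, f2]
  have hnn : ∀ n : ℕ, 0 ≤ (if (a : ℤ) ∣ h + β * (n : ℕ) then
      lamzI z (n : ℕ) * lamzI z ((h + β * (n : ℕ)) / a) else 0) := by
    intro n
    have h0 : 0 ≤ V⁻¹ := (inv_pos.2 hVpos).le
    have hz0 : ∀ k : ℤ, 0 ≤ lamzI z k := by
      intro k
      unfold lamzI lamz
      split_ifs
      · rw [← hV]; exact h0
      · exact le_rfl
      · exact le_rfl
    split_ifs
    · exact mul_nonneg (hz0 _) (hz0 _)
    · exact le_rfl
  have hPS : (Cn.card : ℝ) * (V⁻¹ * V⁻¹) ≤ PS (lamzI z) (lamzI z) a β h Y := by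
    unfold PS
    have hinj : Set.InjOn (fun k : ℕ => n1 + a * k) (Cn : Set ℕ) := by
      intro x _ y _ hxy
      simp only at hxy
      exact Nat.eq_of_mul_eq_mul_left ha (Nat.add_left_cancel hxy)
    have e1 : Cn.image (fun k : ℕ => n1 + a * k) ⊆ Icc 1 Y := by
      intro n hn
      rw [mem_image] at hn
      obtain ⟨k, hk, rfl⟩ := hn
      rw [hCn, mem_filter, mem_Icc] at hk
      rw [mem_Icc]
      constructor
      · omega
      · nlinarith [hk.1.2]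
    calc (Cn.card : ℝ) * (V⁻¹ * V⁻¹) = ∑ _k ∈ Cn, (V⁻¹ * V⁻¹ : ℝ) := by rw [sum_const, nsmul_eq_mul]
      _ ≤ ∑ k ∈ Cn, (if (a : ℤ) ∣ h + β * ((n1 + a * k : ℕ) : ℕ) then
          lamzI z ((n1 + a * k : ℕ) : ℕ) * lamzI z ((h + β * ((n1 + a * k : ℕ) : ℕ)) / a) else 0) := sum_le_sum hterm
      _ = ∑ n ∈ Cn.image (fun k : ℕ => n1 + a * k), (if (a : ℤ) ∣ h + β * (n : ℕ) then
          lamzI z (n : ℕ) * lamzI z ((h + β * (n : ℕ)) / a) else 0) := by rw [sum_image hinj]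
      _ ≤ _ := sum_le_sum_of_subset_of_nonneg e1 (fun n _ _ => hnn n)
  refine le_trans ?_ hPS
  have hVV : V⁻¹ * V⁻¹ ≤ L ^ 2 := by
    rw [pow_two]
    exact mul_le_mul c2 c2 (inv_pos.2 hVpos).le hL0.le
  have e1 : (K * V ^ 3 - K * (32 / L ^ 5)) * (V⁻¹ * V⁻¹) ≤ (Cn.card : ℝ) * (V⁻¹ * V⁻¹) :=
    mul_le_mul_of_nonneg_right hcount (by positivity)
  refine le_trans ?_ e1
  have e2 : (K * V ^ 3 - K * (32 / L ^ 5)) * (V⁻¹ * V⁻¹) = K * V - K * (32 / L ^ 5 * (V⁻¹ * V⁻¹)) := by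
    field_simp
  have e3 : 32 / L ^ 5 * (V⁻¹ * V⁻¹) ≤ 32 / L ^ 5 * L ^ 2 := mul_le_mul_of_nonneg_left hVV (by positivity)
  have e4 : 32 / L ^ 5 * L ^ 2 = 32 / L ^ 3 := by field_simp
  have e5 : 32 / L ^ 3 ≤ 1 / (2 * L) := by
    rw [div_le_div_iff₀ (by positivity) (by positivity)]
    nlinarith [mul_pos hL0 hL0, mul_nonneg hL0.le (by nlinarith : 0 ≤ L ^ 2 - 64)]
  have e6 : (K : ℝ) / (2 * L) = K * (1 / L) - K * (1 / (2 * L)) := by field_simp; ring
  rw [e2, e6]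
  have e7 := mul_le_mul_of_nonneg_left hVL hK0.le
  have e8 := mul_le_mul_of_nonneg_left (e3.trans (e4.le.trans e5)) hK0.le
  linarith

end Pool.Agent.Y883.T5
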