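import Pool.Agent.Y883.T5.SW

set_option autoImplicit false

/-! Numerical parts: a window of primes, and the size of the main term. -/

namespace Pool.Agent.Y883.T5

open Finset
open Pool.Agent.H373R2.T7
open Pool.Agent.Y883.T3

lemma win_real {q X Ξ R1 R2 n3 : ℝ} (hq0 : 0 < q) (hΞX : Ξ * q = X) (h16 : n3 + 16 ≤ Ξ) (h0 : 0 ≤ n3)
    (hR1a : R1 * (4 * q) ≤ 5 * X) (hR2a : R2 * (2 * q) ≤ 3 * X) (hR1b : 5 * X < (R1 + 1) * (4 * q))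
    (hR2b : 3 * X < (R2 + 1) * (2 * q)) :
    Ξ / 8 ≤ R2 - R1 ∧ R2 ≤ 12 * (R2 - R1) ∧ n3 ≤ R1 ∧ Ξ ≤ R1 ∧ R2 ≤ 3 / 2 * Ξ := by
  rw [← hΞX] at hR1a hR2a hR1b hR2b
  have a1 : R1 ≤ 5 / 4 * Ξ := le_of_mul_le_mul_right (by linarith) hq0
  have a2 : R2 ≤ 3 / 2 * Ξ := le_of_mul_le_mul_right (by linarith) hq0
  have a3 : 5 / 4 * Ξ < R1 + 1 := lt_of_mul_lt_mul_right (by linarith) hq0.le
  have a4 : 3 / 2 * Ξ < R2 + 1 := lt_of_mul_lt_mul_right (by linarith) hq0.le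
  refine ⟨by linarith, by linarith, by linarith, by linarith, a2⟩

lemma pow_bound {L : ℝ} (hL8 : 8192 ≤ L) {Ξ N q X M R1 R2 lr : ℝ} {T A : ℕ} (hA : 4 * T + 10 ≤ A) (hq : 0 < q)
    (hΞX : Ξ * q = X) (hX16 : N ≤ 16 * X) (hM0 : 0 < M) (hMr : M ≤ 2 * L ^ (4 * T)) (hlr0 : 0 < lr) (hlr : lr ≤ L)
    (hΞ0 : 0 < Ξ) (hR : Ξ / 8 ≤ R2 - R1) : 8 * (N / (q * L ^ A)) < (R2 - R1) / (4 * M * lr) := by
  have hL0 : 0 < L := by linarith
  have hL1 : 1 ≤ L := by linarith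
  rw [lt_div_iff₀ (by positivity)]
  have e1 : 4 * M * lr ≤ 8 * L ^ (4 * T + 1) := by
    calc 4 * M * lr ≤ 4 * (2 * L ^ (4 * T)) * L := by gcongr
      _ = 8 * L ^ (4 * T + 1) := by ring
  have e2 : N / (q * L ^ A) ≤ 16 * Ξ / L ^ A := by
    rw [div_le_div_iff₀ (by positivity) (by positivity)]
    calc N * L ^ A ≤ 16 * X * L ^ A := by gcongr
      _ = 16 * Ξ * (q * L ^ A) := by rw [← hΞX]; ring
  have e3 : L ^ (4 * T + 1) / L ^ A ≤ 1 / L ^ 9 := by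
    rw [div_le_div_iff₀ (by positivity) (by positivity), one_mul, ← pow_add]
    exact pow_le_pow_right₀ hL1 (by omega)
  have e4 : (8192 : ℝ) < L ^ 9 := by
    calc (8192 : ℝ) < 8192 ^ 2 := by norm_num
      _ ≤ L ^ 2 := pow_le_pow_left₀ (by norm_num) hL8 _
      _ ≤ L ^ 9 := pow_le_pow_right₀ hL1 (by norm_num)
  have e5 : 1 / L ^ 9 < 1 / 8192 := one_div_lt_one_div_of_lt (by norm_num) e4
  calc 8 * (N / (q * L ^ A)) * (4 * M * lr) ≤ 8 * (16 * Ξ / L ^ A) * (8 * L ^ (4 * T + 1)) := by gcongr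
    _ = 1024 * Ξ * (L ^ (4 * T + 1) / L ^ A) := by ring
    _ ≤ 1024 * Ξ * (1 / L ^ 9) := by gcongr
    _ < 1024 * Ξ * (1 / 8192) := mul_lt_mul_of_pos_left e5 (by linarith)
    _ = Ξ / 8 := by ring
    _ ≤ R2 - R1 := hR

theorem window (T A : ℕ) (hA : 4 * T + 10 ≤ A) : ∃ N₀ : ℕ, ∀ N : ℕ, N₀ ≤ N → ∀ q : ℕ, 1 ≤ q →
    (q : ℝ) ≤ (N : ℝ) ^ (2 / 3 : ℝ) → ∀ X : ℕ, 8 * X ≤ N → N ≤ 16 * X → ∀ M R : ℕ, 1 ≤ M →
    (M : ℝ) ≤ 2 * Real.log N ^ (4 * T) → R.Coprime M → ∃ C : Finset ℕ,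
      (∀ r ∈ C, r.Prime ∧ r ≡ R [MOD M] ∧ 5 * X < 4 * (q * r) ∧ 2 * (q * r) ≤ 3 * X) ∧
      8 * ((N : ℝ) / (q * Real.log N ^ A)) < C.card := by
  classical
  obtain ⟨N₃, h3⟩ := prime_count (4 * T + 1)
  obtain ⟨N₄, h4⟩ := ev_L' (8192 + 8 * 4 ^ (4 * T) + 12 * Real.log 16)
  refine ⟨(16 * (N₃ + 16)) ^ 3 + N₄ + 16, fun N hN q hq1 hqN X hX1 hX2 M R hM1 hMr hRM => ?_⟩
  have hL := h4 N (by omega)
  have hN16 : (16 * (N₃ + 16)) ^ 3 ≤ N := by omega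
  have hN1 : 1 ≤ N := by omega
  have hN0 : (0 : ℝ) < N := by exact_mod_cast hN1
  obtain ⟨L, hLd⟩ : ∃ L, L = Real.log (N : ℝ) := ⟨_, rfl⟩
  rw [← hLd] at hL hMr ⊢
  have h4T : (0 : ℝ) ≤ 8 * 4 ^ (4 * T) := by positivity
  have hl16 : 0 ≤ 12 * Real.log 16 := by positivity
  have hL8 : 8192 ≤ L := by linarith
  have hL0 : 0 < L := by linarith
  have hq0 : (0 : ℝ) < q := by exact_mod_cast hq1
  have hX16 : (N : ℝ) ≤ 16 * X := by exact_mod_cast hX2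
  have hX8 : 8 * (X : ℝ) ≤ N := by exact_mod_cast hX1
  obtain ⟨κ, hκ⟩ : ∃ κ : ℝ, κ = (N : ℝ) ^ (1 / 3 : ℝ) := ⟨_, rfl⟩
  have hN30 : (0 : ℝ) ≤ N₃ := Nat.cast_nonneg _
  have hκ1 : 16 * (N₃ + 16 : ℝ) ≤ κ := by
    rw [hκ]
    have e1 : ((16 * (N₃ + 16 : ℝ)) ^ (3 : ℕ)) ≤ N := by exact_mod_cast hN16
    calc 16 * (N₃ + 16 : ℝ) = ((16 * (N₃ + 16 : ℝ)) ^ (3 : ℕ)) ^ (1 / 3 : ℝ) := by
          rw [← Real.rpow_natCast, ← Real.rpow_mul (by positivity)]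
          norm_num
      _ ≤ (N : ℝ) ^ (1 / 3 : ℝ) := Real.rpow_le_rpow (by positivity) e1 (by norm_num)
  have hκ0 : 0 < κ := by linarith
  have hqκ : (q : ℝ) * κ ≤ N := by
    calc (q : ℝ) * κ ≤ (N : ℝ) ^ (2 / 3 : ℝ) * κ := mul_le_mul_of_nonneg_right hqN hκ0.le
      _ = N := by rw [hκ, ← Real.rpow_add hN0]; norm_num
  obtain ⟨Ξ, hΞ⟩ : ∃ Ξ : ℝ, Ξ = X / q := ⟨_, rfl⟩
  have hΞX : Ξ * q = X := by rw [hΞ]; field_simp
  have hXq : κ / 16 ≤ Ξ := by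
    rw [hΞ, div_le_div_iff₀ (by norm_num) hq0]
    linarith [mul_comm (q : ℝ) κ]
  have hXq16 : (N₃ : ℝ) + 16 ≤ Ξ := by linarith
  obtain ⟨R1, hR1⟩ : ∃ R1, R1 = 5 * X / (4 * q) := ⟨_, rfl⟩
  obtain ⟨R2, hR2⟩ : ∃ R2, R2 = 3 * X / (2 * q) := ⟨_, rfl⟩
  have h4q : 0 < 4 * q := by omega
  have h2q0 : 0 < 2 * q := by omega
  have hR1a : R1 * (4 * q) ≤ 5 * X := by rw [hR1]; exact Nat.div_mul_le_self _ _
  have hR2a : R2 * (2 * q) ≤ 3 * X := by rw [hR2]; exact Nat.div_mul_le_self _ _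
  have hR1b : 5 * X < (R1 + 1) * (4 * q) := by rw [hR1, ← Nat.div_lt_iff_lt_mul h4q]; omega
  have hR2b : 3 * X < (R2 + 1) * (2 * q) := by rw [hR2, ← Nat.div_lt_iff_lt_mul h2q0]; omega
  obtain ⟨r1, r2, r3, r4, r5⟩ := win_real (R1 := (R1 : ℝ)) (R2 := (R2 : ℝ)) hq0 hΞX hXq16 hN30 (by exact_mod_cast hR1a) (by exact_mod_cast hR2a)
    (by exact_mod_cast hR1b) (by exact_mod_cast hR2b)
  have hΞ0 : 0 < Ξ := by linarith
  have hR12 : R1 ≤ R2 := by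
    have : (R1 : ℝ) ≤ R2 := by linarith
    exact_mod_cast this
  have hR12' : R2 ≤ 12 * (R2 - R1) := by
    have e : ((12 * (R2 - R1) : ℕ) : ℝ) = 12 * ((R2 : ℝ) - R1) := by push_cast [Nat.cast_sub hR12]; ring
    have : ((R2 : ℕ) : ℝ) ≤ ((12 * (R2 - R1) : ℕ) : ℝ) := by rw [e]; exact r2
    exact_mod_cast this
  have hR1N : N₃ ≤ R1 := by exact_mod_cast r3
  have hR1κ : κ / 16 ≤ R1 := by linarith
  have hlogR1 : L / 4 ≤ Real.log R1 := by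
    have e1 : Real.log (κ / 16) ≤ Real.log R1 := Real.log_le_log (by positivity) hR1κ
    rw [Real.log_div hκ0.ne' (by norm_num), hκ, Real.log_rpow hN0, ← hLd] at e1
    linarith
  have hM0 : (0 : ℝ) < M := by exact_mod_cast hM1
  have hℓ0 : 0 < Real.log R1 := by linarith
  have hMlog : (M : ℝ) ≤ Real.log R1 ^ (4 * T + 1) := by
    calc (M : ℝ) ≤ 2 * L ^ (4 * T) := hMr
      _ ≤ 2 * (4 * Real.log R1) ^ (4 * T) := by
          apply mul_le_mul_of_nonneg_left _ (by norm_num)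
          exact pow_le_pow_left₀ hL0.le (by linarith) _
      _ = (2 * 4 ^ (4 * T)) * Real.log R1 ^ (4 * T) := by rw [mul_pow]; ring
      _ ≤ Real.log R1 * Real.log R1 ^ (4 * T) := mul_le_mul_of_nonneg_right (by linarith) (by positivity)
      _ = Real.log R1 ^ (4 * T + 1) := by ring
  have hcnt := h3 R1 hR1N R2 hR12 hR12' M R hM1 hMlog hRM
  have hΞX' : Ξ ≤ X := by
    rw [← hΞX]
    have : (1 : ℝ) ≤ q := by exact_mod_cast hq1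
    exact le_mul_of_one_le_right hΞ0.le this
  have hR2N : (R2 : ℝ) ≤ N := by linarith
  have hR20 : (0 : ℝ) < R2 := by linarith
  have hlogR2 : Real.log R2 ≤ L := by rw [hLd]; exact Real.log_le_log hR20 hR2N
  have hlogR20 : 0 < Real.log R2 := lt_of_lt_of_le hℓ0 (Real.log_le_log (by linarith) (by exact_mod_cast hR12))
  refine ⟨(Ioc R1 R2).filter (fun r : ℕ => r.Prime ∧ r ≡ R [MOD M]), ?_,
    lt_of_lt_of_le (pow_bound hL8 hA hq0 hΞX hX16 hM0 hMr hlogR20 hlogR2 hΞ0 r1) hcnt⟩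
  intro r hr
  rw [mem_filter, mem_Ioc] at hr
  obtain ⟨⟨w1, w2⟩, w3, w4⟩ := hr
  refine ⟨w3, w4, ?_, ?_⟩
  · calc 5 * X < (R1 + 1) * (4 * q) := hR1b
      _ ≤ r * (4 * q) := Nat.mul_le_mul_right _ w1
      _ = 4 * (q * r) := by ring
  · calc 2 * (q * r) = r * (2 * q) := by ring
      _ ≤ R2 * (2 * q) := Nat.mul_le_mul_right _ w2
      _ ≤ 3 * X := hR2a

lemma num_err {L N : ℝ} (hL8 : 8192 ≤ L) (hN0 : 0 < N) {T A : ℕ} (hA : 4 * T + 10 ≤ A) :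
    4 * (L * (N / L ^ A)) ≤ N / (256 * L ^ (2 * T)) / (4 * L) := by
  have hL0 : 0 < L := by linarith
  have hL1 : 1 ≤ L := by linarith
  rw [div_div]
  have e1 : L ^ (2 * T) * L ^ 10 ≤ L ^ A := by
    rw [← pow_add]
    exact pow_le_pow_right₀ hL1 (by omega)
  have e2 : N / L ^ A ≤ N / (L ^ (2 * T) * L ^ 10) := div_le_div_of_nonneg_left hN0.le (by positivity) e1
  calc 4 * (L * (N / L ^ A)) ≤ 4 * (L * (N / (L ^ (2 * T) * L ^ 10))) := by gcongr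
    _ = N / (L ^ (2 * T)) * (4 / L ^ 9) := by field_simp
    _ ≤ N / (L ^ (2 * T)) * (1 / (1024 * L)) := by
        apply mul_le_mul_of_nonneg_left _ (by positivity)
        rw [div_le_div_iff₀ (by positivity) (by positivity)]
        have e3 : L ^ 1 ≤ L ^ 8 := pow_le_pow_right₀ hL1 (by norm_num)
        have e4 : 4096 ≤ L ^ 8 := by linarith [pow_one L]
        calc 4 * (1024 * L) = 4096 * L := by ring
          _ ≤ L ^ 8 * L := mul_le_mul_of_nonneg_right e4 hL0.le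
          _ = 1 * L ^ 9 := by ring
    _ = N / (256 * L ^ (2 * T) * (4 * L)) := by field_simp; norm_num

/-- the size of the main term -/
theorem main_size (T A : ℕ) (hA : 4 * T + 10 ≤ A) : ∃ N₀ : ℕ, ∀ N : ℕ, N₀ ≤ N → 1 ≤ N ∧ 128 * Real.log N ^ T ≤ N ∧
    ∀ (X a b Y : ℕ), N ≤ 16 * X → 1 ≤ a → 1 ≤ b → (a : ℝ) ≤ Real.log N ^ T → (b : ℝ) ≤ Real.log N ^ T →
    X < (Y + 1) * (8 * b) → Y ≤ N → ∃ K : ℕ, √(N : ℝ) ≤ K ∧ K ≤ N ∧ a * (K + 1) ≤ Y ∧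
      4 * (√(N : ℝ) * Real.log N ^ 2) + 4 * (Real.log N * (N / Real.log N ^ A)) < K / (2 * Real.log N) := by
  obtain ⟨N₄, h4⟩ := ev_L' 8192
  obtain ⟨N₅, h5⟩ := ev_log_rpow (2 * T + 4) 2048 (1 / 2) (by norm_num)
  refine ⟨N₄ + N₅ + 1, fun N hN => ?_⟩
  have hL8 := h4 N (by omega)
  have c5 := h5 N (by omega)
  have hN1 : 1 ≤ N := by omega
  have hN0 : (0 : ℝ) < N := by exact_mod_cast hN1
  have hN1r : (1 : ℝ) ≤ N := by exact_mod_cast hN1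
  obtain ⟨L, hLd⟩ : ∃ L, L = Real.log (N : ℝ) := ⟨_, rfl⟩
  rw [← hLd] at hL8 c5 ⊢
  have hL0 : 0 < L := by linarith
  have hL1 : 1 ≤ L := by linarith
  have hsN : √(N : ℝ) = (N : ℝ) ^ (1 / 2 : ℝ) := Real.sqrt_eq_rpow _
  rw [← hsN] at c5
  have hss : √(N : ℝ) * √(N : ℝ) = N := Real.mul_self_sqrt hN0.le
  have hs1 : 1 ≤ √(N : ℝ) := Real.one_le_sqrt.2 hN1r
  obtain ⟨σ, hσ⟩ : ∃ σ, σ = √(N : ℝ) := ⟨_, rfl⟩
  rw [← hσ] at c5 hss hs1 ⊢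
  have hσN : σ ≤ N := by rw [← hss]; exact le_mul_of_one_le_right (by linarith) hs1
  have hLT : L ^ T ≤ L ^ (2 * T + 4) := pow_le_pow_right₀ hL1 (by omega)
  have hLT0 : 0 < L ^ (2 * T + 4) := by positivity
  refine ⟨hN1, by linarith, fun X a b Y hX2 ha1 hb1 haT hbT hY2 hYN => ?_⟩
  have hX16 : (N : ℝ) ≤ 16 * X := by exact_mod_cast hX2
  obtain ⟨Z, hZ⟩ : ∃ Z, Z = Y / a := ⟨_, rfl⟩
  have hZ1 : Z * a ≤ Y := by rw [hZ]; exact Nat.div_mul_le_self _ _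
  have hZ2 : Y < (Z + 1) * a := by
    rw [hZ, ← Nat.div_lt_iff_lt_mul ha1]
    omega
  have haL : (a : ℝ) * b ≤ L ^ (2 * T) := by
    calc (a : ℝ) * b ≤ L ^ T * L ^ T := mul_le_mul haT hbT (by positivity) (by positivity)
      _ = L ^ (2 * T) := by rw [← pow_add]; ring_nf
  have hZr : (X : ℝ) ≤ 8 * L ^ (2 * T) * (Z + 1) := by
    have e1 : X ≤ ((Z + 1) * a) * (8 * b) := hY2.le.trans (Nat.mul_le_mul_right _ hZ2)
    have e2 : (X : ℝ) ≤ ((Z + 1) * a) * (8 * b) := by exact_mod_cast e1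
    have e3 : (0 : ℝ) ≤ 8 * (Z + 1) := by positivity
    calc (X : ℝ) ≤ ((Z + 1) * a) * (8 * b) := e2
      _ = 8 * (Z + 1) * (a * b) := by ring
      _ ≤ 8 * (Z + 1) * L ^ (2 * T) := mul_le_mul_of_nonneg_left haL e3
      _ = _ := by ring
  have hLL0 : 0 < L ^ (2 * T) := by positivity
  have hL4 : L ^ (2 * T) * L ^ 4 = L ^ (2 * T + 4) := by rw [← pow_add]
  obtain ⟨Nq, hNq⟩ : ∃ Nq : ℝ, Nq = N / (256 * L ^ (2 * T)) := ⟨_, rfl⟩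
  have e3 : 2 ≤ Nq := by
    rw [hNq, le_div_iff₀ (by positivity)]
    have e4 : L ^ (2 * T) ≤ L ^ (2 * T + 4) := pow_le_pow_right₀ hL1 (by omega)
    linarith
  have hZr2 : 2 + Nq ≤ (Z : ℝ) + 1 := by
    have e1 : (N : ℝ) / (128 * L ^ (2 * T)) ≤ Z + 1 := by
      rw [div_le_iff₀ (by positivity)]
      linarith [(by ring : 16 * (8 * L ^ (2 * T) * ((Z : ℝ) + 1)) = (Z + 1) * (128 * L ^ (2 * T)))]
    have e2 : (N : ℝ) / (128 * L ^ (2 * T)) = 2 * Nq := by rw [hNq]; field_simp; norm_num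
    linarith
  have hNqs : 8 * L ^ 4 * σ ≤ Nq := by
    rw [hNq, le_div_iff₀ (by positivity)]
    calc 8 * L ^ 4 * σ * (256 * L ^ (2 * T)) = σ * (2048 * (L ^ (2 * T) * L ^ 4)) := by ring
      _ ≤ σ * σ := by
          rw [hL4]
          exact mul_le_mul_of_nonneg_left c5 (by linarith)
      _ = N := hss
  have hZ0 : 1 ≤ Z := by
    have : (1 : ℝ) ≤ Z := by linarith
    exact_mod_cast this
  have hKr : Nq ≤ ((Z - 1 : ℕ) : ℝ) := by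
    rw [Nat.cast_sub hZ0]
    push_cast
    linarith
  refine ⟨Z - 1, ?_, ?_, ?_, ?_⟩
  · have e1 : (1 : ℝ) ≤ L ^ 4 := one_le_pow₀ hL1
    have e2 : 1 * σ ≤ (8 * L ^ 4) * σ := mul_le_mul_of_nonneg_right (by linarith) (by linarith)
    linarith
  · have e1 : Z ≤ Y := (Nat.le_mul_of_pos_right _ ha1).trans hZ1
    omega
  · have : Z - 1 + 1 = Z := by omega
    rw [this, mul_comm]
    exact hZ1
  · have herr := num_err hL8 hN0 hA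
    rw [← hNq] at herr
    have hKlow : Nq / (2 * L) ≤ ((Z - 1 : ℕ) : ℝ) / (2 * L) := div_le_div_of_nonneg_right hKr (by positivity)
    have e2 : Nq / (2 * L) = 2 * (Nq / (4 * L)) := by field_simp; norm_num
    have e3 : 2 * L ^ 3 * σ ≤ Nq / (4 * L) := by
      rw [le_div_iff₀ (by positivity)]
      linarith [(by ring : 2 * L ^ 3 * σ * (4 * L) = 8 * L ^ 4 * σ)]
    have e4 : 4 * (σ * L ^ 2) < 2 * L ^ 3 * σ := by
      have : 0 < σ * L ^ 2 := by positivity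
      calc 4 * (σ * L ^ 2) < (2 * L) * (σ * L ^ 2) := by
            apply mul_lt_mul_of_pos_right _ this
            linarith
        _ = _ := by ring
    linarith

end Pool.Agent.Y883.T5
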