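import Pool.Agent.Y883.T5.Shift
import Pool.Agent.H373R2.T7.Tuple4

set_option autoImplicit false

/-! Pairs of values of two functions on the line `a x = h + β y`. -/

namespace Pool.Agent.Y883.T5

open Finset
open Pool.Agent.H373R2.T7
open Pool.Agent.Y883.T4

/-- the sum over the pairs `(n, x)` with `a x = h + β n` -/
noncomputable def PS (u v : ℤ → ℝ) (a : ℕ) (β h : ℤ) (Y : ℕ) : ℝ :=
  ∑ n ∈ Icc 1 Y, if (a : ℤ) ∣ h + β * (n : ℕ) then u (n : ℕ) * v ((h + β * (n : ℕ)) / a) else 0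

lemma PS_sub_left (u u' v : ℤ → ℝ) (a : ℕ) (β h : ℤ) (Y : ℕ) :
    PS (fun k => u k - u' k) v a β h Y = PS u v a β h Y - PS u' v a β h Y := by
  unfold PS
  rw [← sum_sub_distrib]
  apply sum_congr rfl
  intro n _
  split_ifs <;> ring

lemma PS_sub_right (u v v' : ℤ → ℝ) (a : ℕ) (β h : ℤ) (Y : ℕ) :
    PS u (fun k => v k - v' k) a β h Y = PS u v a β h Y - PS u v' a β h Y := by
  unfold PS
  rw [← sum_sub_distrib]
  apply sum_congr rfl
  intro n _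
  split_ifs <;> ring

lemma PS_congr_left {u u' v : ℤ → ℝ} {a : ℕ} {β h : ℤ} {Y : ℕ} (H : ∀ n : ℕ, 1 ≤ n → n ≤ Y → u (n : ℕ) = u' (n : ℕ)) :
    PS u v a β h Y = PS u' v a β h Y := by
  unfold PS
  apply sum_congr rfl
  intro n hn
  rw [mem_Icc] at hn
  rw [H n hn.1 hn.2]

/-- the second function has a small sum -/
lemma PS_small_right {u v : ℤ → ℝ} {a : ℕ} (ha : 1 ≤ a) {β h : ℤ} (hβ : β ≠ 0) {Y N : ℕ} {U E : ℝ} (hU : 0 ≤ U)
    (hu : ∀ n : ℕ, 1 ≤ n → n ≤ Y → |u (n : ℕ)| ≤ U) (hv0 : ∀ k : ℤ, k < 1 → v k = 0)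
    (hN : ∀ n : ℕ, 1 ≤ n → n ≤ Y → h + β * (n : ℕ) ≤ N)
    (hv : ∑ k ∈ Icc 1 N, |v ((k : ℕ) : ℤ)| ≤ E) : |PS u v a β h Y| ≤ U * E := by
  classical
  have ha0 : (0 : ℤ) < a := by exact_mod_cast ha
  unfold PS
  refine (abs_sum_le_sum_abs _ _).trans ?_
  have h1 : ∀ n ∈ Icc 1 Y, |if (a : ℤ) ∣ h + β * (n : ℕ) then u (n : ℕ) * v ((h + β * (n : ℕ)) / a) else 0| ≤
      U * ∑ k ∈ Icc 1 N, (if (a : ℤ) * (k : ℕ) = h + β * (n : ℕ) then |v ((k : ℕ) : ℤ)| else 0) := by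
    intro n hn
    rw [mem_Icc] at hn
    have hs : 0 ≤ ∑ k ∈ Icc 1 N, (if (a : ℤ) * (k : ℕ) = h + β * (n : ℕ) then |v ((k : ℕ) : ℤ)| else 0) :=
      sum_nonneg fun k _ => by split_ifs <;> simp
    split_ifs with hd
    · rw [abs_mul]
      apply mul_le_mul (hu n hn.1 hn.2) _ (abs_nonneg _) hU
      obtain ⟨k, hk⟩ := hd
      have e1 : (h + β * (n : ℕ)) / (a : ℤ) = k := by rw [hk]; exact Int.mul_ediv_cancel_left _ ha0.ne'
      rw [e1]
      rcases lt_or_ge k 1 with hk1 | hk1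
      · rw [hv0 k hk1, abs_zero]
        exact hs
      · have e2 : ((k.toNat : ℕ) : ℤ) = k := Int.toNat_of_nonneg (by omega)
        have e3 : k ≤ N := by
          have h5 := hN n hn.1 hn.2
          rw [hk] at h5
          nlinarith
        have h6 := single_le_sum (f := fun k : ℕ => if (a : ℤ) * (k : ℕ) = h + β * (n : ℕ) then |v ((k : ℕ) : ℤ)| else 0)
          (s := Icc 1 N) (fun k _ => by split_ifs <;> simp) (a := k.toNat) (by rw [mem_Icc]; omega)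
        rw [e2, if_pos hk.symm] at h6
        exact h6
    · rw [abs_zero]
      positivity
  refine (sum_le_sum h1).trans ?_
  rw [← mul_sum, sum_comm]
  apply mul_le_mul_of_nonneg_left _ hU
  refine le_trans (sum_le_sum ?_) hv
  intro k _
  rw [← sum_filter, sum_const, nsmul_eq_mul]
  have h2 : ((Icc 1 Y).filter (fun n : ℕ => (a : ℤ) * (k : ℕ) = h + β * (n : ℕ))).card ≤ 1 := by
    rw [card_le_one]
    intro x hx y hy
    rw [mem_filter] at hx hy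
    have h3 : β * (x : ℕ) = β * (y : ℕ) := by linarith [hx.2, hy.2]
    exact_mod_cast mul_left_cancel₀ hβ h3
  have h3 : (((Icc 1 Y).filter (fun n : ℕ => (a : ℤ) * (k : ℕ) = h + β * (n : ℕ))).card : ℝ) ≤ 1 := by exact_mod_cast h2
  nlinarith [abs_nonneg (v ((k : ℕ) : ℤ))]

/-- the first function has a small sum -/
lemma PS_small_left {u v : ℤ → ℝ} {a : ℕ} {β h : ℤ} {Y : ℕ} {V E : ℝ} (hV : 0 ≤ V)
    (hv : ∀ k : ℤ, |v k| ≤ V) (hu : ∑ n ∈ Icc 1 Y, |u ((n : ℕ) : ℤ)| ≤ E) : |PS u v a β h Y| ≤ V * E := by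
  unfold PS
  refine (abs_sum_le_sum_abs _ _).trans ?_
  have h1 : ∀ n ∈ Icc 1 Y, |if (a : ℤ) ∣ h + β * (n : ℕ) then u (n : ℕ) * v ((h + β * (n : ℕ)) / a) else 0| ≤
      V * |u ((n : ℕ) : ℤ)| := by
    intro n _
    split_ifs
    · rw [abs_mul, mul_comm]
      exact mul_le_mul_of_nonneg_right (hv _) (abs_nonneg _)
    · rw [abs_zero]
      positivity
  refine (sum_le_sum h1).trans ?_
  rw [← mul_sum]
  exact mul_le_mul_of_nonneg_left hu hV

/-- a function on the integers, zero outside of `[1, N]` -/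
noncomputable def fr (f : ℕ → ℝ) (N : ℕ) (k : ℤ) : ℝ := if 1 ≤ k ∧ k ≤ N then f k.toNat else 0

lemma fr_cast (f : ℕ → ℝ) (N : ℕ) (k : ℤ) : ((fr f N k : ℝ) : ℂ) = fz (fun k => ((f k : ℝ) : ℂ)) N k := by
  unfold fr fz
  split_ifs <;> simp

lemma fr_of_lt {f : ℕ → ℝ} {N : ℕ} {k : ℤ} (h : k < 1) : fr f N k = 0 := by
  unfold fr
  rw [if_neg (by omega)]

/-- the weights of the first sum -/
noncomputable def G1 (u : ℤ → ℝ) (a : ℕ) (β h : ℤ) (Y j : ℕ) : ℝ :=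
  ∑ n ∈ Icc 1 Y, if (a : ℤ) * (j : ℕ) = h + β * (n : ℕ) then u (n : ℕ) else 0

lemma G1_le {u : ℤ → ℝ} {a : ℕ} {β h : ℤ} (hβ : β ≠ 0) {Y : ℕ} {U : ℝ} (hU : 0 ≤ U)
    (hu : ∀ n : ℕ, 1 ≤ n → n ≤ Y → |u (n : ℕ)| ≤ U) (j : ℕ) : |G1 u a β h Y j| ≤ U := by
  classical
  unfold G1
  rw [← sum_filter]
  refine (abs_sum_le_sum_abs _ _).trans ?_
  have h2 : ((Icc 1 Y).filter (fun n : ℕ => (a : ℤ) * (j : ℕ) = h + β * (n : ℕ))).card ≤ 1 := by
    rw [card_le_one]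
    intro x hx y hy
    rw [mem_filter] at hx hy
    have h3 : β * (x : ℕ) = β * (y : ℕ) := by linarith [hx.2, hy.2]
    exact_mod_cast mul_left_cancel₀ hβ h3
  have h3 : (((Icc 1 Y).filter (fun n : ℕ => (a : ℤ) * (j : ℕ) = h + β * (n : ℕ))).card : ℝ) ≤ 1 := by exact_mod_cast h2
  calc _ ≤ ∑ _n ∈ (Icc 1 Y).filter (fun n : ℕ => (a : ℤ) * (j : ℕ) = h + β * (n : ℕ)), U := by
        apply sum_le_sum
        intro n hn
        rw [mem_filter, mem_Icc] at hn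
        exact hu n hn.1.1 hn.1.2
    _ = (((Icc 1 Y).filter (fun n : ℕ => (a : ℤ) * (j : ℕ) = h + β * (n : ℕ))).card : ℝ) * U := by
        rw [sum_const, nsmul_eq_mul]
    _ ≤ U := by nlinarith

lemma R1 (u : ℤ → ℝ) (f : ℕ → ℝ) (a : ℕ) (ha : 1 ≤ a) (β h q s : ℤ) (Y N : ℕ)
    (hY : ∀ n : ℕ, 1 ≤ n → n ≤ Y → 1 ≤ h + β * (n : ℕ) ∧ h + β * (n : ℕ) ≤ N) :
    PS u (fr f N) a β (h + a * β * q * s) Y = ∑ j ∈ Icc 1 N, G1 u a β h Y j * fr f N ((j : ℕ) + β * q * s) := by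
  classical
  have ha0 : (0 : ℤ) < a := by exact_mod_cast ha
  unfold PS G1
  simp only [sum_mul]
  rw [sum_comm]
  apply sum_congr rfl
  intro n hn
  rw [mem_Icc] at hn
  obtain ⟨h1, h2⟩ := hY n hn.1 hn.2
  have e0 : (h + a * β * q * s) + β * (n : ℕ) = (h + β * (n : ℕ)) + a * (β * q * s) := by ring
  rw [e0]
  by_cases hd : (a : ℤ) ∣ h + β * (n : ℕ)
  · rw [if_pos ((Int.dvd_add_right hd).2 (dvd_mul_right _ _) : (a : ℤ) ∣ (h + β * (n : ℕ)) + a * (β * q * s))]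
    obtain ⟨k, hk⟩ := hd
    have hk1 : 1 ≤ k := by
      by_contra hcon
      push Not at hcon
      have : k ≤ 0 := by omega
      nlinarith
    have hk2 : k ≤ N := by nlinarith
    have e2 : ((k.toNat : ℕ) : ℤ) = k := Int.toNat_of_nonneg (by omega)
    rw [sum_eq_single_of_mem k.toNat (by rw [mem_Icc]; omega)]
    · rw [if_pos (by rw [e2, hk]), e2, hk]
      congr 2
      rw [← mul_add]
      exact Int.mul_ediv_cancel_left _ ha0.ne'
    · intro j _ hj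
      rw [if_neg, zero_mul]
      intro hcon
      rw [hk] at hcon
      have h5 := mul_left_cancel₀ ha0.ne' hcon
      apply hj
      omega
  · rw [if_neg, sum_eq_zero]
    · intro j _
      rw [if_neg, zero_mul]
      intro hcon
      exact hd ⟨_, hcon.symm⟩
    · intro hcon
      exact hd ((Int.dvd_add_left (dvd_mul_right _ _)).1 hcon)

/-- the weights of the second sum -/
noncomputable def G2 (v : ℤ → ℝ) (a : ℕ) (β h : ℤ) (j : ℕ) : ℝ :=
  if (a : ℤ) ∣ h + β * (j : ℕ) then v ((h + β * (j : ℕ)) / a) else 0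

lemma G2_le {v : ℤ → ℝ} {a : ℕ} {β h : ℤ} {V : ℝ} (hV : 0 ≤ V) (hv : ∀ k : ℤ, |v k| ≤ V) (j : ℕ) :
    |G2 v a β h j| ≤ V := by
  unfold G2
  split_ifs
  · exact hv _
  · rw [abs_zero]; exact hV

lemma R2 (v : ℤ → ℝ) (f : ℕ → ℝ) (a : ℕ) (β h : ℤ) (q s : ℕ) (Y N : ℕ) :
    PS (fr f N) v a β (h + a * β * q * s) Y =
      ∑ j ∈ Icc 1 (Y + a * q * s), G2 v a β h j * fr f N ((j : ℕ) + (-((a : ℤ) * q * s))) := by
  classical
  unfold PS G2
  have h1 : Icc 1 (Y + a * q * s) = Icc 1 (a * q * s) ∪ (Icc 1 Y).image (fun n => n + a * q * s) := by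
    ext j
    rw [mem_union, mem_image, mem_Icc, mem_Icc]
    constructor
    · intro hj
      rcases le_or_gt j (a * q * s) with h | h
      · exact Or.inl ⟨hj.1, h⟩
      · refine Or.inr ⟨j - a * q * s, ?_, by omega⟩
        rw [mem_Icc]
        omega
    · rintro (h | ⟨n, hn, rfl⟩)
      · omega
      · rw [mem_Icc] at hn
        omega
  have hz : ∑ x ∈ Icc 1 (a * q * s), (if (a : ℤ) ∣ h + β * (x : ℕ) then v ((h + β * (x : ℕ)) / a) else 0) *
      fr f N ((x : ℕ) + (-((a : ℤ) * q * s))) = 0 := by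
    apply sum_eq_zero
    intro j hj
    rw [mem_Icc] at hj
    have : ((j : ℕ) : ℤ) + (-((a : ℤ) * q * s)) < 1 := by
      have : ((j : ℕ) : ℤ) ≤ (a : ℤ) * q * s := by exact_mod_cast hj.2
      linarith
    rw [fr_of_lt this, mul_zero]
  rw [h1, sum_union, sum_image]
  · rw [hz, zero_add]
    apply sum_congr rfl
    intro n _
    have e1 : (((n + a * q * s : ℕ) : ℕ) : ℤ) + (-((a : ℤ) * q * s)) = (n : ℕ) := by push_cast; ring
    have e2 : h + β * ((n + a * q * s : ℕ) : ℤ) = h + a * β * q * s + β * (n : ℕ) := by push_cast; ring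
    rw [e1, e2]
    split_ifs <;> ring
  · intro x _ y _ hxy
    simpa using hxy
  · rw [disjoint_left]
    intro j hj hj'
    rw [mem_Icc] at hj
    rw [mem_image] at hj'
    obtain ⟨n, hn, rfl⟩ := hj'
    rw [mem_Icc] at hn
    omega

end Pool.Agent.Y883.T5
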