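import Pool.Agent.Y883.T5.Pair

set_option autoImplicit false

/-! For almost all members of a residue class, the number of pairs of primes on a line is the number
predicted by the sieve model. -/

namespace Pool.Agent.Y883.T5

open Finset
open Pool.Agent.H373R2.T7
open Pool.Agent.Y883.T4

lemma lamI_le {N : ℕ} (k : ℤ) (hk : k ≤ N) (hN : 1 ≤ N) : |lamI k| ≤ Real.log N := by
  have hlog : 0 ≤ Real.log N := Real.log_nonneg (by exact_mod_cast hN)
  unfold lamI
  split_ifs with h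
  · rw [abs_of_nonneg ArithmeticFunction.vonMangoldt_nonneg]
    refine ArithmeticFunction.vonMangoldt_le_log.trans ?_
    apply Real.log_le_log
    · exact_mod_cast (by omega : 0 < k.toNat)
    · exact_mod_cast (by omega : k.toNat ≤ N)
  · rw [abs_zero]; exact hlog

lemma lamzI_le {z : ℕ} (k : ℤ) : |lamzI z k| ≤ (Vz z)⁻¹ := by
  have h0 : 0 ≤ (Vz z)⁻¹ := (inv_pos.2 (Vz_pos z)).le
  unfold lamzI lamz
  split_ifs
  · rw [abs_of_nonneg h0]
  · rw [abs_zero]; exact h0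
  · rw [abs_zero]; exact h0

theorem pair_bad (A E : ℕ) : ∃ N₀ : ℕ, ∀ N : ℕ, N₀ ≤ N → ∀ z : ℕ, 1 ≤ z → (z : ℝ) ≤ Real.log N ^ E → ∀ f : ℕ → ℝ,
    (∑ n ∈ Icc 1 N, f n ^ 2 ≤ N * Real.log N ^ 8) →
    (∑ n ∈ Icc 1 N, |(ArithmeticFunction.vonMangoldt n - lamz z n) - f n| ≤ N / Real.log N ^ A) →
    ∀ q : ℕ, 1 ≤ q → 2 * q ≤ N → ¬ BadF f N (4 * A + 20) q →
    ∀ a : ℕ, 1 ≤ a → ∀ β : ℤ, β ≠ 0 → ∀ (Y : ℕ) (h : ℤ),
    (∀ n : ℕ, 1 ≤ n → n ≤ Y → 1 ≤ h + β * (n : ℕ) ∧ h + β * (n : ℕ) ≤ N) →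
    ∀ S : Finset ℕ, (∀ s ∈ S, |β| * q * s ≤ N ∧ Y + a * q * s ≤ N ∧
      ∀ n : ℕ, 1 ≤ n → n ≤ Y → (h + a * β * q * s) + β * (n : ℕ) ≤ N) →
    (∀ s ∈ S, 4 * (Real.log N * (N / Real.log N ^ A)) < |PS lamI lamI a β (h + a * β * q * s) Y -
      PS (lamzI z) (lamzI z) a β (h + a * β * q * s) Y|) →
    (S.card : ℝ) ≤ 8 * (N / (q * Real.log N ^ A)) := by
  classical
  obtain ⟨N₁, h1⟩ := bad_shifts A
  obtain ⟨N₂, h2⟩ := Vz_inv_small E
  obtain ⟨N₃, h3⟩ := ev_L' 2
  refine ⟨N₁ + N₂ + N₃ + 1, fun N hN z hz1 hz2 f hf hfm q hq1 hqN hbad a ha β hβ Y h hY S hS hSb => ?_⟩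
  have c1 := h1 N (by omega) f hf q hq1 hqN hbad
  have c2 := h2 N (by omega) z hz1 hz2
  have hL := h3 N (by omega)
  have hN1 : 1 ≤ N := by omega
  have hN0 : (0 : ℝ) < N := by exact_mod_cast hN1
  obtain ⟨L, hLd⟩ : ∃ L, L = Real.log (N : ℝ) := ⟨_, rfl⟩
  rw [← hLd] at c1 c2 hL hfm hSb ⊢
  have hL0 : 0 < L := by linarith
  have hq0 : (0 : ℤ) < q := by exact_mod_cast hq1
  have ha0 : (0 : ℤ) < a := by exact_mod_cast ha
  obtain ⟨W, hW⟩ : ∃ W, W = (N : ℝ) / L ^ A := ⟨_, rfl⟩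
  have hW0 : 0 ≤ W := by rw [hW]; positivity
  rw [← hW] at c1 hfm hSb
  -- the two sums
  obtain ⟨F1, hF1⟩ : ∃ F1 : ℕ → ℝ, F1 = fun s : ℕ => PS lamI (fr f N) a β (h + a * β * q * s) Y := ⟨_, rfl⟩
  obtain ⟨F2, hF2⟩ : ∃ F2 : ℕ → ℝ, F2 = fun s : ℕ => PS (fr f N) (lamzI z) a β (h + a * β * q * s) Y := ⟨_, rfl⟩
  have hlamU : ∀ n : ℕ, 1 ≤ n → n ≤ Y → Y ≤ N → |lamI (n : ℕ)| ≤ L := by
    intro n _ hn2 hYN
    rw [hLd]
    exact lamI_le _ (by exact_mod_cast hn2.trans hYN) hN1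
  have hzU : ∀ k : ℤ, |lamzI z k| ≤ L := fun k => (lamzI_le k).trans c2
  have herr : ∀ s ∈ S, |PS lamI lamI a β (h + a * β * q * s) Y -
      PS (lamzI z) (lamzI z) a β (h + a * β * q * s) Y| ≤ |F1 s| + |F2 s| + 2 * (L * W) := by
    intro s hs
    obtain ⟨s1, s2, s3⟩ := hS s hs
    have hYN : Y ≤ N := by omega
    obtain ⟨H, hH⟩ : ∃ H, H = h + a * β * q * s := ⟨_, rfl⟩
    rw [← hH] at s3 ⊢
    have e1 : PS lamI lamI a β H Y - PS (lamzI z) (lamzI z) a β H Y =
        PS lamI (fun k => lamI k - lamzI z k) a β H Y + PS (fun k => lamI k - lamzI z k) (lamzI z) a β H Y := by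
      rw [PS_sub_left, PS_sub_right]
      ring
    have e2 : PS lamI (fun k => lamI k - lamzI z k) a β H Y =
        F1 s + PS lamI (fun k => (lamI k - lamzI z k) - fr f N k) a β H Y := by
      rw [PS_sub_right lamI (fun k => lamI k - lamzI z k) (fr f N), hF1]
      simp only
      rw [← hH]
      ring
    have e3 : PS (fun k => lamI k - lamzI z k) (lamzI z) a β H Y =
        F2 s + PS (fun k => (lamI k - lamzI z k) - fr f N k) (lamzI z) a β H Y := by
      rw [PS_sub_left (fun k => lamI k - lamzI z k) (fr f N) (lamzI z), hF2]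
      simp only
      rw [← hH]
      ring
    have hsum : ∑ k ∈ Icc 1 N, |(fun k => (lamI k - lamzI z k) - fr f N k) ((k : ℕ) : ℤ)| ≤ W := by
      refine le_trans (le_of_eq ?_) hfm
      apply sum_congr rfl
      intro k hk
      rw [mem_Icc] at hk
      simp only
      unfold lamI lamzI fr
      rw [if_pos (by exact_mod_cast hk.1), if_pos (by exact_mod_cast hk.1),
        if_pos ⟨by exact_mod_cast hk.1, by exact_mod_cast hk.2⟩, Int.toNat_natCast]
    have e4 : |PS lamI (fun k => (lamI k - lamzI z k) - fr f N k) a β H Y| ≤ L * W := by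
      apply PS_small_right ha hβ hL0.le (fun n hn1 hn2 => hlamU n hn1 hn2 hYN) _ s3 hsum
      intro k hk
      unfold lamI lamzI
      rw [if_neg (by omega), if_neg (by omega), fr_of_lt hk]
      ring
    have e5 : |PS (fun k => (lamI k - lamzI z k) - fr f N k) (lamzI z) a β H Y| ≤ L * W := by
      apply PS_small_left hL0.le hzU
      refine le_trans ?_ hsum
      apply sum_le_sum_of_subset_of_nonneg
      · intro k hk
        rw [mem_Icc] at hk ⊢
        omega
      · intro k _ _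
        exact abs_nonneg _
    rw [e1, e2, e3]
    have t1 := abs_add_le (F1 s + PS lamI (fun k => (lamI k - lamzI z k) - fr f N k) a β H Y)
      (F2 s + PS (fun k => (lamI k - lamzI z k) - fr f N k) (lamzI z) a β H Y)
    have t2 := abs_add_le (F1 s) (PS lamI (fun k => (lamI k - lamzI z k) - fr f N k) a β H Y)
    have t3 := abs_add_le (F2 s) (PS (fun k => (lamI k - lamzI z k) - fr f N k) (lamzI z) a β H Y)
    linarith
  -- the two bad sets
  obtain ⟨S1, hS1⟩ : ∃ S1, S1 = S.filter (fun s => L * W < |F1 s|) := ⟨_, rfl⟩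
  obtain ⟨S2, hS2⟩ : ∃ S2, S2 = S.filter (fun s => L * W < |F2 s|) := ⟨_, rfl⟩
  have hsub : S ⊆ S1 ∪ S2 := by
    intro s hs
    rw [mem_union, hS1, hS2, mem_filter, mem_filter]
    by_contra hcon
    push Not at hcon
    have t1 := hcon.1 hs
    have t2 := hcon.2 hs
    have t3 := hSb s hs
    have t4 := herr s hs
    linarith
  have hc := (card_le_card hsub).trans (card_union_le _ _)
  have hcr : (S.card : ℝ) ≤ S1.card + S2.card := by exact_mod_cast hc
  have hsc : ∀ x : ℝ, ‖((x / L : ℝ) : ℂ)‖ = |x| / L := by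
    intro x
    rw [Complex.norm_real, Real.norm_eq_abs, abs_div, abs_of_pos hL0]
  -- the first
  have hb1 : (S1.card : ℝ) ≤ 4 * (N / (q * L ^ A)) := by
    rcases S1.eq_empty_or_nonempty with h0 | ⟨s0, hs0⟩
    · rw [h0, card_empty, Nat.cast_zero]
      positivity
    have hYN : Y ≤ N := by
      rw [hS1, mem_filter] at hs0
      have := (hS s0 hs0.1).2.1
      omega
    have hinj : Set.InjOn (fun s : ℕ => β * q * (s : ℤ)) (S1 : Set ℕ) := by
      intro x _ y _ hxy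
      have h5 : β * (q : ℤ) ≠ 0 := mul_ne_zero hβ hq0.ne'
      exact_mod_cast mul_left_cancel₀ h5 hxy
    rw [← card_image_of_injOn hinj]
    refine c1 (fun j => ((G1 lamI a β h Y j / L : ℝ) : ℂ)) ?_ 0 _ ?_ ?_
    · intro j
      rw [hsc, div_le_one hL0]
      exact G1_le hβ hL0.le (fun n hn1 hn2 => hlamU n hn1 hn2 hYN) j
    · intro t ht
      rw [mem_image] at ht
      obtain ⟨s, hs, rfl⟩ := ht
      rw [hS1, mem_filter] at hs
      have h6 := (hS s hs.1).1
      have h7 : |β * q * (s : ℤ)| ≤ N := by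
        rw [abs_mul, abs_mul, abs_of_pos hq0, abs_of_nonneg (Int.natCast_nonneg s)]
        exact h6
      rw [abs_le] at h7
      exact ⟨h7.1, h7.2, by rw [sub_zero]; exact ⟨β * s, by ring⟩⟩
    · intro t ht
      rw [mem_image] at ht
      obtain ⟨s, hs, rfl⟩ := ht
      rw [hS1, mem_filter] at hs
      refine ⟨N, le_rfl, ?_⟩
      have h6 : ∑ j ∈ Icc 1 N, ((G1 lamI a β h Y j / L : ℝ) : ℂ) * fz (fun k => ((f k : ℝ) : ℂ)) N ((j : ℤ) + β * q * s) =
          ((F1 s / L : ℝ) : ℂ) := by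
        rw [hF1]
        simp only
        rw [R1 lamI f a ha β h q s Y N hY, sum_div]
        push_cast
        apply sum_congr rfl
        intro j _
        rw [← fr_cast]
        ring
      rw [h6, hsc, lt_div_iff₀ hL0, mul_comm]
      exact hs.2
  -- the second
  have hb2 : (S2.card : ℝ) ≤ 4 * (N / (q * L ^ A)) := by
    have hinj : Set.InjOn (fun s : ℕ => -((a : ℤ) * q * (s : ℤ))) (S2 : Set ℕ) := by
      intro x _ y _ hxy
      have h5 : (a : ℤ) * (q : ℤ) ≠ 0 := mul_ne_zero ha0.ne' hq0.ne'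
      exact_mod_cast mul_left_cancel₀ h5 (neg_injective hxy)
    rw [← card_image_of_injOn hinj]
    refine c1 (fun j => ((G2 (lamzI z) a β h j / L : ℝ) : ℂ)) ?_ 0 _ ?_ ?_
    · intro j
      rw [hsc, div_le_one hL0]
      exact G2_le hL0.le hzU j
    · intro t ht
      rw [mem_image] at ht
      obtain ⟨s, hs, rfl⟩ := ht
      rw [hS2, mem_filter] at hs
      have h6 := (hS s hs.1).2.1
      have h7 : ((a : ℤ) * q * (s : ℤ)) ≤ N := by
        have : a * q * s ≤ N := by omega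
        exact_mod_cast this
      have h8 : (0 : ℤ) ≤ (a : ℤ) * q * (s : ℤ) := by positivity
      exact ⟨by omega, by omega, by rw [sub_zero]; exact ⟨-(a * s), by ring⟩⟩
    · intro t ht
      rw [mem_image] at ht
      obtain ⟨s, hs, rfl⟩ := ht
      rw [hS2, mem_filter] at hs
      refine ⟨Y + a * q * s, (hS s hs.1).2.1, ?_⟩
      have h6 : ∑ j ∈ Icc 1 (Y + a * q * s), ((G2 (lamzI z) a β h j / L : ℝ) : ℂ) *
          fz (fun k => ((f k : ℝ) : ℂ)) N ((j : ℤ) + (-((a : ℤ) * q * s))) = ((F2 s / L : ℝ) : ℂ) := by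
        rw [hF2]
        simp only
        rw [R2 (lamzI z) f a β h q s Y N, sum_div]
        push_cast
        apply sum_congr rfl
        intro j _
        rw [← fr_cast]
        ring
      rw [h6, hsc, lt_div_iff₀ hL0, mul_comm]
      exact hs.2
  linarith

end Pool.Agent.Y883.T5
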