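import Pool.Agent.W93.PP2
import Pool.Agent.Y883.T4.Max

set_option autoImplicit false

/-! The number of primes of a short window in a residue class to a small modulus. -/

namespace Pool.Agent.Y883.T5

open Finset
open Pool.Agent.H373R2.T7
open Pool.Agent.Y883.T3

theorem sw (E U : ℕ) : ∃ N0 : ℕ, ∀ N : ℕ, N0 ≤ N → ∀ M R : ℕ, 1 ≤ M → (M : ℝ) ≤ Real.log N ^ E → R.Coprime M →
    |∑ n ∈ Icc 1 N, (if n ≡ R [MOD M] then ArithmeticFunction.vonMangoldt n else 0) - N / (Nat.totient M : ℝ)| ≤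
      N / Real.log N ^ U := by
  obtain ⟨n1, h1⟩ := Pool.Agent.W93.PP.ap_main E U
  obtain ⟨n2, h2⟩ := ev_L' 1
  refine ⟨n1 + n2, fun N hN M R hM hME hR => ?_⟩
  have hL := h2 N (by omega)
  have c1 := h1 N (by omega) 1 le_rfl (by simpa using one_le_pow₀ hL) M R 0 hM hME hR (by simpa using hR)
  have hpz : pz 1 = ∅ := by
    ext p
    rw [mem_pz]
    simp only [notMem_empty, iff_false, not_and]
    intro h1 h2
    have := h2.two_le
    omega
  have hV : Vz 1 = 1 := by unfold Vz; rw [hpz, prod_empty]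
  have hMT : Pool.Agent.W93.PP.MT 1 M 0 = 1 / (Nat.totient M : ℝ) := by
    unfold Pool.Agent.W93.PP.MT Pool.Agent.W93.PP.PS
    rw [hpz, hV, filter_empty, prod_empty, inv_one, mul_one]
  rw [hMT] at c1
  have e1 : ∑ n ∈ Icc 1 N, (if n ≡ R [MOD M] then ArithmeticFunction.vonMangoldt n else 0) * lamzI 1 ((n : ℤ) + ((0 : ℕ) : ℤ)) =
      ∑ n ∈ Icc 1 N, (if n ≡ R [MOD M] then ArithmeticFunction.vonMangoldt n else 0) := by
    apply sum_congr rfl
    intro n hn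
    rw [mem_Icc] at hn
    have : lamzI 1 ((n : ℤ) + ((0 : ℕ) : ℤ)) = 1 := by
      unfold lamzI lamz
      rw [if_pos (by push_cast; omega), if_pos (by rw [hpz]; simp), hV, inv_one]
    rw [this, mul_one]
  rw [e1] at c1
  rw [div_eq_mul_one_div (N : ℝ) (Nat.totient M : ℝ), mul_comm (N : ℝ) (1 / (Nat.totient M : ℝ))]
  exact c1

theorem prime_count (E : ℕ) : ∃ N0 : ℕ, ∀ R1 : ℕ, N0 ≤ R1 → ∀ R2 : ℕ, R1 ≤ R2 → R2 ≤ 12 * (R2 - R1) → ∀ M R : ℕ,
    1 ≤ M → (M : ℝ) ≤ Real.log R1 ^ E → R.Coprime M →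
    ((R2 : ℝ) - R1) / (4 * M * Real.log R2) ≤
      (((Ioc R1 R2).filter (fun r : ℕ => r.Prime ∧ r ≡ R [MOD M])).card : ℝ) := by
  classical
  obtain ⟨n1, h1⟩ := sw E (E + 1)
  obtain ⟨n2, h2⟩ := ev_L' 96
  obtain ⟨n3, h3⟩ := ev_log_rpow (E + 1) 96 (1 / 2) (by norm_num)
  refine ⟨n1 + n2 + n3 + 2, fun R1 hR1 R2 h12 h12' M R hM hME hR => ?_⟩
  have hL1 := h2 R1 (by omega)
  have hL2 := h2 R2 (by omega)
  have c3 := h3 R2 (by omega)
  have hR10 : (0 : ℝ) < R1 := by exact_mod_cast (by omega : 0 < R1)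
  have hR20 : (0 : ℝ) < R2 := by exact_mod_cast (by omega : 0 < R2)
  have h12r : (R1 : ℝ) ≤ R2 := by exact_mod_cast h12
  have hlog : Real.log R1 ≤ Real.log R2 := Real.log_le_log hR10 h12r
  have hME2 : (M : ℝ) ≤ Real.log R2 ^ E := hME.trans (pow_le_pow_left₀ (by linarith) hlog _)
  have a1 := h1 R1 (by omega) M R hM hME hR
  have a2 := h1 R2 (by omega) M R hM hME2 hR
  obtain ⟨ℓ, hℓ⟩ : ∃ ℓ, ℓ = Real.log R1 := ⟨_, rfl⟩
  obtain ⟨L, hL⟩ : ∃ L, L = Real.log R2 := ⟨_, rfl⟩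
  rw [← hℓ] at hL1 hlog hME a1
  rw [← hL] at hL2 hlog hME2 a2 c3 ⊢
  have hℓ0 : 0 < ℓ := by linarith
  have hL0 : 0 < L := by linarith
  have hM0 : (0 : ℝ) < M := by exact_mod_cast hM
  have hφ1 : (0 : ℝ) < Nat.totient M := by exact_mod_cast Nat.totient_pos.2 hM
  have hφ2 : (Nat.totient M : ℝ) ≤ M := by exact_mod_cast Nat.totient_le M
  obtain ⟨Δ, hΔ⟩ : ∃ Δ : ℝ, Δ = R2 - R1 := ⟨_, rfl⟩
  have hΔR : (R2 : ℝ) ≤ 12 * Δ := by
    rw [hΔ]
    have : ((R2 : ℕ) : ℝ) ≤ ((12 * (R2 - R1) : ℕ) : ℝ) := by exact_mod_cast h12'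
    rw [Nat.cast_mul, Nat.cast_sub h12] at this
    exact_mod_cast this
  have hΔ0 : 0 < Δ := by linarith
  -- the sum over the window
  obtain ⟨w, hw⟩ : ∃ w : ℕ → ℝ, w = fun n => if n ≡ R [MOD M] then ArithmeticFunction.vonMangoldt n else 0 := ⟨_, rfl⟩
  have hsplit : ∑ n ∈ Icc 1 R2, w n = ∑ n ∈ Icc 1 R1, w n + ∑ n ∈ Ioc R1 R2, w n := by
    rw [← sum_union]
    · apply sum_congr _ (fun _ _ => rfl)
      ext n
      rw [mem_union, mem_Icc, mem_Icc, mem_Ioc]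
      omega
    · rw [disjoint_left]
      intro n hn hn'
      rw [mem_Icc] at hn
      rw [mem_Ioc] at hn'
      omega
  have hWsum : Δ / M - Δ / (2 * M) ≤ ∑ n ∈ Ioc R1 R2, w n := by
    have b1 : ∑ n ∈ Icc 1 R1, w n ≤ R1 / (Nat.totient M : ℝ) + R1 / ℓ ^ (E + 1) := by
      rw [hw]; linarith [(abs_le.1 a1).2]
    have b2 : R2 / (Nat.totient M : ℝ) - R2 / L ^ (E + 1) ≤ ∑ n ∈ Icc 1 R2, w n := by
      rw [hw]; linarith [(abs_le.1 a2).1]
    have b3 : (R2 : ℝ) / L ^ (E + 1) ≤ R2 / ℓ ^ (E + 1) :=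
      div_le_div_of_nonneg_left hR20.le (by positivity) (pow_le_pow_left₀ hℓ0.le hlog _)
    have b4 : (R1 : ℝ) / ℓ ^ (E + 1) ≤ R2 / ℓ ^ (E + 1) := div_le_div_of_nonneg_right h12r (by positivity)
    have b5 : 2 * (R2 / ℓ ^ (E + 1)) ≤ Δ / (4 * M) := by
      rw [mul_div_assoc', div_le_div_iff₀ (by positivity) (by positivity)]
      have : 96 * (M : ℝ) ≤ ℓ ^ (E + 1) := by
        calc 96 * (M : ℝ) ≤ ℓ * ℓ ^ E := mul_le_mul hL1 hME hM0.le hℓ0.le
          _ = ℓ ^ (E + 1) := by ring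
      nlinarith
    have b6 : Δ / M ≤ R2 / (Nat.totient M : ℝ) - R1 / (Nat.totient M : ℝ) := by
      rw [← sub_div, ← hΔ]
      exact div_le_div_of_nonneg_left hΔ0.le hφ1 hφ2
    have b7 : Δ / (4 * M) ≤ Δ / (2 * M) := div_le_div_of_nonneg_left hΔ0.le (by positivity) (by linarith)
    linarith
  -- the primes
  obtain ⟨C, hC⟩ : ∃ C, C = (Ioc R1 R2).filter (fun r : ℕ => r.Prime ∧ r ≡ R [MOD M]) := ⟨_, rfl⟩
  rw [← hC, ← hΔ]
  have hup : ∑ n ∈ Ioc R1 R2, w n ≤ C.card * L + 2 * √(R2 : ℝ) * L := by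
    have e1 : ∀ n ∈ Ioc R1 R2, w n ≤ (if n.Prime ∧ n ≡ R [MOD M] then L else 0) +
        (if ¬ n.Prime then ArithmeticFunction.vonMangoldt n else 0) := by
      intro n hn
      rw [mem_Ioc] at hn
      have h0 : (0 : ℝ) ≤ ArithmeticFunction.vonMangoldt n := ArithmeticFunction.vonMangoldt_nonneg
      have hle : ArithmeticFunction.vonMangoldt n ≤ L := by
        rw [hL]
        refine ArithmeticFunction.vonMangoldt_le_log.trans ?_
        exact Real.log_le_log (by exact_mod_cast (by omega : 0 < n)) (by exact_mod_cast hn.2)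
      rw [hw]
      simp only
      by_cases c1 : n.Prime <;> by_cases c2 : n ≡ R [MOD M] <;> simp [c1, c2] <;> linarith
    refine (sum_le_sum e1).trans ?_
    rw [sum_add_distrib, ← sum_filter, sum_const, nsmul_eq_mul, ← hC]
    have h5 := Chebyshev.psi_sub_theta_le (x := (R2 : ℝ)) (by exact_mod_cast (by omega : 1 ≤ R2))
    rw [Chebyshev.psi_sub_theta_eq_sum_not_prime, Nat.floor_natCast, sum_filter, ← hL] at h5
    have h6 : ∑ n ∈ Ioc R1 R2, (if ¬ n.Prime then ArithmeticFunction.vonMangoldt n else 0) ≤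
        ∑ n ∈ Ioc 0 R2, (if ¬ n.Prime then ArithmeticFunction.vonMangoldt n else 0) := by
      apply sum_le_sum_of_subset_of_nonneg
      · intro n hn
        rw [mem_Ioc] at hn ⊢
        omega
      · intro n _ _
        split_ifs
        · exact le_rfl
        · exact ArithmeticFunction.vonMangoldt_nonneg
    linarith
  have hsq : 2 * √(R2 : ℝ) * L ≤ Δ / (4 * M) := by
    rw [le_div_iff₀ (by positivity)]
    have hs : √(R2 : ℝ) * √(R2 : ℝ) = R2 := Real.mul_self_sqrt hR20.le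
    have e2 : 96 * L ^ (E + 1) ≤ √(R2 : ℝ) := by
      rw [Real.sqrt_eq_rpow]
      exact c3
    have e3 : L * M ≤ L ^ (E + 1) := by
      calc L * M ≤ L * L ^ E := mul_le_mul_of_nonneg_left hME2 hL0.le
        _ = L ^ (E + 1) := by ring
    calc 2 * √(R2 : ℝ) * L * (4 * M) = √(R2 : ℝ) * (8 * (L * M)) := by ring
      _ ≤ √(R2 : ℝ) * (8 * L ^ (E + 1)) := by gcongr
      _ ≤ √(R2 : ℝ) * (√(R2 : ℝ) / 12) := by
          apply mul_le_mul_of_nonneg_left _ (Real.sqrt_nonneg _)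
          linarith
      _ = R2 / 12 := by rw [mul_div_assoc', hs]
      _ ≤ Δ := by linarith
  rw [div_le_iff₀ (by positivity)]
  have e5 : Δ / M - Δ / (2 * M) = 2 * (Δ / (4 * M)) := by field_simp; ring
  have e6 : Δ / (4 * M) ≤ C.card * L := by linarith
  rw [div_le_iff₀ (by positivity)] at e6
  nlinarith

end Pool.Agent.Y883.T5
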