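import Pool.Agent.Y883.T5.Solve
import Pool.Agent.Y883.T4.Main
import Pool.Agent.Y883.T3.Mod

set_option autoImplicit false

/-! Linear equations in three primes with one large coefficient: the moduli of one scale. -/

namespace Pool.Agent.Y883.T5

open Finset
open Pool.Agent.H373R2.T7
open Pool.Agent.Y883.T3
open Pool.Agent.Y883.T4

/-- all admissible equations `a p + b n = d + q r` with small `a`, `b` have solutions at the scale `N` -/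
def Solv (N T q : ℕ) : Prop := ∀ (a₀ b₀ d : ℤ) (X : ℕ), 8 * X ≤ N → N ≤ 16 * X → |d| ≤ X → 0 < a₀ → b₀ ≠ 0 →
    (a₀ : ℝ) ≤ Real.log N ^ T → ((b₀.natAbs : ℕ) : ℝ) ≤ Real.log N ^ T → Adm a₀ b₀ q d →
    ∃ p n r : ℕ, p.Prime ∧ n.Prime ∧ r.Prime ∧ a₀ * p + b₀ * n = d + q * r ∧ p ≤ 3 * X ∧ n ≤ 3 * X ∧ r ≤ 3 * X

theorem scale (T B : ℕ) (ρ : ℝ) (hρ : 0 < ρ) : ∃ N₀ : ℕ, ∀ N : ℕ, N₀ ≤ N → ∃ D : Finset ℕ,
    (∀ d ∈ D, Real.log N ^ B < (d : ℝ)) ∧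
    (∀ X : ℝ, 1 ≤ X → ((D.filter (fun d : ℕ => (d : ℝ) ≤ X)).card : ℝ) ≤ X ^ ρ) ∧
    ∀ q : ℕ, 1 ≤ q → (q : ℝ) ≤ (N : ℝ) ^ (2 / 3 - ρ) → (∀ d ∈ D, ¬ d ∣ q) → Solv N T q := by
  classical
  obtain ⟨A, hA⟩ : ∃ A, A = 4 * T + 10 + B := ⟨_, rfl⟩
  obtain ⟨A₁, hA₁⟩ : ∃ A₁, A₁ = 4 * A + 20 := ⟨_, rfl⟩
  obtain ⟨c₁, U₁, N₁, h1⟩ := mainW ρ hρ A₁
  obtain ⟨U', hU'⟩ : ∃ U', U' = max U₁ A := ⟨_, rfl⟩
  obtain ⟨B₀, hB₀⟩ := model U'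
  obtain ⟨E, hE⟩ : ∃ E, E = B₀ + 1 := ⟨_, rfl⟩
  obtain ⟨N₃, h3⟩ := hB₀ E
  obtain ⟨N₄, h4⟩ := solve T E A (by omega)
  obtain ⟨N₅, h5⟩ := ev_L' 2
  refine ⟨N₁ + N₃ + N₄ + N₅ + 1, fun N hN => ?_⟩
  have hL := h5 N (by omega)
  have hN0 : (0 : ℝ) < N := by exact_mod_cast (by omega : 0 < N)
  have hN1r : (1 : ℝ) ≤ N := by exact_mod_cast (by omega : 1 ≤ N)
  have f3 := h3 N (by omega)
  have f4 := h4 N (by omega)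
  obtain ⟨L, hLd⟩ : ∃ L, L = Real.log (N : ℝ) := ⟨_, rfl⟩
  rw [← hLd] at hL f3 f4 ⊢
  have hL0 : 0 < L := by linarith
  have hL1 : 1 ≤ L := by linarith
  obtain ⟨z, hz⟩ : ∃ z, z = ⌈L ^ B₀⌉₊ := ⟨_, rfl⟩
  have hzlo : L ^ B₀ ≤ z := by rw [hz]; exact Nat.le_ceil _
  have hL1E : 1 ≤ L ^ B₀ := one_le_pow₀ hL1
  have hz1 : 1 ≤ z := by
    have : (1 : ℝ) ≤ z := hL1E.trans hzlo
    exact_mod_cast this
  have hzhi : (z : ℝ) ≤ L ^ E := by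
    have := Nat.ceil_lt_add_one (show 0 ≤ L ^ B₀ by positivity)
    rw [← hz] at this
    calc (z : ℝ) ≤ L ^ B₀ + 1 := this.le
      _ ≤ L ^ B₀ + L ^ B₀ := by linarith
      _ = 2 * L ^ B₀ := by ring
      _ ≤ L * L ^ B₀ := mul_le_mul_of_nonneg_right hL (by positivity)
      _ = L ^ E := by rw [hE]; ring
  obtain ⟨f, hf1, hf2, hf3, hf4⟩ := f3 z hzlo hzhi
  have hU1 : L ^ U₁ ≤ L ^ U' := pow_le_pow_right₀ hL1 (by rw [hU']; exact le_max_left _ _)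
  have hU2 : L ^ A ≤ L ^ U' := pow_le_pow_right₀ hL1 (by rw [hU']; exact le_max_right _ _)
  have hFM : FM f N U₁ := by
    refine ⟨by rw [← hLd]; exact hf2, ?_, by rw [← hLd]; exact hf4⟩
    intro α
    rw [← hLd]
    exact (hf3 α).trans (div_le_div_of_nonneg_left hN0.le (by positivity) hU1)
  have hf1' : ∑ n ∈ Icc 1 N, |(ArithmeticFunction.vonMangoldt n - lamz z n) - f n| ≤ N / L ^ A :=
    hf1.trans (div_le_div_of_nonneg_left hN0.le (by positivity) hU2)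
  obtain ⟨D, hD1, hD2, hD3, -⟩ := h1 N (by omega) f hFM
  rw [← hLd] at hD1
  refine ⟨D, ?_, hD2, ?_⟩
  · intro d hd
    refine lt_of_le_of_lt ?_ (hD1 d hd)
    exact pow_le_pow_right₀ hL1 (by omega)
  · intro q hq1 hq2 hq3
    have hq4 := hD3 q hq1 hq2 hq3
    rw [hA₁] at hq4
    intro a₀ b₀ d X hX1 hX2 hd ha hb haT hbT hadm
    rw [← hLd] at haT hbT
    refine f4 z hz1 hzhi f hf2 hf1' q hq1 ?_ hq4 a₀ b₀ d X hX1 hX2 hd ha hb haT hbT hadm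
    exact hq2.trans (Real.rpow_le_rpow_of_exponent_le hN1r (by linarith))

end Pool.Agent.Y883.T5
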