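import Pool.Agent.Y883.T4.Max

set_option autoImplicit false

/-! The bad shifts in a residue class, positive and negative. -/

namespace Pool.Agent.Y883.T5

open Finset
open Pool.Agent.H373R2.T7 (fz ev_L')
open Pool.Agent.Y883.T4

theorem bad_shifts (A : ℕ) : ∃ N₀ : ℕ, ∀ N : ℕ, N₀ ≤ N → ∀ f : ℕ → ℝ,
    (∑ n ∈ Icc 1 N, f n ^ 2 ≤ N * Real.log N ^ 8) → ∀ q : ℕ, 1 ≤ q → 2 * q ≤ N → ¬ BadF f N (4 * A + 20) q →
    ∀ G : ℕ → ℂ, (∀ a, ‖G a‖ ≤ 1) → ∀ t0 : ℤ, ∀ S : Finset ℤ,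
    (∀ t ∈ S, -(N : ℤ) ≤ t ∧ t ≤ N ∧ (q : ℤ) ∣ t - t0) →
    (∀ t ∈ S, ∃ y ≤ N, (N : ℝ) / Real.log N ^ A <
      ‖∑ a ∈ Icc 1 y, G a * fz (fun k => ((f k : ℝ) : ℂ)) N ((a : ℤ) + t)‖) →
    (S.card : ℝ) ≤ 4 * (N / (q * Real.log N ^ A)) := by
  classical
  obtain ⟨N₁, h1⟩ := max_of_not_bad A 0
  refine ⟨N₁ + 1, fun N hN f hf q hq1 hqN hbad G hG t0 S hS hSb => ?_⟩
  have c1 := h1 N (by omega) f hf q hq1 (by omega) (by simpa using hbad)
  have hq0 : (0 : ℤ) < q := by exact_mod_cast hq1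
  obtain ⟨s0, hs0⟩ : ∃ s0, s0 = t0 % (q : ℤ) := ⟨_, rfl⟩
  have hs1 : 0 ≤ s0 := by rw [hs0]; exact Int.emod_nonneg _ hq0.ne'
  have hs2 : s0 < q := by rw [hs0]; exact Int.emod_lt_of_pos _ hq0
  obtain ⟨K, hK⟩ : ∃ K, K = N / q := ⟨_, rfl⟩
  have hK1 : 1 ≤ K := by rw [hK]; exact Nat.div_pos (by omega) hq1
  have hKN : (q : ℤ) * K ≤ N := by
    have : q * K ≤ N := by rw [hK]; exact Nat.mul_div_le N q
    exact_mod_cast this
  have hKN' : (N : ℤ) < q * (K + 1) := by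
    have : N < q * (K + 1) := by rw [hK]; exact Nat.lt_mul_div_succ N hq1
    exact_mod_cast this
  rw [← hK] at c1
  obtain ⟨P, hP⟩ : ∃ P : ℤ → Prop, P = fun t => ∃ y ≤ N, (N : ℝ) / Real.log N ^ A <
      ‖∑ a ∈ Icc 1 y, G a * fz (fun k => ((f k : ℝ) : ℂ)) N ((a : ℤ) + t)‖ := ⟨_, rfl⟩
  obtain ⟨Bk, hBk⟩ : ∃ Bk : ℤ → Finset ℕ, Bk = fun κ => (Icc 1 K).filter
      (fun m : ℕ => P ((q : ℤ) * m + (s0 + q * κ))) := ⟨_, rfl⟩
  have hcard : ∀ κ : ℤ, -((K : ℤ) + 2) ≤ κ → κ ≤ 0 → ((Bk κ).card : ℝ) ≤ N / (q * Real.log N ^ A) := by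
    intro κ hκ1 hκ2
    have b1 : -(2 * (N : ℤ)) ≤ s0 + q * κ := by
      have : (q : ℤ) * κ ≥ q * (-((K : ℤ) + 2)) := mul_le_mul_of_nonneg_left hκ1 hq0.le
      have h2 : (2 : ℤ) * q ≤ N := by exact_mod_cast hqN
      nlinarith
    have b2 : s0 + q * κ ≤ (N : ℤ) := by
      have : (q : ℤ) * κ ≤ 0 := mul_nonpos_of_nonneg_of_nonpos hq0.le hκ2
      have h2 : (2 : ℤ) * q ≤ N := by exact_mod_cast hqN
      linarith
    have c2 := c1 (s0 + q * κ) b1 b2 1 (by simp) (fun _ => G) (fun _ _ => hG)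
    refine le_trans ?_ c2
    exact_mod_cast card_le_card (by
      intro m hm
      rw [hBk, mem_filter, hP] at hm
      rw [mem_filter]
      exact ⟨hm.1, 0, by norm_num, hm.2⟩)
  have hsub : S ⊆ ((Bk (-((K : ℤ) + 2))).image (fun m : ℕ => (q : ℤ) * m + (s0 + q * (-((K : ℤ) + 2)))) ∪
      (Bk (-2)).image (fun m : ℕ => (q : ℤ) * m + (s0 + q * (-2)))) ∪
      ((Bk (-1)).image (fun m : ℕ => (q : ℤ) * m + (s0 + q * (-1))) ∪
      (Bk 0).image (fun m : ℕ => (q : ℤ) * m + (s0 + q * 0))) := by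
    intro t ht
    obtain ⟨d1, d2, d3⟩ := hS t ht
    have d4 : P t := by rw [hP]; exact hSb t ht
    have d5 : (q : ℤ) ∣ t - s0 := by
      have : (q : ℤ) ∣ t0 - s0 := by rw [hs0]; exact Int.dvd_self_sub_emod
      have h3 := dvd_add d3 this
      rwa [sub_add_sub_cancel] at h3
    obtain ⟨k, hk⟩ := d5
    have hk' : t = s0 + q * k := by linarith
    have k1 : -((K : ℤ) + 2) < k := by
      by_contra hcon
      push Not at hcon
      have : (q : ℤ) * k ≤ q * (-((K : ℤ) + 2)) := mul_le_mul_of_nonneg_left hcon hq0.le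
      nlinarith
    have k2 : k < K + 1 := by
      by_contra hcon
      push Not at hcon
      have : (q : ℤ) * (K + 1) ≤ q * k := mul_le_mul_of_nonneg_left hcon hq0.le
      nlinarith
    have key : ∀ κ : ℤ, κ + 1 ≤ k → k ≤ κ + K →
        t ∈ (Bk κ).image (fun m : ℕ => (q : ℤ) * m + (s0 + q * κ)) := by
      intro κ e1 e2
      rw [mem_image]
      have e3 : (((k - κ).toNat : ℕ) : ℤ) = k - κ := Int.toNat_of_nonneg (by omega)
      refine ⟨(k - κ).toNat, ?_, ?_⟩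
      · rw [hBk, mem_filter, mem_Icc]
        refine ⟨⟨by omega, by omega⟩, ?_⟩
        rw [e3]
        have e4 : (q : ℤ) * (k - κ) + (s0 + q * κ) = t := by rw [hk']; ring
        rw [e4]
        exact d4
      · rw [e3, hk']
        ring
    rw [mem_union, mem_union, mem_union]
    rcases lt_or_ge k (-1) with e | e
    · left; left
      exact key _ (by omega) (by omega)
    · rcases eq_or_lt_of_le e with e | e
      · left; right
        exact key _ (by omega) (by omega)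
      · rcases eq_or_ne k 0 with e' | e'
        · right; left
          exact key _ (by omega) (by omega)
        · right; right
          exact key _ (by omega) (by omega)
  have hc := (card_le_card hsub).trans (card_union_le _ _)
  have hc1 := card_union_le ((Bk (-((K : ℤ) + 2))).image (fun m : ℕ => (q : ℤ) * m + (s0 + q * (-((K : ℤ) + 2)))))
      ((Bk (-2)).image (fun m : ℕ => (q : ℤ) * m + (s0 + q * (-2))))
  have hc2 := card_union_le ((Bk (-1)).image (fun m : ℕ => (q : ℤ) * m + (s0 + q * (-1))))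
      ((Bk 0).image (fun m : ℕ => (q : ℤ) * m + (s0 + q * 0)))
  have i1 := card_image_le (s := Bk (-((K : ℤ) + 2))) (f := fun m : ℕ => (q : ℤ) * m + (s0 + q * (-((K : ℤ) + 2))))
  have i2 := card_image_le (s := Bk (-2)) (f := fun m : ℕ => (q : ℤ) * m + (s0 + q * (-2)))
  have i3 := card_image_le (s := Bk (-1)) (f := fun m : ℕ => (q : ℤ) * m + (s0 + q * (-1)))
  have i4 := card_image_le (s := Bk 0) (f := fun m : ℕ => (q : ℤ) * m + (s0 + q * 0))
  have j1 := hcard (-((K : ℤ) + 2)) le_rfl (by omega)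
  have j2 := hcard (-2) (by omega) (by omega)
  have j3 := hcard (-1) (by omega) (by omega)
  have j4 := hcard 0 (by omega) (by omega)
  have hfin : (S.card : ℝ) ≤ (Bk (-((K : ℤ) + 2))).card + (Bk (-2)).card + ((Bk (-1)).card + (Bk 0).card) := by
    exact_mod_cast (by omega : S.card ≤ (Bk (-((K : ℤ) + 2))).card + (Bk (-2)).card + ((Bk (-1)).card + (Bk 0).card))
  linarith

end Pool.Agent.Y883.T5
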