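import Pool.Agent.Y883.T5.MainLow
import Pool.Agent.Y883.T5.Exist
import Pool.Agent.Y883.T5.Loc
import Pool.Agent.Y883.T5.Num

set_option autoImplicit false

/-! Linear equations in three primes with one large coefficient: one scale. -/

namespace Pool.Agent.Y883.T5

open Finset
open Pool.Agent.H373R2.T7
open Pool.Agent.Y883.T3
open Pool.Agent.Y883.T4

/-- the conditions on the coefficients at the primes -/
structure Adm (a b q d : ℤ) : Prop where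
  h1 : ∀ p : ℕ, p.Prime → ¬ ((p : ℤ) ∣ a ∧ (p : ℤ) ∣ b ∧ (p : ℤ) ∣ q)
  h2 : ∀ p : ℕ, p.Prime → ¬ ((p : ℤ) ∣ d ∧ (p : ℤ) ∣ a ∧ (p : ℤ) ∣ b)
  h3 : ∀ p : ℕ, p.Prime → ¬ ((p : ℤ) ∣ d ∧ (p : ℤ) ∣ a ∧ (p : ℤ) ∣ q)
  h4 : ∀ p : ℕ, p.Prime → ¬ ((p : ℤ) ∣ d ∧ (p : ℤ) ∣ b ∧ (p : ℤ) ∣ q)
  par : (2 : ℤ) ∣ a + b - q - d

lemma exists_base (C : Finset ℕ) (hC : C.Nonempty) (β : ℤ) : ∃ r0 ∈ C, ∀ r ∈ C, 0 ≤ β * ((r : ℤ) - r0) := by
  rcases le_or_gt 0 β with h | h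
  · obtain ⟨r0, h1, h2⟩ := exists_min_image C (fun r => r) hC
    refine ⟨r0, h1, fun r hr => mul_nonneg h ?_⟩
    have : ((r0 : ℕ) : ℤ) ≤ r := by exact_mod_cast h2 r hr
    linarith
  · obtain ⟨r0, h1, h2⟩ := exists_max_image C (fun r => r) hC
    refine ⟨r0, h1, fun r hr => mul_nonneg_of_nonpos_of_nonpos h.le ?_⟩
    have : ((r : ℕ) : ℤ) ≤ r0 := by exact_mod_cast h2 r hr
    linarith

/-- the difference of two shifts -/
lemma shift_diff {g a q : ℕ} {β d h h0 r r0 k : ℤ} (hg : 1 ≤ g) (ha : 1 ≤ a) (hβ0 : β ≠ 0)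
    (e1 : d + q * r = g * h) (e0 : d + q * r0 = g * h0) (hk : r - r0 = (g * a * |β|) * k) (hs : 0 ≤ β * (r - r0)) :
    h = h0 + a * β * q * (k.natAbs : ℕ) ∧ ((g : ℤ) * a * |β|) * (k.natAbs : ℕ) = |r - r0| := by
  have hg0 : (0 : ℤ) < g := by exact_mod_cast hg
  have ha0 : (0 : ℤ) < a := by exact_mod_cast ha
  have hpos : (0 : ℤ) < g * a * |β| := by
    have := abs_pos.2 hβ0
    positivity
  have hβk : 0 ≤ β * k := by
    rw [hk] at hs
    have e : β * ((g * a * |β|) * k) = (g * a * |β|) * (β * k) := by ring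
    rw [e] at hs
    exact (mul_nonneg_iff_of_pos_left hpos).1 hs
  constructor
  · have e3 : |β| * k = β * |k| := by
      rcases lt_or_gt_of_ne hβ0 with h | h
      · have h6 : k ≤ 0 := by
          by_contra hcon
          push Not at hcon
          have := mul_neg_of_neg_of_pos h hcon
          linarith
        rw [abs_of_neg h, abs_of_nonpos h6]
        ring
      · have h6 : 0 ≤ k := by
          by_contra hcon
          push Not at hcon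
          have := mul_neg_of_pos_of_neg h hcon
          linarith
        rw [abs_of_pos h, abs_of_nonneg h6]
    have e4 : ((k.natAbs : ℕ) : ℤ) = |k| := Int.natCast_natAbs k
    have e5 : (q : ℤ) * (r - r0) = g * h - g * h0 := by linarith
    rw [hk] at e5
    have e2 : (g : ℤ) * h = g * (h0 + a * β * q * (k.natAbs : ℕ)) := by
      rw [e4]
      calc (g : ℤ) * h = g * h0 + q * ((g * a * |β|) * k) := by linarith
        _ = g * h0 + g * (a * q * (|β| * k)) := by ring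
        _ = _ := by rw [e3]; ring
    exact mul_left_cancel₀ hg0.ne' e2
  · rw [Int.natCast_natAbs, hk, abs_mul, abs_of_pos hpos]

/-- the sizes of the values of the form -/
lemma sizes {g : ℕ} {X b₀ β d h q r n N a₀ a : ℤ} (hg : 1 ≤ g) (hX : 0 < X) (hXN : 8 * X ≤ N) (hd : |d| ≤ X)
    (hgβ : (g : ℤ) * β = -b₀) (e1 : d + q * r = g * h) (w1 : 5 * X < 4 * (q * r)) (w2 : 2 * (q * r) ≤ 3 * X)
    (hbn : 8 * |b₀ * n| ≤ X) (ha : (g : ℤ) * a = a₀) (ha8 : 8 * a₀ ≤ X) :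
    1 ≤ h + β * n ∧ h + β * n ≤ N ∧ a ≤ h + β * n ∧ g * (h + β * n) ≤ 3 * X ∧ g * (h + β * n) = d + q * r - b₀ * n := by
  have hg0 : (0 : ℤ) < g := by exact_mod_cast hg
  have e2 : (g : ℤ) * (h + β * n) = d + q * r - b₀ * n := by
    calc (g : ℤ) * (h + β * n) = g * h + (g * β) * n := by ring
      _ = _ := by rw [← e1, hgβ]; ring
  have e3 := abs_le.1 (show |b₀ * n| ≤ |b₀ * n| from le_rfl)
  have e5 := abs_le.1 hd
  have f1 : X ≤ 8 * (g * (h + β * n)) := by rw [e2]; linarith [e3.1, e3.2, e5.1, e5.2]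
  have f2 : 8 * (g * (h + β * n)) ≤ 24 * X := by rw [e2]; linarith [e3.1, e3.2, e5.1, e5.2]
  have f3 : 0 < h + β * n := by
    by_contra hcon
    push Not at hcon
    have : (g : ℤ) * (h + β * n) ≤ 0 := mul_nonpos_of_nonneg_of_nonpos hg0.le hcon
    linarith
  have f4 : h + β * n ≤ g * (h + β * n) := le_mul_of_one_le_left f3.le (by exact_mod_cast hg)
  refine ⟨by omega, by linarith, ?_, by linarith, e2⟩
  have : (g : ℤ) * a ≤ g * (h + β * n) := by linarith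
  exact le_of_mul_le_mul_left this hg0

lemma sizes2 {g a q s : ℕ} {β δ X : ℤ} (hg : 1 ≤ g) (ha : 1 ≤ a) (hβ0 : β ≠ 0)
    (e1 : ((g : ℤ) * a * |β|) * s = |δ|) (e2 : (q : ℤ) * |δ| ≤ 2 * X) :
    |β| * q * s ≤ 2 * X ∧ (a : ℤ) * q * s ≤ 2 * X := by
  rw [← e1] at e2
  have hβ1 : (1 : ℤ) ≤ |β| := Int.one_le_abs hβ0
  have hg1' : (1 : ℤ) ≤ g := by exact_mod_cast hg
  have ha1' : (1 : ℤ) ≤ a := by exact_mod_cast ha
  have hs0 : (0 : ℤ) ≤ (q : ℤ) * s := by positivity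
  have hga : (1 : ℤ) ≤ g * a := one_le_mul_of_one_le_of_one_le hg1' ha1'
  have hgb : (1 : ℤ) ≤ g * |β| := one_le_mul_of_one_le_of_one_le hg1' hβ1
  constructor
  · refine le_trans ?_ e2
    calc |β| * q * s = 1 * (|β| * (q * s)) := by ring
      _ ≤ (g * a) * (|β| * (q * s)) := mul_le_mul_of_nonneg_right hga (by positivity)
      _ = _ := by ring
  · refine le_trans ?_ e2
    calc (a : ℤ) * q * s = 1 * (a * (q * s)) := by ring
      _ ≤ (g * |β|) * (a * (q * s)) := mul_le_mul_of_nonneg_right hgb (by positivity)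
      _ = _ := by ring

theorem solve (T E A : ℕ) (hA : 4 * T + 10 ≤ A) : ∃ N₀ : ℕ, ∀ N : ℕ, N₀ ≤ N → ∀ z : ℕ, 1 ≤ z →
    (z : ℝ) ≤ Real.log N ^ E → ∀ f : ℕ → ℝ, (∑ n ∈ Icc 1 N, f n ^ 2 ≤ N * Real.log N ^ 8) →
    (∑ n ∈ Icc 1 N, |(ArithmeticFunction.vonMangoldt n - lamz z n) - f n| ≤ N / Real.log N ^ A) →
    ∀ q : ℕ, 1 ≤ q → (q : ℝ) ≤ (N : ℝ) ^ (2 / 3 : ℝ) → ¬ BadF f N (4 * A + 20) q →
    ∀ (a₀ b₀ d : ℤ) (X : ℕ), 8 * X ≤ N → N ≤ 16 * X → |d| ≤ X → 0 < a₀ → b₀ ≠ 0 →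
    (a₀ : ℝ) ≤ Real.log N ^ T → ((b₀.natAbs : ℕ) : ℝ) ≤ Real.log N ^ T → Adm a₀ b₀ q d →
    ∃ p n r : ℕ, p.Prime ∧ n.Prime ∧ r.Prime ∧ a₀ * p + b₀ * n = d + q * r ∧ p ≤ 3 * X ∧ n ≤ 3 * X ∧ r ≤ 3 * X := by
  classical
  obtain ⟨N₁, h1⟩ := pair_bad A E
  obtain ⟨N₂, h2⟩ := main_low E
  obtain ⟨N₃, h3⟩ := window T A hA
  obtain ⟨N₄, h4⟩ := main_size T A hA
  obtain ⟨N₅, h5⟩ := ev_log_rpow 0 4 (1 / 3) (by norm_num)
  refine ⟨N₁ + N₂ + N₃ + N₄ + N₅, fun N hN z hz1 hz2 f hf hfm q hq1 hqN hbad a₀ b₀ d X hX1 hX2 hd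
    ha₀ hb₀ haT hbT hadm => ?_⟩
  have c1 := h1 N (by omega) z hz1 hz2 f hf hfm q hq1
  have c2 := h2 N (by omega) z hz1 hz2
  have c3 := h3 N (by omega) q hq1 hqN X hX1 hX2
  obtain ⟨hN1, hN128, c4⟩ := h4 N (by omega)
  have c5 := h5 N (by omega)
  clear h1 h2 h3 h4 h5 hN hz2 hf hfm
  have hN0 : (0 : ℝ) < N := by exact_mod_cast hN1
  have h2q : 2 * q ≤ N := by
    rw [pow_zero, mul_one] at c5
    have : (q : ℝ) * 4 ≤ N := by
      calc (q : ℝ) * 4 ≤ (N : ℝ) ^ (2 / 3 : ℝ) * (N : ℝ) ^ (1 / 3 : ℝ) :=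
            mul_le_mul hqN c5 (by norm_num) (by positivity)
        _ = N := by rw [← Real.rpow_add hN0]; norm_num
    have h' : q * 4 ≤ N := by exact_mod_cast this
    omega
  clear c5 hqN
  obtain ⟨L, hLd⟩ : ∃ L, L = Real.log (N : ℝ) := ⟨_, rfl⟩
  rw [← hLd] at c1 c2 c3 c4 haT hbT hN128
  have hX0 : 0 < X := by omega
  have hX16 : (N : ℝ) ≤ 16 * X := by exact_mod_cast hX2
  -- the coefficients
  obtain ⟨g, hg⟩ : ∃ g, g = Int.gcd a₀ b₀ := ⟨_, rfl⟩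
  have hg1 : 1 ≤ g := by rw [hg]; exact Int.gcd_pos_of_ne_zero_left _ ha₀.ne'
  obtain ⟨a', b, hab, ha', hb⟩ := Int.exists_gcd_one (by rw [← hg]; exact hg1 : 0 < Int.gcd a₀ b₀)
  rw [← hg] at ha' hb
  have hg0 : (0 : ℤ) < g := by exact_mod_cast hg1
  have ha'0 : 0 < a' := by
    by_contra hcon
    push Not at hcon
    have : a' * g ≤ 0 := mul_nonpos_of_nonpos_of_nonneg hcon hg0.le
    omega
  obtain ⟨a, ha⟩ : ∃ a : ℕ, (a : ℤ) = a' := ⟨a'.toNat, Int.toNat_of_nonneg ha'0.le⟩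
  rw [← ha] at ha' hab ha'0
  clear ha
  have ha1 : 1 ≤ a := by exact_mod_cast ha'0
  have hb0 : b ≠ 0 := by
    intro h
    rw [h, zero_mul] at hb
    exact hb₀ hb
  have hcop : IsCoprime (a : ℤ) b := Int.isCoprime_iff_gcd_eq_one.2 hab
  have haβ : (a : ℤ) ≠ 0 := ha'0.ne'
  have ea₀ : (g : ℤ) * a = a₀ := by rw [ha', mul_comm]
  have eb₀ : (g : ℤ) * b = b₀ := by rw [hb, mul_comm]
  clear ha' hb hg
  obtain ⟨M, R, hM1, hM2, hM3, hRM, hloc⟩ := loc_class g hg1 a b q d haβ hb0 hcop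
    (by rw [ea₀, eb₀]; exact hadm.h1) (by rw [ea₀, eb₀]; exact hadm.h2) (by rw [ea₀]; exact hadm.h3)
    (by rw [eb₀]; exact hadm.h4) (by rw [ea₀, eb₀]; exact hadm.par)
  rw [Int.natAbs_natCast] at hM2 hM3
  -- the size of the modulus
  have hgab : ((g * a * b.natAbs : ℕ) : ℝ) ≤ L ^ (2 * T) := by
    have e1 : ((g * a : ℕ) : ℝ) = a₀ := by rw [← ea₀]; push_cast; ring
    have e2 : b.natAbs ≤ b₀.natAbs := by
      rw [← eb₀, Int.natAbs_mul, Int.natAbs_natCast]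
      exact Nat.le_mul_of_pos_left _ hg1
    have e3 : ((b.natAbs : ℕ) : ℝ) ≤ L ^ T := le_trans (by exact_mod_cast e2) hbT
    have e4 : (0 : ℝ) ≤ L ^ T := le_trans (Nat.cast_nonneg _) hbT
    calc ((g * a * b.natAbs : ℕ) : ℝ) = ((g * a : ℕ) : ℝ) * (b.natAbs : ℕ) := by push_cast; ring
      _ ≤ L ^ T * L ^ T := mul_le_mul (by rw [e1]; exact haT) e3 (by positivity) e4
      _ = L ^ (2 * T) := by rw [← pow_add]; ring_nf
  have hMr : (M : ℝ) ≤ 2 * L ^ (4 * T) := by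
    calc (M : ℝ) ≤ ((2 * (g * a * b.natAbs) ^ 2 : ℕ) : ℝ) := by exact_mod_cast hM2
      _ = 2 * ((g * a * b.natAbs : ℕ) : ℝ) ^ 2 := by push_cast; ring
      _ ≤ 2 * (L ^ (2 * T)) ^ 2 := by gcongr
      _ = 2 * L ^ (4 * T) := by rw [← pow_mul]; ring_nf
  obtain ⟨C, hC, hCbig⟩ := c3 M R hM1 hMr hRM
  clear c3 hMr hgab hM2
  have hCne : C.Nonempty := by
    rw [nonempty_iff_ne_empty]
    intro h0
    rw [h0, card_empty, Nat.cast_zero] at hCbig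
    have hL0 : 0 ≤ L := by rw [hLd]; exact Real.log_nonneg (by exact_mod_cast hN1)
    have : 0 ≤ 8 * ((N : ℝ) / (q * L ^ A)) := by positivity
    linarith
  -- the shifts
  obtain ⟨β, hβ⟩ : ∃ β : ℤ, β = -b := ⟨_, rfl⟩
  have hβ0 : β ≠ 0 := by rw [hβ]; exact neg_ne_zero.2 hb0
  have hβabs : (b.natAbs : ℤ) = |β| := by rw [hβ, abs_neg, Int.natCast_natAbs]
  have hgβ : (g : ℤ) * β = -b₀ := by rw [hβ, mul_neg, eb₀]
  obtain ⟨hh, hhh⟩ : ∃ hh : ℕ → ℤ, hh = fun r : ℕ => (d + q * r) / g := ⟨_, rfl⟩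
  have hprop : ∀ r ∈ C, d + q * r = g * hh r ∧ IsCoprime (hh r) a ∧ IsCoprime (hh r) β ∧
      (¬ (2 : ℤ) ∣ a * β → (2 : ℤ) ∣ hh r) := by
    intro r hr
    obtain ⟨h, e1, e2, e3, e4⟩ := hloc r (hC r hr).2.1
    have e5 : hh r = h := by
      rw [hhh]
      simp only
      rw [e1, Int.mul_ediv_cancel_left _ hg0.ne']
    rw [e5, hβ]
    refine ⟨e1, e2, e3.neg_right, fun h => e4 ?_⟩
    intro hcon
    apply h
    rw [mul_neg]
    exact (dvd_neg).2 hcon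
  obtain ⟨r0, hr0, hr0'⟩ := exists_base C hCne β
  have hsex : ∀ r ∈ C, ∃ s : ℕ, hh r = hh r0 + a * β * q * s ∧ ((g : ℤ) * a * |β|) * s = |(r : ℤ) - r0| := by
    intro r hr
    have m1 : r ≡ R [MOD M] := (hC r hr).2.1
    have m0 : r0 ≡ R [MOD M] := (hC r0 hr0).2.1
    have m2 : (M : ℤ) ∣ (r : ℤ) - r0 := (m0.trans m1.symm).dvd
    have m3 : ((g * a * b.natAbs : ℕ) : ℤ) ∣ (r : ℤ) - r0 := (Int.natCast_dvd_natCast.2 hM3).trans m2
    obtain ⟨k, hk⟩ := m3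
    rw [Nat.cast_mul, Nat.cast_mul, hβabs] at hk
    exact ⟨k.natAbs, shift_diff hg1 ha1 hβ0 (hprop r hr).1 (hprop r0 hr0).1 hk (hr0' r hr)⟩
  choose! s hs using hsex
  -- the range of `n`
  have hb₀1 : 1 ≤ b₀.natAbs := Int.natAbs_pos.2 hb₀
  obtain ⟨Y, hY⟩ : ∃ Y, Y = X / (8 * b₀.natAbs) := ⟨_, rfl⟩
  have hY1 : Y * (8 * b₀.natAbs) ≤ X := by rw [hY]; exact Nat.div_mul_le_self _ _
  have hY2 : X < (Y + 1) * (8 * b₀.natAbs) := by
    rw [hY, ← Nat.div_lt_iff_lt_mul (by omega)]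
    omega
  have hYX : 8 * Y ≤ X := by
    calc 8 * Y = Y * (8 * 1) := by ring
      _ ≤ Y * (8 * b₀.natAbs) := Nat.mul_le_mul_left _ (by omega)
      _ ≤ X := hY1
  have hwin : ∀ r ∈ C, 5 * (X : ℤ) < 4 * (q * r) ∧ 2 * ((q : ℤ) * r) ≤ 3 * X := by
    intro r hr
    obtain ⟨_, _, w1, w2⟩ := hC r hr
    exact ⟨by exact_mod_cast w1, by exact_mod_cast w2⟩
  have hbn : ∀ n : ℕ, n ≤ Y → 8 * |b₀ * n| ≤ X := by
    intro n hn
    have e1 : n * (8 * b₀.natAbs) ≤ X := (Nat.mul_le_mul_right _ hn).trans hY1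
    have e2 : (n : ℤ) * (8 * (b₀.natAbs : ℕ)) ≤ X := by exact_mod_cast e1
    rw [Int.natCast_natAbs] at e2
    rw [abs_mul, abs_of_nonneg (Int.natCast_nonneg n)]
    calc 8 * (|b₀| * (n : ℤ)) = (n : ℤ) * (8 * |b₀|) := by ring
      _ ≤ X := e2
  have ha8 : 8 * a₀ ≤ X := by
    have : 8 * (a₀ : ℝ) ≤ X := by linarith
    exact_mod_cast this
  have hG : ∀ r ∈ C, ∀ n : ℕ, n ≤ Y → 1 ≤ hh r + β * n ∧ hh r + β * n ≤ N ∧ (a : ℤ) ≤ hh r + β * n ∧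
      g * (hh r + β * n) ≤ 3 * X ∧ g * (hh r + β * n) = d + q * r - b₀ * n := fun r hr n hn =>
    sizes hg1 (by exact_mod_cast hX0) (by exact_mod_cast hX1) hd hgβ (hprop r hr).1 (hwin r hr).1 (hwin r hr).2
      (hbn n hn) ea₀ ha8
  have hqr : ∀ r ∈ C, (q : ℤ) * |(r : ℤ) - r0| ≤ 2 * X := by
    intro r hr
    obtain ⟨w1, w2⟩ := hwin r hr
    obtain ⟨v1, v2⟩ := hwin r0 hr0
    have hq0' : (0 : ℤ) ≤ q := Int.natCast_nonneg q
    have e : (q : ℤ) * |(r : ℤ) - r0| = |(q : ℤ) * r - (q : ℤ) * r0| := by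
      rw [← mul_sub, abs_mul, abs_of_nonneg hq0']
    rw [e, abs_le]
    constructor <;> linarith
  have hinj : Set.InjOn s (C : Set ℕ) := by
    intro x hx y hy hxy
    have e1 := (hs x hx).1
    have e2 := (hs y hy).1
    rw [hxy] at e1
    have e3 : hh x = hh y := by rw [e1, e2]
    have e4 := (hprop x hx).1
    have e5 := (hprop y hy).1
    rw [e3, ← e5] at e4
    have hqz : (q : ℤ) ≠ 0 := by exact_mod_cast (by omega : q ≠ 0)
    have e6 : (q : ℤ) * x = q * y := add_left_cancel e4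
    exact_mod_cast mul_left_cancel₀ hqz e6
  -- a good prime
  have hgood : ∃ r ∈ C, |PS lamI lamI a β (hh r) Y - PS (lamzI z) (lamzI z) a β (hh r) Y| ≤ 4 * (L * (N / L ^ A)) := by
    by_contra hcon
    push Not at hcon
    have c2' := c1 h2q hbad a ha1 β hβ0 Y (hh r0) (fun n _ hn => ⟨(hG r0 hr0 n hn).1, (hG r0 hr0 n hn).2.1⟩)
      (C.image s) (by
      intro t ht
      rw [mem_image] at ht
      obtain ⟨r, hr, rfl⟩ := ht
      obtain ⟨e1, e2⟩ := sizes2 (q := q) (X := (X : ℤ)) hg1 ha1 hβ0 (hs r hr).2 (hqr r hr)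
      have e8 : 8 * (X : ℤ) ≤ N := by exact_mod_cast hX1
      have e9 : 8 * (Y : ℤ) ≤ X := by exact_mod_cast hYX
      refine ⟨by linarith, ?_, ?_⟩
      · have e3 : (Y : ℤ) + a * q * (s r) ≤ N := by linarith
        exact_mod_cast e3
      · intro n _ hn
        rw [← (hs r hr).1]
        exact (hG r hr n hn).2.1) (by
      intro t ht
      rw [mem_image] at ht
      obtain ⟨r, hr, rfl⟩ := ht
      rw [← (hs r hr).1]
      exact hcon r hr)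
    rw [card_image_of_injOn hinj] at c2'
    exact absurd c2' (not_le.2 hCbig)
  obtain ⟨r, hr, hrT⟩ := hgood
  obtain ⟨p1, p2, p3, p4⟩ := hprop r hr
  have hYN : Y ≤ N := by omega
  have haT' : (a : ℝ) ≤ L ^ T := by
    have e1 : (a : ℤ) ≤ a₀ := by
      rw [← ea₀]
      exact le_mul_of_one_le_left ha'0.le (by exact_mod_cast hg1)
    exact le_trans (by exact_mod_cast e1) haT
  obtain ⟨K, hK1, hK2, hK3, hK4⟩ := c4 X a b₀.natAbs Y hX2 ha1 hb₀1 haT' hbT hY2 hYN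
  have hml := c2 a ha1 β (by rw [hβ]; exact hcop.neg_right) (hh r) p2 p3 p4 Y
    (fun n _ hn => (hG r hr n hn).2.2.1) K hK1 hK2 hK3
  have hTbig : 4 * (√(N : ℝ) * Real.log N ^ 2) < PS lamI lamI a β (hh r) Y := by
    rw [← hLd]
    have e1 := (abs_le.1 hrT).1
    linarith
  obtain ⟨n, p, hn, hp, hnY, hpn⟩ := exist_pair hN1 ha1 hβ0 hYN (fun n _ hn => (hG r hr n hn).2.1) hTbig
  obtain ⟨g1, g2, g3, g4, g5⟩ := hG r hr n hnY
  have hap : a₀ * p = g * (hh r + β * n) := by rw [← hpn, ← ea₀]; ring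
  have hfin : a₀ * p + b₀ * n = d + q * r := by
    rw [hap, g5]
    ring
  have hp3 : (p : ℤ) ≤ 3 * X := by
    have e1 : (p : ℤ) ≤ a₀ * p := le_mul_of_one_le_left (Int.natCast_nonneg p) ha₀
    linarith
  have hr3 : (r : ℤ) ≤ 3 * X := by
    have e1 : (r : ℤ) ≤ q * r := le_mul_of_one_le_left (Int.natCast_nonneg r) (by exact_mod_cast hq1)
    linarith [(hwin r hr).2, Int.natCast_nonneg (n := r), Int.natCast_nonneg (n := X)]
  exact ⟨p, n, r, hp, hn, (hC r hr).1, hfin, by exact_mod_cast hp3, by omega, by exact_mod_cast hr3⟩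

end Pool.Agent.Y883.T5
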